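import Mathlib

/-! `asym`: optimising the scale in the bound for the resistance/log-gap sum. -/

namespace Pool.Agent.Helper60K9.SD

theorem asym {d : ℝ} (hd : 2 < d) {L : ℕ} (hL : 2 ≤ L) {c1 c2 : ℝ} (hc1 : 0 ≤ c1)
    (hc2 : 0 ≤ c2) :
    ∃ α K : ℝ, 0 < α ∧ α < 1 / 2 ∧ 0 < K ∧ ∀ (N : ℕ) (e : ℝ), 1 ≤ N →
      (∀ J : ℕ, L ^ J ≤ N → e ≤ c1 * (L : ℝ) ^ J +
        Real.sqrt (c2 * N * (1 + Real.log N) * (1 / 2) ^ J *
          (1 + ((L : ℝ) ^ J) ^ (d + 1) * (1 + Real.log N) / N))) →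
      e ≤ K * (N : ℝ) ^ α := by
  have hL' : (2 : ℝ) ≤ (L : ℝ) := by exact_mod_cast hL
  have hL0 : (0 : ℝ) < (L : ℝ) := by linarith
  have hlogL : 0 < Real.log L := Real.log_pos (by linarith)
  have hlog2 : 0 < Real.log 2 := Real.log_pos (by norm_num)
  have hlog2L : Real.log 2 ≤ Real.log L := Real.log_le_log (by norm_num) hL'
  set s : ℝ := 1 / (d + 2) with hs
  have hs0 : 0 < s := by positivity
  have hs4 : s < 1 / 4 := by
    rw [hs]
    exact one_div_lt_one_div_of_lt (by norm_num) (by linarith)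
  set r : ℝ := Real.log 2 / Real.log L with hr
  have hr0 : 0 < r := div_pos hlog2 hlogL
  have hr1 : r ≤ 1 := (div_le_one hlogL).2 hlog2L
  set θ : ℝ := s * r with hθ
  have hθ0 : 0 < θ := mul_pos hs0 hr0
  have hθs : θ ≤ s := by
    rw [hθ]
    nlinarith
  refine ⟨1 / 2 - θ / 4, c1 + 2 * Real.sqrt c2 * (1 + 4 / θ) + 1, by linarith, by linarith,
    by positivity, ?_⟩
  intro N e hN h
  have hN1 : (1 : ℝ) ≤ (N : ℝ) := by exact_mod_cast hN
  have hN0 : (0 : ℝ) < (N : ℝ) := by linarith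
  have hlogN : 0 ≤ Real.log N := Real.log_nonneg hN1
  set x : ℝ := (N : ℝ) ^ s with hx
  have hx1 : 1 ≤ x := Real.one_le_rpow hN1 hs0.le
  have hx0 : 0 < x := by linarith
  have hfl : ⌊x⌋₊ ≠ 0 := by
    have := (Nat.one_le_floor_iff x).2 hx1
    omega
  set J : ℕ := Nat.log L ⌊x⌋₊ with hJ
  have hJle : L ^ J ≤ ⌊x⌋₊ := Nat.pow_log_le_self L hfl
  have hJle' : (L : ℝ) ^ J ≤ x := by
    have h1 : ((L ^ J : ℕ) : ℝ) ≤ (⌊x⌋₊ : ℝ) := by exact_mod_cast hJle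
    have h2 := Nat.floor_le hx0.le
    push_cast at h1
    linarith
  have hxN : x ≤ N := by
    have := Real.rpow_le_rpow_of_exponent_le hN1 (show s ≤ 1 by linarith)
    rwa [Real.rpow_one] at this
  have hJN : L ^ J ≤ N := by
    have : ((L ^ J : ℕ) : ℝ) ≤ (N : ℝ) := by
      push_cast
      linarith
    exact_mod_cast this
  have hJlt : x < (L : ℝ) ^ (J + 1) := by
    have h1 : ⌊x⌋₊ < L ^ (J + 1) := Nat.lt_pow_succ_log_self (by omega) _
    have h2 : (⌊x⌋₊ : ℝ) + 1 ≤ ((L ^ (J + 1) : ℕ) : ℝ) := by exact_mod_cast h1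
    have h3 := Nat.lt_floor_add_one x
    push_cast at h2
    linarith
  have hkey := h J hJN
  -- the factor `(1/2)^J`
  have hLr : (L : ℝ) ^ r = 2 := by
    rw [Real.rpow_def_of_pos hL0, hr, mul_div_cancel₀ _ hlogL.ne', Real.exp_log (by norm_num)]
  have hhalf : (1 / 2 : ℝ) ^ J ≤ 2 * (N : ℝ) ^ (-θ) := by
    have h1 : x ^ r ≤ 2 ^ (J + 1) := by
      calc x ^ r ≤ ((L : ℝ) ^ (J + 1)) ^ r := Real.rpow_le_rpow hx0.le hJlt.le hr0.le
        _ = ((L : ℝ) ^ r) ^ (J + 1) := by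
            rw [← Real.rpow_natCast, ← Real.rpow_mul hL0.le, mul_comm, Real.rpow_mul hL0.le,
              Real.rpow_natCast]
        _ = 2 ^ (J + 1) := by rw [hLr]
    have h2 : x ^ r = (N : ℝ) ^ θ := by
      rw [hx, ← Real.rpow_mul hN0.le]
    rw [Real.rpow_neg hN0.le, ← h2, ← div_eq_mul_inv, le_div_iff₀ (by positivity)]
    calc (1 / 2 : ℝ) ^ J * x ^ r ≤ (1 / 2 : ℝ) ^ J * 2 ^ (J + 1) := by gcongr
      _ = 2 := by
        rw [pow_succ, ← mul_assoc, ← mul_pow]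
        norm_num
  -- the ratio
  have hratio : ((L : ℝ) ^ J) ^ (d + 1) * (1 + Real.log N) / N ≤ 1 + Real.log N := by
    have h1 : ((L : ℝ) ^ J) ^ (d + 1) ≤ N := by
      calc ((L : ℝ) ^ J) ^ (d + 1) ≤ x ^ (d + 1) :=
            Real.rpow_le_rpow (by positivity) hJle' (by linarith)
        _ = (N : ℝ) ^ (s * (d + 1)) := by rw [hx, ← Real.rpow_mul hN0.le]
        _ ≤ (N : ℝ) ^ (1 : ℝ) := by
            apply Real.rpow_le_rpow_of_exponent_le hN1
            rw [hs, one_div, inv_mul_le_iff₀ (by linarith)]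
            linarith
        _ = N := Real.rpow_one _
    rw [div_le_iff₀ hN0]
    have : 0 ≤ 1 + Real.log N := by linarith
    nlinarith
  have hlogb : 1 + Real.log N ≤ (1 + 4 / θ) * (N : ℝ) ^ (θ / 4) := by
    have h1 : Real.log N ≤ (N : ℝ) ^ (θ / 4) / (θ / 4) :=
      Real.log_le_rpow_div hN0.le (by positivity)
    have h2 : 1 ≤ (N : ℝ) ^ (θ / 4) := Real.one_le_rpow hN1 (by positivity)
    have h3 : (N : ℝ) ^ (θ / 4) / (θ / 4) = 4 / θ * (N : ℝ) ^ (θ / 4) := by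
      field_simp
    rw [h3] at h1
    linarith
  have hsq : Real.sqrt (c2 * N * (1 + Real.log N) * (1 / 2) ^ J *
          (1 + ((L : ℝ) ^ J) ^ (d + 1) * (1 + Real.log N) / N)) ≤
      2 * Real.sqrt c2 * (1 + 4 / θ) * (N : ℝ) ^ (1 / 2 - θ / 4) := by
    have h0 : 0 ≤ 1 + Real.log N := by linarith
    have hb : c2 * N * (1 + Real.log N) * (1 / 2) ^ J *
          (1 + ((L : ℝ) ^ J) ^ (d + 1) * (1 + Real.log N) / N) ≤
        c2 * N * (1 + Real.log N) * (2 * (N : ℝ) ^ (-θ)) * (2 * (1 + Real.log N)) := by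
      have : 1 + ((L : ℝ) ^ J) ^ (d + 1) * (1 + Real.log N) / N ≤ 2 * (1 + Real.log N) := by
        linarith
      have hpos : 0 ≤ ((L : ℝ) ^ J) ^ (d + 1) * (1 + Real.log N) / N := by positivity
      gcongr
    have hid : c2 * N * (1 + Real.log N) * (2 * (N : ℝ) ^ (-θ)) * (2 * (1 + Real.log N)) =
        (2 * Real.sqrt c2 * (1 + Real.log N) * (N : ℝ) ^ (1 / 2 - θ / 2)) ^ 2 := by
      have h1 : ((N : ℝ) ^ (1 / 2 - θ / 2)) ^ 2 = (N : ℝ) * (N : ℝ) ^ (-θ) := by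
        rw [← Real.rpow_natCast, ← Real.rpow_mul hN0.le]
        nth_rewrite 2 [← Real.rpow_one (N : ℝ)]
        rw [← Real.rpow_add hN0]
        congr 1
        push_cast
        ring
      rw [mul_pow, mul_pow, mul_pow, h1, Real.sq_sqrt hc2]
      ring
    calc _ ≤ Real.sqrt ((2 * Real.sqrt c2 * (1 + Real.log N) *
            (N : ℝ) ^ (1 / 2 - θ / 2)) ^ 2) := by
          apply Real.sqrt_le_sqrt
          rw [← hid]
          exact hb
      _ = 2 * Real.sqrt c2 * (1 + Real.log N) * (N : ℝ) ^ (1 / 2 - θ / 2) :=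
          Real.sqrt_sq (by positivity)
      _ ≤ 2 * Real.sqrt c2 * ((1 + 4 / θ) * (N : ℝ) ^ (θ / 4)) *
            (N : ℝ) ^ (1 / 2 - θ / 2) := by gcongr
      _ = 2 * Real.sqrt c2 * (1 + 4 / θ) * ((N : ℝ) ^ (θ / 4) *
            (N : ℝ) ^ (1 / 2 - θ / 2)) := by ring
      _ = 2 * Real.sqrt c2 * (1 + 4 / θ) * (N : ℝ) ^ (1 / 2 - θ / 4) := by
          rw [← Real.rpow_add hN0]
          congr 2
          ring
  have hlin : c1 * (L : ℝ) ^ J ≤ c1 * (N : ℝ) ^ (1 / 2 - θ / 4) := by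
    have h1 : x ≤ (N : ℝ) ^ (1 / 2 - θ / 4) :=
      Real.rpow_le_rpow_of_exponent_le hN1 (by linarith)
    have : (L : ℝ) ^ J ≤ (N : ℝ) ^ (1 / 2 - θ / 4) := hJle'.trans h1
    gcongr
  have hp : 0 < (N : ℝ) ^ (1 / 2 - θ / 4) := Real.rpow_pos_of_pos hN0 _
  nlinarith

end Pool.Agent.Helper60K9.SD
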