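import Pool.Agent.Helper60K9.SD.Main

/-! # The bound for the expected distance at a given scale -/

set_option autoImplicit false

namespace Pool.Agent.Helper60K9.SD

open Finset

variable {V : Type*} {G : SimpleGraph V}

/-- logarithm bound -/
theorem log_bound {C d : ℝ} (hC : 0 < C) (hd : 0 < d) : ∃ cl : ℝ, 0 < cl ∧ ∀ N : ℕ, 1 ≤ N →
    Real.log (1 + C * (4 * (N : ℝ)) ^ d) ≤ cl * (1 + Real.log N) := by
  refine ⟨Real.log (1 + C * 4 ^ d) + d, ?_, ?_⟩
  · have h1 : 0 < C * (4 : ℝ) ^ d := by positivity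
    have := Real.log_pos (by linarith : (1 : ℝ) < 1 + C * 4 ^ d)
    linarith
  · intro N hN
    have hN1 : (1 : ℝ) ≤ N := by exact_mod_cast hN
    have hN0 : (0 : ℝ) < N := by linarith
    have h1 : 0 < C * (4 : ℝ) ^ d := by positivity
    have h2 := (Real.log_pos (by linarith : (1 : ℝ) < 1 + C * 4 ^ d)).le
    have h3 : 0 ≤ Real.log N := Real.log_nonneg hN1
    have h4 : (1 : ℝ) ≤ (N : ℝ) ^ d := Real.one_le_rpow hN1 hd.le
    have h5 : 1 + C * (4 * (N : ℝ)) ^ d ≤ (1 + C * 4 ^ d) * (N : ℝ) ^ d := by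
      rw [Real.mul_rpow (by norm_num) hN0.le]
      nlinarith
    calc Real.log (1 + C * (4 * (N : ℝ)) ^ d) ≤ Real.log ((1 + C * 4 ^ d) * (N : ℝ) ^ d) :=
          Real.log_le_log (by positivity) h5
      _ = Real.log (1 + C * 4 ^ d) + d * Real.log N := by
          rw [Real.log_mul (by positivity) (by positivity), Real.log_rpow hN0]
      _ ≤ _ := by nlinarith

/-- the expected distance of the walk from its starting point (a finite sum) -/
noncomputable def expDist (G : SimpleGraph V) [G.LocallyFinite] (o : V) (N : ℕ) : ℝ :=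
  ∑ x ∈ bl G o N, law G o N x * (G.dist o x : ℝ)

theorem expDist_eq_sum [G.LocallyFinite] {d c₀ C : ℝ} (h : Gr G d c₀ C) (o : V) (N : ℕ)
    (φ : V → ℝ) (U : Finset V) (hU : ∀ x, G.dist o x ≤ N → x ∈ U) :
    ∑ x ∈ bl G o N, law G o N x * φ x = ∑ x ∈ U, law G o N x * φ x := by
  apply Finset.sum_subset
  · intro x hx
    exact hU x (h.mem_bl.1 hx)
  · intro x _ hx
    rw [h.mem_bl, not_le] at hx
    rw [law_support h.conn o N x hx, zero_mul]

theorem expDist_bound [G.LocallyFinite] {d c₀ C : ℝ} (h : Gr G d c₀ C) {q L : ℕ} {E : ℝ}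
    (hE : 0 < E) (hL : 2 ≤ L)
    (hW : ∀ J : ℕ, ∃ W : V → ℝ, (∀ x, 0 ≤ W x) ∧ Len G W 1 (q * L ^ J) ∧
      Dens G d (fun x => W x ^ 2) (E * (1 / 2) ^ J) (L ^ J)) :
    ∃ c1 c2 : ℝ, 0 ≤ c1 ∧ 0 ≤ c2 ∧ ∀ (o : V) (N : ℕ), 1 ≤ N → ∀ J : ℕ, L ^ J ≤ N →
      expDist G o N ≤ c1 * (L : ℝ) ^ J + Real.sqrt (c2 * N * (1 + Real.log N) * (1 / 2) ^ J *
        (1 + ((L : ℝ) ^ J) ^ (d + 1) * (1 + Real.log N) / N)) := by
  classical
  obtain ⟨Ca, hCa0, hCa⟩ := sep_card h
  have hC := h.C_pos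
  obtain ⟨cl, hcl, hlog⟩ := log_bound hC h.dpos
  have hc0 := h.cpos
  set c2 : ℝ := cl / 2 * (2 * C * E * 2 ^ d * (Ca * 3 ^ d)) * (4 / c₀ + 4 * cl) with hc2
  have h2d : (0 : ℝ) < 2 ^ d := by positivity
  have h3d : (0 : ℝ) < 3 ^ d := by positivity
  have hc2pos : 0 < c2 := by positivity
  refine ⟨q, c2, Nat.cast_nonneg _, hc2pos.le, ?_⟩
  intro o N hN J hJ
  have hN1 : (1 : ℝ) ≤ N := by exact_mod_cast hN
  have hN0 : (0 : ℝ) < N := by linarith
  have hlogN : 0 ≤ Real.log N := Real.log_nonneg hN1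
  set s : ℕ := L ^ J with hs
  have hs1 : 1 ≤ s := Nat.one_le_pow _ _ (by omega)
  have hsR : (1 : ℝ) ≤ s := by exact_mod_cast hs1
  have hs0 : (0 : ℝ) < s := by linarith
  have hsL : (L : ℝ) ^ J = (s : ℝ) := by rw [hs]; push_cast; rfl
  rw [hsL]
  obtain ⟨W, hW0, hWL, hWD⟩ := hW J
  obtain ⟨F, hFo, hF0, hFW, hFd⟩ := exists_potential h.conn hW0 hWL o
  have hdeg := degree_pos h
  -- the smoothing parameter
  set B : ℝ := C * (4 * (N : ℝ)) ^ d with hB
  have hBpos : 0 < B := by positivity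
  set ε : ℝ := 1 / B with hε
  have hεpos : 0 < ε := by positivity
  have hell : Real.log ((1 + ε) / ε) ≤ cl * (1 + Real.log N) := by
    have h1 : (1 + ε) / ε = 1 + C * (4 * (N : ℝ)) ^ d := by
      rw [hε]
      field_simp
      ring
    rw [h1]
    exact hlog N hN
  have hell0 : 0 ≤ Real.log ((1 + ε) / ε) := by
    apply Real.log_nonneg
    rw [le_div_iff₀ hεpos]
    linarith
  set ℓ := Real.log ((1 + ε) / ε) with hℓ
  set hh : V → ℝ := fun x => (∑ t ∈ range N, law G o t x) / (N * G.degree x) with hhdef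
  have hhn : ∀ x, 0 ≤ hh x := fun x => div_nonneg (Finset.sum_nonneg fun t _ => law_nonneg o t x)
    (by positivity)
  set g : V → ℝ := fun x => Real.sqrt (hh x + ε) with hg
  have hg2 : ∀ x, g x ^ 2 = hh x + ε := fun x => Real.sq_sqrt (by have := hhn x; linarith)
  set U := bl G o (N + 1) with hU
  set U' := bl G o (N + 1 + 2 * s) with hU'
  have hUm : ∀ x, G.dist o x ≤ N + 1 → x ∈ U := fun x hx => h.mem_bl.2 hx
  have hU'm : ∀ x, G.dist o x ≤ N + 1 → x ∈ U' := fun x hx => h.mem_bl.2 (by omega)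
  set D : V → ℝ := fun x => ∑ y ∈ G.neighborFinset x, (F x - F y) ^ 2 with hD
  have hD0 : ∀ x, 0 ≤ D x := fun x => Finset.sum_nonneg fun _ _ => sq_nonneg _
  -- local energy of F
  set Dm : ℝ := 2 * C * (E * (1 / 2) ^ J * (2 * (s : ℝ)) ^ d) with hDm
  have hDmz : ∀ z, ∑ x ∈ bl G z s, D x ≤ Dm := by
    intro z
    refine (local_energy h hW0 hFW z s).trans ?_
    rw [hDm]
    refine mul_le_mul_of_nonneg_left ?_ (by positivity)
    refine (hWD z (s + 1) (by omega)).trans ?_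
    refine mul_le_mul_of_nonneg_left ?_ (by positivity)
    refine Real.rpow_le_rpow (by positivity) ?_ h.dpos.le
    push_cast
    linarith
  have hws := weighted_sum h hCa0 hCa g D hD0 hs1 hDmz U U' (by
    intro x hx u hxu
    rw [hU, h.mem_bl] at hx
    rw [hU', h.mem_bl]
    have := h.conn.dist_triangle (u := o) (v := x) (w := u)
    omega)
  -- the total mass
  have hmass : ∑ u ∈ U', g u ^ 2 ≤ 2 := by
    have h1 : ∑ u ∈ U', g u ^ 2 = ∑ u ∈ U', hh u + ε * (U'.card : ℝ) := by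
      rw [Finset.sum_congr rfl fun u _ => hg2 u, Finset.sum_add_distrib, Finset.sum_const,
        nsmul_eq_mul]
      ring
    have h2 : ∑ u ∈ U', hh u ≤ 1 := by
      have h3 : ∀ u, hh u ≤ (∑ t ∈ range N, law G o t u) / N := by
        intro u
        apply div_le_div_of_nonneg_left (Finset.sum_nonneg fun t _ => law_nonneg o t u) hN0
        have h4 : (1 : ℝ) ≤ G.degree u := by exact_mod_cast hdeg u
        nlinarith
      calc ∑ u ∈ U', hh u ≤ ∑ u ∈ U', (∑ t ∈ range N, law G o t u) / N :=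
            Finset.sum_le_sum fun u _ => h3 u
        _ = (∑ t ∈ range N, ∑ u ∈ U', law G o t u) / N := by
            rw [← Finset.sum_div, Finset.sum_comm]
        _ = (∑ _t ∈ range N, (1 : ℝ)) / N := by
            congr 1
            refine Finset.sum_congr rfl fun t ht => ?_
            exact law_sum h.conn hdeg o t U' (fun x hx => hU'm x (by
              have := Finset.mem_range.1 ht
              omega))
        _ = 1 := by simp [hN0.ne']
    have h5 : ε * (U'.card : ℝ) ≤ 1 := by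
      have h6 := h.upper o (N + 1 + 2 * s) (by omega)
      have h7 : ((N + 1 + 2 * s : ℕ) : ℝ) ≤ 4 * (N : ℝ) := by
        have : N + 1 + 2 * s ≤ 4 * N := by omega
        exact_mod_cast this
      have h8 : (U'.card : ℝ) ≤ B := by
        refine h6.trans ?_
        rw [hB]
        exact mul_le_mul_of_nonneg_left (Real.rpow_le_rpow (by positivity) h7 h.dpos.le) hC.le
      rw [hε, one_div, inv_mul_le_iff₀ hBpos, mul_one]
      exact h8
    linarith
  have hen := entropy_energy h.conn hdeg o N hN ε hεpos U' hU'm hh (fun x => rfl)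
  have hen' : ∑ u ∈ U', ∑ v ∈ G.neighborFinset u, (g u - g v) ^ 2 ≤ ℓ / (2 * N) := hen
  -- the weighted energy
  have hsd : (0 : ℝ) < (s : ℝ) ^ d := Real.rpow_pos_of_pos hs0 d
  have hsd1 : (s : ℝ) ^ (d + 1) = (s : ℝ) ^ d * s := Real.rpow_add_one hs0.ne' d
  have hM : ∑ x ∈ U, (hh x + ε) * D x ≤ (2 * C * E * 2 ^ d * (Ca * 3 ^ d)) * (1 / 2) ^ J *
      ((4 / c₀ + 4 * cl) * (1 + (s : ℝ) ^ (d + 1) * (1 + Real.log N) / N)) := by
    have h1 : ∑ x ∈ U, (hh x + ε) * D x = ∑ x ∈ U, g x ^ 2 * D x :=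
      Finset.sum_congr rfl fun x _ => by rw [hg2]
    rw [h1]
    refine hws.trans ?_
    have h2 : 2 / (c₀ * (s : ℝ) ^ d) * ∑ u ∈ U', g u ^ 2 +
        8 * s * ∑ u ∈ U', ∑ v ∈ G.neighborFinset u, (g u - g v) ^ 2 ≤
        ((4 / c₀ + 4 * cl) * (1 + (s : ℝ) ^ (d + 1) * (1 + Real.log N) / N)) / (s : ℝ) ^ d := by
      have h3 : 2 / (c₀ * (s : ℝ) ^ d) * ∑ u ∈ U', g u ^ 2 ≤ 2 / (c₀ * (s : ℝ) ^ d) * 2 :=
        mul_le_mul_of_nonneg_left hmass (by positivity)
      have h4 : 8 * (s : ℝ) * ∑ u ∈ U', ∑ v ∈ G.neighborFinset u, (g u - g v) ^ 2 ≤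
          8 * s * (cl * (1 + Real.log N) / (2 * N)) := by
        refine mul_le_mul_of_nonneg_left (hen'.trans ?_) (by positivity)
        gcongr
      have h5 : 2 / (c₀ * (s : ℝ) ^ d) * 2 = (4 / c₀) / (s : ℝ) ^ d := by
        field_simp
        ring
      have h6 : 8 * (s : ℝ) * (cl * (1 + Real.log N) / (2 * N)) =
          (4 * cl * ((s : ℝ) ^ (d + 1) * (1 + Real.log N) / N)) / (s : ℝ) ^ d := by
        rw [hsd1]
        field_simp
        ring
      have h7 : 0 ≤ (s : ℝ) ^ (d + 1) * (1 + Real.log N) / N := by positivity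
      have h8 : 0 < 4 / c₀ := by positivity
      calc _ ≤ (4 / c₀) / (s : ℝ) ^ d +
          (4 * cl * ((s : ℝ) ^ (d + 1) * (1 + Real.log N) / N)) / (s : ℝ) ^ d := by
            rw [← h5, ← h6]; exact add_le_add h3 h4
        _ = (4 / c₀ + 4 * cl * ((s : ℝ) ^ (d + 1) * (1 + Real.log N) / N)) / (s : ℝ) ^ d := by ring
        _ ≤ _ := by
            apply div_le_div_of_nonneg_right _ hsd.le
            nlinarith
    have h9 : 0 ≤ Dm * (Ca * 3 ^ d) := by positivity
    refine (mul_le_mul_of_nonneg_left h2 h9).trans (le_of_eq ?_)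
    rw [hDm, Real.mul_rpow (by norm_num) hs0.le]
    field_simp
  have hdrift := entropy_drift h.conn hdeg o N hN ε hεpos U hUm hh (fun x => rfl) F
  rw [hFo, sub_zero] at hdrift
  have hfin : ∑ x ∈ U, law G o N x * F x ≤ Real.sqrt (c2 * N * (1 + Real.log N) * (1 / 2) ^ J *
        (1 + (s : ℝ) ^ (d + 1) * (1 + Real.log N) / N)) := by
    refine hdrift.trans ?_
    rw [← Real.sqrt_mul (by positivity)]
    apply Real.sqrt_le_sqrt
    have h1 : (N : ℝ) * ℓ / 2 ≤ N * (cl * (1 + Real.log N)) / 2 := by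
      gcongr
    have h2 : 0 ≤ ∑ x ∈ U, (hh x + ε) * D x := Finset.sum_nonneg fun x _ =>
      mul_nonneg (by have := hhn x; linarith) (hD0 x)
    calc (N : ℝ) * ℓ / 2 * ∑ x ∈ U, (hh x + ε) * D x
        ≤ (N * (cl * (1 + Real.log N)) / 2) * ((2 * C * E * 2 ^ d * (Ca * 3 ^ d)) * (1 / 2) ^ J *
      ((4 / c₀ + 4 * cl) * (1 + (s : ℝ) ^ (d + 1) * (1 + Real.log N) / N))) := by
          apply mul_le_mul h1 hM h2 (by positivity)
      _ = _ := by rw [hc2]; ring
  -- from F to the distance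
  have hdist : expDist G o N ≤ ∑ x ∈ U, law G o N x * F x + q * s := by
    unfold expDist
    rw [expDist_eq_sum h o N (fun x => (G.dist o x : ℝ)) U (fun x hx => hUm x (by omega))]
    have h1 := law_sum h.conn hdeg o N U (fun x hx => hUm x (by omega))
    calc ∑ x ∈ U, law G o N x * (G.dist o x : ℝ)
        ≤ ∑ x ∈ U, law G o N x * (F x + q * s) := by
          refine Finset.sum_le_sum fun x _ => mul_le_mul_of_nonneg_left ?_ (law_nonneg o N x)
          by_cases hx : q * L ^ J ≤ G.dist o x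
          · have := hFd x hx
            have h2 : (0 : ℝ) ≤ q * s := by positivity
            linarith
          · have h2 : (G.dist o x : ℝ) ≤ q * s := by
              rw [hs]
              exact_mod_cast (not_le.1 hx).le
            have := hF0 x
            linarith
      _ = ∑ x ∈ U, law G o N x * F x + (∑ x ∈ U, law G o N x) * (q * s) := by
          rw [Finset.sum_mul, ← Finset.sum_add_distrib]
          exact Finset.sum_congr rfl fun x _ => by ring
      _ = _ := by rw [h1, one_mul]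
  linarith

end Pool.Agent.Helper60K9.SD
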