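import Pool.Agent.Helper60K9.SD.Defs

/-!
# Cells around a maximal separated set, and the packing bound
-/

set_option autoImplicit false

namespace Pool.Agent.Helper60K9.SD

open Finset

variable {V : Type*} {G : SimpleGraph V}

/-- a maximal `ρ`-separated set is `ρ`-dense -/
theorem exists_max_sep (G : SimpleGraph V) (ρ : ℕ) (hρ : 1 ≤ ρ) :
    ∃ Z : Set V, (∀ x ∈ Z, ∀ y ∈ Z, x ≠ y → ρ ≤ G.dist x y) ∧ ∀ x, ∃ z ∈ Z, G.dist x z < ρ := by
  obtain ⟨Z, hZ⟩ := zorn_subset {Z : Set V | ∀ x ∈ Z, ∀ y ∈ Z, x ≠ y → ρ ≤ G.dist x y} (by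
    intro c hc hchain
    refine ⟨⋃₀ c, ?_, fun s hs => Set.subset_sUnion_of_mem hs⟩
    rintro x ⟨s, hs, hxs⟩ y ⟨t, ht, hyt⟩ hxy
    rcases hchain.total hs ht with hst | hts
    · exact hc ht x (hst hxs) y hyt hxy
    · exact hc hs x hxs y (hts hyt) hxy)
  refine ⟨Z, hZ.prop, fun x => ?_⟩
  by_contra hx
  push Not at hx
  have hxZ : x ∉ Z := by
    intro hxZ
    have := hx x hxZ
    rw [SimpleGraph.dist_self] at this
    omega
  have h1 : insert x Z ∈ {Z : Set V | ∀ x ∈ Z, ∀ y ∈ Z, x ≠ y → ρ ≤ G.dist x y} := by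
    intro a ha b hb hab
    rcases ha with rfl | ha
    · rcases hb with rfl | hb
      · exact absurd rfl hab
      · exact hx b hb
    · rcases hb with rfl | hb
      · rw [SimpleGraph.dist_comm]; exact hx a ha
      · exact hZ.prop a ha b hb hab
  have h2 := hZ.le_of_ge h1 (Set.subset_insert x Z)
  exact hxZ (h2 (Set.mem_insert x Z))

theorem exists_cells (hconn : G.Connected) (ρ : ℕ) (hρ : 1 ≤ ρ) :
    ∃ c : V → V, (∀ x, G.dist x (c x) < ρ) ∧ (∀ x, c (c x) = c x) ∧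
      (∀ x y, c x ≠ c y → ρ ≤ G.dist (c x) (c y)) ∧
      ∀ z, c z = z → (G.induce {x | c x = z}).Connected := by
  classical
  obtain ⟨Z, hZ, hd⟩ := exists_max_sep G ρ hρ
  -- distance to Z
  have hne : ∀ x, ∃ n, ∃ z ∈ Z, G.dist x z = n := fun x => by
    obtain ⟨z, hz, -⟩ := hd x
    exact ⟨_, z, hz, rfl⟩
  let D : V → ℕ := fun x => Nat.find (hne x)
  have hDle : ∀ x, ∀ z ∈ Z, D x ≤ G.dist x z := fun x z hz => Nat.find_min' (hne x) ⟨z, hz, rfl⟩
  have hDlt : ∀ x, D x < ρ := fun x => by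
    obtain ⟨z, hz, h⟩ := hd x
    exact lt_of_le_of_lt (hDle x z hz) h
  have hDex : ∀ x, ∃ z ∈ Z, G.dist x z = D x := fun x => Nat.find_spec (hne x)
  have hD0 : ∀ x, D x = 0 → x ∈ Z := by
    intro x hx
    obtain ⟨z, hz, h⟩ := hDex x
    rw [hx] at h
    have := (hconn.dist_eq_zero_iff).1 h
    rw [this]; exact hz
  have hpar : ∀ x, ∃ y, D x ≠ 0 → G.Adj x y ∧ D y + 1 = D x := by
    intro x
    by_cases hx : D x = 0
    · exact ⟨x, fun h => absurd hx h⟩
    obtain ⟨z, hz, h⟩ := hDex x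
    obtain ⟨w, hw⟩ := hconn.exists_walk_length_eq_dist x z
    cases w with
    | nil =>
      exfalso
      apply hx
      rw [← h, ← hw]; rfl
    | @cons _ y _ hxy p =>
      refine ⟨y, fun _ => ⟨hxy, ?_⟩⟩
      have h1 : D y ≤ G.dist y z := hDle y z hz
      have h2 : G.dist y z ≤ p.length := SimpleGraph.dist_le p
      have h3 : p.length + 1 = D x := by
        rw [← h, ← hw]; rfl
      obtain ⟨z', hz', h'⟩ := hDex y
      have h4 : D x ≤ G.dist x z' := hDle x z' hz'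
      have h5 : G.dist x z' ≤ G.dist x y + G.dist y z' := hconn.dist_triangle
      have h6 : G.dist x y ≤ 1 := by
        rw [SimpleGraph.dist_eq_one_iff_adj.2 hxy]
      omega
  choose p hp using hpar
  let c : V → V := fun x => p^[D x] x
  have hcp : ∀ x, D x ≠ 0 → c (p x) = c x := by
    intro x hx
    have h1 := (hp x hx).2
    show p^[D (p x)] (p x) = p^[D x] x
    rw [← h1, Function.iterate_succ_apply]
  have hc0 : ∀ x, D x = 0 → c x = x := by
    intro x hx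
    show p^[D x] x = x
    rw [hx]; rfl
  have hmain : ∀ n x, D x = n → D (c x) = 0 ∧ G.dist x (c x) ≤ n := by
    intro n
    induction n with
    | zero =>
      intro x hx
      rw [hc0 x hx]
      exact ⟨hx, by rw [SimpleGraph.dist_self]⟩
    | succ n ih =>
      intro x hx
      have hx0 : D x ≠ 0 := by omega
      have h1 := hp x hx0
      have h2 := ih (p x) (by omega)
      rw [hcp x hx0] at h2
      refine ⟨h2.1, ?_⟩
      have h5 : G.dist x (c x) ≤ G.dist x (p x) + G.dist (p x) (c x) := hconn.dist_triangle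
      have h6 : G.dist x (p x) ≤ 1 := by
        rw [SimpleGraph.dist_eq_one_iff_adj.2 h1.1]
      omega
  have hcD : ∀ x, D (c x) = 0 := fun x => (hmain _ x rfl).1
  refine ⟨c, fun x => lt_of_le_of_lt (hmain _ x rfl).2 (hDlt x), fun x => hc0 _ (hcD x), ?_, ?_⟩
  · intro x y hxy
    exact hZ _ (hD0 _ (hcD x)) _ (hD0 _ (hcD y)) hxy
  · intro z hz
    have hr : ∀ n x, D x = n → ∀ (hx : c x = z),
        (G.induce {x | c x = z}).Reachable ⟨x, hx⟩ ⟨z, hz⟩ := by
      intro n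
      induction n with
      | zero =>
        intro x hx hxz
        have : x = z := by rw [← hxz, hc0 x hx]
        subst this
        exact SimpleGraph.Reachable.refl _
      | succ n ih =>
        intro x hx hxz
        have hx0 : D x ≠ 0 := by omega
        have h1 := hp x hx0
        have h2 : c (p x) = z := by rw [hcp x hx0, hxz]
        have h3 := ih (p x) (by omega) h2
        refine SimpleGraph.Reachable.trans (SimpleGraph.Adj.reachable ?_) h3
        exact h1.1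
    have : Nonempty {x | c x = z} := ⟨⟨z, hz⟩⟩
    refine ⟨?_⟩
    rintro ⟨x, hx⟩ ⟨y, hy⟩
    exact (hr _ x rfl hx).trans (hr _ y rfl hy).symm

theorem Gr.C_pos {d c C : ℝ} (h : Gr G d c C) : 0 < C := by
  obtain ⟨v⟩ := h.conn.nonempty
  have h1 := h.lower v 1 le_rfl
  have h2 := h.upper v 1 le_rfl
  have h3 := h.cpos
  simp only [Nat.cast_one, Real.one_rpow, mul_one] at h1 h2
  linarith

theorem sep_card {d c C : ℝ} (h : Gr G d c C) : ∃ Ca : ℝ, 0 < Ca ∧ ∀ (ρ R : ℕ), 1 ≤ ρ →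
    ∀ (v : V) (T : Finset V), (∀ x ∈ T, G.dist v x ≤ R) →
      (∀ x ∈ T, ∀ y ∈ T, x ≠ y → ρ ≤ G.dist x y) → (T.card : ℝ) ≤ Ca * ((R : ℝ) / ρ + 2) ^ d := by
  classical
  have hC := h.C_pos
  have hc := h.cpos
  have hd := h.dpos
  refine ⟨C * 2 ^ d + C / c * 4 ^ d, by positivity, ?_⟩
  intro ρ R hρ v T hT hsep
  have hρ' : (1 : ℝ) ≤ ρ := by exact_mod_cast hρ
  have hR0 : (0 : ℝ) ≤ R := Nat.cast_nonneg R
  have hq : (0 : ℝ) ≤ (R : ℝ) / ρ := by positivity
  have hA : 0 ≤ C * 2 ^ d * ((R : ℝ) / ρ + 2) ^ d := by positivity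
  have hB : 0 ≤ C / c * 4 ^ d * ((R : ℝ) / ρ + 2) ^ d := by positivity
  by_cases hs : ρ ≤ 2
  · have h1 : T ⊆ bl G v (R + 1) := by
      intro x hx
      rw [h.mem_bl]
      have := hT x hx
      omega
    have h2 : (T.card : ℝ) ≤ C * ((R + 1 : ℕ) : ℝ) ^ d :=
      le_trans (by exact_mod_cast Finset.card_le_card h1) (h.upper v (R + 1) (by omega))
    have hρ2 : (ρ : ℝ) ≤ 2 := by exact_mod_cast hs
    have h3 : ((R + 1 : ℕ) : ℝ) ≤ 2 * ((R : ℝ) / ρ + 2) := by
      push_cast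
      have : (R : ℝ) / 2 ≤ (R : ℝ) / ρ := by
        apply div_le_div_of_nonneg_left hR0 (by linarith) hρ2
      linarith
    have h4 : ((R + 1 : ℕ) : ℝ) ^ d ≤ 2 ^ d * ((R : ℝ) / ρ + 2) ^ d := by
      rw [← Real.mul_rpow (by norm_num) (by positivity)]
      exact Real.rpow_le_rpow (by positivity) h3 hd.le
    have h5 : C * ((R + 1 : ℕ) : ℝ) ^ d ≤ C * (2 ^ d * ((R : ℝ) / ρ + 2) ^ d) :=
      mul_le_mul_of_nonneg_left h4 hC.le
    calc (T.card : ℝ) ≤ C * (2 ^ d * ((R : ℝ) / ρ + 2) ^ d) := h2.trans h5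
      _ ≤ (C * 2 ^ d + C / c * 4 ^ d) * ((R : ℝ) / ρ + 2) ^ d := by
        rw [add_mul, ← mul_assoc]; linarith
  · obtain ⟨s, hs1, hs2, hs3⟩ : ∃ s : ℕ, 1 ≤ s ∧ 2 * s < ρ ∧ ρ ≤ 2 * s + 2 :=
      ⟨(ρ - 1) / 2, by omega, by omega, by omega⟩
    have hdisj : (T : Set V).PairwiseDisjoint (fun x => bl G x s) := by
      intro x hx y hy hxy
      rw [Function.onFun, Finset.disjoint_left]
      intro w hw1 hw2
      rw [h.mem_bl] at hw1 hw2
      have h1 := hsep x hx y hy hxy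
      have h2 : G.dist x y ≤ G.dist x w + G.dist w y := h.conn.dist_triangle
      rw [SimpleGraph.dist_comm (u := w)] at h2
      omega
    have hsub : T.biUnion (fun x => bl G x s) ⊆ bl G v (R + s) := by
      intro w hw
      rw [Finset.mem_biUnion] at hw
      obtain ⟨x, hx, hw⟩ := hw
      rw [h.mem_bl] at hw ⊢
      have h1 := hT x hx
      have h2 : G.dist v w ≤ G.dist v x + G.dist x w := h.conn.dist_triangle
      omega
    have h1 : (T.card : ℝ) * (c * (s : ℝ) ^ d) ≤ C * ((R + s : ℕ) : ℝ) ^ d := by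
      calc (T.card : ℝ) * (c * (s : ℝ) ^ d) = ∑ x ∈ T, c * (s : ℝ) ^ d := by
            rw [Finset.sum_const, nsmul_eq_mul]
        _ ≤ ∑ x ∈ T, ((bl G x s).card : ℝ) := Finset.sum_le_sum fun x _ => h.lower x s hs1
        _ = ((T.biUnion (fun x => bl G x s)).card : ℝ) := by
            rw [Finset.card_biUnion hdisj]; push_cast; rfl
        _ ≤ ((bl G v (R + s)).card : ℝ) := by exact_mod_cast Finset.card_le_card hsub
        _ ≤ C * ((R + s : ℕ) : ℝ) ^ d := h.upper v (R + s) (by omega)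
    have hs0 : (1 : ℝ) ≤ s := by exact_mod_cast hs1
    have hsd : 0 < (s : ℝ) ^ d := by positivity
    have hρs : (ρ : ℝ) ≤ 4 * s := by
      have : ρ ≤ 4 * s := by omega
      exact_mod_cast this
    have h3 : ((R + s : ℕ) : ℝ) ≤ 4 * ((R : ℝ) / ρ + 2) * s := by
      push_cast
      have h4 : (R : ℝ) ≤ 4 * ((R : ℝ) / ρ) * s := by
        have : (R : ℝ) = (R : ℝ) / ρ * ρ := by field_simp
        have h5 : (R : ℝ) / ρ * ρ ≤ (R : ℝ) / ρ * (4 * s) := mul_le_mul_of_nonneg_left hρs hq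
        linarith
      nlinarith
    have h4 : ((R + s : ℕ) : ℝ) ^ d ≤ 4 ^ d * ((R : ℝ) / ρ + 2) ^ d * (s : ℝ) ^ d := by
      rw [← Real.mul_rpow (by norm_num) (by positivity), ← Real.mul_rpow (by positivity) (by positivity)]
      exact Real.rpow_le_rpow (by positivity) h3 hd.le
    have h5 : (T.card : ℝ) * (c * (s : ℝ) ^ d) ≤
        C * (4 ^ d * ((R : ℝ) / ρ + 2) ^ d * (s : ℝ) ^ d) :=
      h1.trans (mul_le_mul_of_nonneg_left h4 hC.le)
    have h6 : (T.card : ℝ) ≤ C / c * 4 ^ d * ((R : ℝ) / ρ + 2) ^ d := by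
      have h7 : (T.card : ℝ) * (c * (s : ℝ) ^ d) ≤
          C / c * 4 ^ d * ((R : ℝ) / ρ + 2) ^ d * (c * (s : ℝ) ^ d) := by
        refine h5.trans (le_of_eq ?_)
        field_simp
      exact le_of_mul_le_mul_right h7 (by positivity)
    rw [add_mul]
    linarith

end Pool.Agent.Helper60K9.SD
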