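import Pool.Agent.Helper60K9.SD.Defs

/-! # A counting lemma and small facts about distances -/

set_option autoImplicit false

namespace Pool.Agent.Helper60K9.SD

open Finset

/-- resampling one coordinate -/
theorem card_resample {ι : Type*} [Fintype ι] [DecidableEq ι] {m : ℕ} (e : Fin m) (B : ℕ)
    (S : (Fin m → ι) → Finset ι) (hS : ∀ σ v, S (Function.update σ e v) = S σ)
    (hB : ∀ σ, (S σ).card ≤ B) :
    Fintype.card ι * (univ.filter (fun σ : Fin m → ι => σ e ∈ S σ)).card ≤
      B * Fintype.card ι ^ m := by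
  classical
  have h1 : ∑ σ : Fin m → ι, ∑ v : ι, (if (Function.update σ e v) e ∈ S (Function.update σ e v)
      then 1 else 0) = ∑ σ : Fin m → ι, ∑ _v : ι, (if σ e ∈ S σ then 1 else 0) := by
    rw [← Finset.sum_product', ← Finset.sum_product']
    refine Finset.sum_bij' (fun p _ => (Function.update p.1 e p.2, p.1 e))
      (fun p _ => (Function.update p.1 e p.2, p.1 e)) ?_ ?_ ?_ ?_ ?_
    · intro p _; simp
    · intro p _; simp
    · intro p _; simp
    · intro p _; simp
    · intro p _; simp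
  have h2 : ∑ σ : Fin m → ι, ∑ _v : ι, (if σ e ∈ S σ then 1 else 0) =
      Fintype.card ι * (univ.filter (fun σ : Fin m → ι => σ e ∈ S σ)).card := by
    rw [Finset.sum_comm, Finset.sum_const, Finset.card_filter, smul_eq_mul, Finset.card_univ]
  rw [← h2, ← h1]
  calc ∑ σ : Fin m → ι, ∑ v : ι, (if (Function.update σ e v) e ∈ S (Function.update σ e v)
      then 1 else 0) = ∑ σ : Fin m → ι, (S σ).card := by
        refine Finset.sum_congr rfl fun σ _ => ?_
        rw [Finset.card_eq_sum_ones, ← Finset.sum_filter]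
        refine Finset.sum_congr ?_ fun _ _ => rfl
        ext v
        simp [hS]
    _ ≤ ∑ _σ : Fin m → ι, B := Finset.sum_le_sum fun σ _ => hB σ
    _ = B * Fintype.card ι ^ m := by
        rw [Finset.sum_const, Finset.card_univ, Fintype.card_fun, Fintype.card_fin, smul_eq_mul,
          mul_comm]

/-- among many indices one can choose `m` distinct ones which avoid small obstructions -/
theorem exists_choice {ι : Type*} [Fintype ι] [DecidableEq ι] (m B : ℕ)
    (S : Fin m → Fin m → ι → ι → Finset ι) (hB : ∀ a b i j, (S a b i j).card ≤ B)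
    (hp : m * m + m * m * m * B < Fintype.card ι) :
    ∃ σ : Fin m → ι, Function.Injective σ ∧ ∀ a b e, a ≠ b → e ≠ a → e ≠ b →
      σ e ∉ S a b (σ a) (σ b) := by
  classical
  by_contra hno
  push Not at hno
  set p := Fintype.card ι with hpdef
  have hppos : 0 < p := by omega
  let E1 : Fin m × Fin m → Finset (Fin m → ι) := fun ab =>
    if ab.1 = ab.2 then ∅ else univ.filter (fun σ => σ ab.1 = σ ab.2)
  let E2 : Fin m × Fin m × Fin m → Finset (Fin m → ι) := fun x =>
    if x.1 ≠ x.2.1 ∧ x.2.2 ≠ x.1 ∧ x.2.2 ≠ x.2.1 then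
      univ.filter (fun σ => σ x.2.2 ∈ S x.1 x.2.1 (σ x.1) (σ x.2.1)) else ∅
  have hcov : (univ : Finset (Fin m → ι)) ⊆ (univ.biUnion E1) ∪ (univ.biUnion E2) := by
    intro σ _
    rw [Finset.mem_union, Finset.mem_biUnion, Finset.mem_biUnion]
    by_cases hinj : Function.Injective σ
    · right
      obtain ⟨a, b, e, h1, h2, h3, h4⟩ := hno σ hinj
      exact ⟨(a, b, e), mem_univ _, by simp [E2, h1, h2, h3, h4]⟩
    · left
      rw [Function.Injective] at hinj
      push Not at hinj
      obtain ⟨a, b, h1, h2⟩ := hinj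
      exact ⟨(a, b), mem_univ _, by simp [E1, h1, h2]⟩
  have hE1 : ∀ ab, p * (E1 ab).card ≤ 1 * p ^ m := by
    intro ab
    by_cases h : ab.1 = ab.2
    · simp [E1, h]
    · have := card_resample (ι := ι) ab.1 1 (fun σ => {σ ab.2}) (fun σ v => by
        simp [Function.update_of_ne (Ne.symm h)]) (fun σ => by simp)
      simpa [E1, h] using this
  have hE2 : ∀ x, p * (E2 x).card ≤ B * p ^ m := by
    intro x
    by_cases h : x.1 ≠ x.2.1 ∧ x.2.2 ≠ x.1 ∧ x.2.2 ≠ x.2.1
    · have := card_resample (ι := ι) x.2.2 B (fun σ => S x.1 x.2.1 (σ x.1) (σ x.2.1)) (fun σ v => by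
        simp only [Function.update_of_ne (Ne.symm h.2.1), Function.update_of_ne (Ne.symm h.2.2)])
        (fun σ => hB _ _ _ _)
      simpa only [E2, if_pos h] using this
    · simp only [E2, if_neg h]; simp
  have h1 : p ^ m ≤ (univ.biUnion E1).card + (univ.biUnion E2).card := by
    have h := (Finset.card_le_card hcov).trans (Finset.card_union_le _ _)
    rwa [Finset.card_univ, Fintype.card_fun, Fintype.card_fin] at h
  have h2 : p * (univ.biUnion E1).card ≤ m * m * p ^ m := by
    calc p * (univ.biUnion E1).card ≤ p * ∑ ab : Fin m × Fin m, (E1 ab).card :=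
          Nat.mul_le_mul_left _ Finset.card_biUnion_le
      _ = ∑ ab : Fin m × Fin m, p * (E1 ab).card := by rw [Finset.mul_sum]
      _ ≤ ∑ _ab : Fin m × Fin m, 1 * p ^ m := Finset.sum_le_sum fun ab _ => hE1 ab
      _ = m * m * p ^ m := by
          rw [Finset.sum_const, Finset.card_univ, Fintype.card_prod, Fintype.card_fin]; simp
  have h3 : p * (univ.biUnion E2).card ≤ m * m * m * B * p ^ m := by
    calc p * (univ.biUnion E2).card ≤ p * ∑ x : Fin m × Fin m × Fin m, (E2 x).card :=
          Nat.mul_le_mul_left _ Finset.card_biUnion_le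
      _ = ∑ x : Fin m × Fin m × Fin m, p * (E2 x).card := by rw [Finset.mul_sum]
      _ ≤ ∑ _x : Fin m × Fin m × Fin m, B * p ^ m := Finset.sum_le_sum fun x _ => hE2 x
      _ = m * m * m * B * p ^ m := by
          rw [Finset.sum_const, Finset.card_univ, Fintype.card_prod, Fintype.card_prod,
            Fintype.card_fin, smul_eq_mul]; ring
  have h4 : p * p ^ m ≤ (m * m + m * m * m * B) * p ^ m := by
    calc p * p ^ m ≤ p * ((univ.biUnion E1).card + (univ.biUnion E2).card) :=
          Nat.mul_le_mul_left _ h1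
      _ ≤ m * m * p ^ m + m * m * m * B * p ^ m := by rw [mul_add]; exact Nat.add_le_add h2 h3
      _ = _ := by ring
  have h5 : p ≤ m * m + m * m * m * B := Nat.le_of_mul_le_mul_right h4 (pow_pos hppos m)
  omega

variable {V : Type*} {G : SimpleGraph V}

theorem dist_le_of_adj (hc : G.Connected) (y : V) {u v : V} (h : G.Adj u v) :
    G.dist y v ≤ G.dist y u + 1 := by
  have h1 := hc.dist_triangle (u := y) (v := u) (w := v)
  have h2 : G.dist u v = 1 := SimpleGraph.dist_eq_one_iff_adj.2 h
  omega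

theorem dist_le_of_step (hc : G.Connected) (y : V) {u v : V} (h : u = v ∨ G.Adj u v) :
    G.dist y v ≤ G.dist y u + 1 ∧ G.dist y u ≤ G.dist y v + 1 := by
  rcases h with rfl | h
  · omega
  · exact ⟨dist_le_of_adj hc y h, dist_le_of_adj hc y h.symm⟩

/-- discrete intermediate value theorem along a trajectory: the first time at distance `R` -/
theorem exists_first (hc : G.Connected) (y : V) {γ : ℕ → V} {a b R : ℕ} (hab : a ≤ b)
    (hT : Traj G γ a b) (h0 : G.dist y (γ a) ≤ R) (h1 : R ≤ G.dist y (γ b)) :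
    ∃ t, a ≤ t ∧ t ≤ b ∧ G.dist y (γ t) = R ∧ ∀ s, a ≤ s → s < t → G.dist y (γ s) < R := by
  classical
  have hex : ∃ t, a ≤ t ∧ t ≤ b ∧ R ≤ G.dist y (γ t) := ⟨b, hab, le_rfl, h1⟩
  obtain ⟨t, ht, hmin⟩ : ∃ t, (a ≤ t ∧ t ≤ b ∧ R ≤ G.dist y (γ t)) ∧
      ∀ s < t, ¬ (a ≤ s ∧ s ≤ b ∧ R ≤ G.dist y (γ s)) :=
    ⟨Nat.find hex, Nat.find_spec hex, fun s hs => Nat.find_min hex hs⟩
  refine ⟨t, ht.1, ht.2.1, ?_, fun s hs hst => ?_⟩
  · rcases Nat.eq_or_lt_of_le ht.1 with h | h
    · subst h; omega
    · have h3 := hmin (t - 1) (by omega)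
      have h4 := hT (t - 1) (by omega) (by omega)
      rw [show t - 1 + 1 = t by omega] at h4
      have h5 := (dist_le_of_step hc y h4).1
      by_contra hne
      exact h3 ⟨by omega, by omega, by omega⟩
  · by_contra hge
    exact hmin s hst ⟨hs, by omega, by omega⟩

/-- discrete intermediate value theorem along a walk -/
theorem exists_mem_support_eq {X : Type*} {H : SimpleGraph X} (φ : X → ℕ)
    (hφ : ∀ u v, H.Adj u v → φ v ≤ φ u + 1) {x y : X} (w : H.Walk x y) (R : ℕ) (h0 : φ x ≤ R)
    (h1 : R ≤ φ y) : ∃ v ∈ w.support, φ v = R := by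
  induction w with
  | @nil u => exact ⟨u, by simp, by omega⟩
  | @cons u v z hadj w ih =>
    by_cases hu : φ u = R
    · exact ⟨u, by simp, hu⟩
    · have h2 := hφ _ _ hadj
      obtain ⟨v', hv', he⟩ := ih (by omega) h1
      exact ⟨v', by simp [hv'], he⟩

end Pool.Agent.Helper60K9.SD
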