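import Pool.Agent.Helper60K9.SD.Defs

/-! Leaf CUT: sets of small density crossed by every long trajectory. -/

set_option autoImplicit false

namespace Pool.Agent.Helper60K9.SD

open Finset

variable {V : Type*} {G : SimpleGraph V}

namespace CutX

/-- a maximal `r`-separated set -/
theorem exists_net (G : SimpleGraph V) (r : ℕ) (hr : 1 ≤ r) :
    ∃ N : Set V, (∀ x ∈ N, ∀ y ∈ N, x ≠ y → r ≤ G.dist x y) ∧ ∀ x, ∃ y ∈ N, G.dist y x < r := by
  obtain ⟨N, hN⟩ := zorn_subset {N : Set V | ∀ x ∈ N, ∀ y ∈ N, x ≠ y → r ≤ G.dist x y} (by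
    intro ch hch hc
    refine ⟨⋃₀ ch, ?_, fun s hs => Set.subset_sUnion_of_mem hs⟩
    intro x hx y hy hxy
    obtain ⟨s, hs, hxs⟩ := hx
    obtain ⟨t, ht, hyt⟩ := hy
    rcases hc.total hs ht with hst | hst
    · exact hch ht x (hst hxs) y hyt hxy
    · exact hch hs x hxs y (hst hyt) hxy)
  refine ⟨N, hN.prop, fun x => ?_⟩
  by_contra hx
  push Not at hx
  have h1 : insert x N ∈ {N : Set V | ∀ x ∈ N, ∀ y ∈ N, x ≠ y → r ≤ G.dist x y} := by
    intro u hu v hv huv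
    rcases hu with hu | hu <;> rcases hv with hv | hv
    · exact absurd (hu.trans hv.symm) huv
    · rw [hu, G.dist_comm]; exact hx v hv
    · rw [hv]; exact hx u hu
    · exact hN.prop u hu v hv huv
  have h2 : x ∈ N := hN.le_of_ge h1 (Set.subset_insert x N) (Set.mem_insert x N)
  have h3 := hx x h2
  rw [SimpleGraph.dist_self] at h3
  omega

theorem traj_dist {γ : ℕ → V} {a b : ℕ} (hγ : Traj G γ a b) {t : ℕ} (h1 : a ≤ t) (h2 : t < b) :
    G.dist (γ t) (γ (t + 1)) ≤ 1 := by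
  rcases hγ t h1 h2 with h | h
  · rw [← h, SimpleGraph.dist_self]; omega
  · exact (SimpleGraph.dist_eq_one_iff_adj.mpr h).le

/-- a trajectory through a point of `B(z, ρ)` with an end outside of `B(z, M)` has a piece inside `B(z, M)` of
displacement at least `M - ρ` -/
theorem piece (hc : G.Connected) {γ : ℕ → V} {a b : ℕ} (hγ : Traj G γ a b) {z : V} {ρ M : ℕ}
    (hρM : ρ ≤ M) {t : ℕ} (hat : a ≤ t) (htb : t ≤ b) (ht : G.dist z (γ t) ≤ ρ)
    (hout : M < G.dist z (γ a) ∨ M < G.dist z (γ b)) :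
    ∃ a' b', a ≤ a' ∧ a' ≤ b' ∧ b' ≤ b ∧ (∀ s, a' ≤ s → s < b' → G.dist z (γ s) ≤ M) ∧
      M - ρ ≤ G.dist (γ a') (γ b') := by
  classical
  rcases hout with hout | hout
  · set s0 := Nat.findGreatest (fun s => M < G.dist z (γ s)) t with hs0
    have h1 : M < G.dist z (γ s0) := Nat.findGreatest_spec (P := fun s => M < G.dist z (γ s)) hat hout
    have h2 : a ≤ s0 := Nat.le_findGreatest hat hout
    have h3 : s0 ≤ t := Nat.findGreatest_le t
    have h4 : s0 ≠ t := by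
      intro h
      rw [h] at h1
      omega
    refine ⟨s0 + 1, t, by omega, by omega, htb, ?_, ?_⟩
    · intro s hs1 hs2
      have := Nat.findGreatest_is_greatest (P := fun s => M < G.dist z (γ s)) (n := t) (k := s)
        (by rw [← hs0]; omega) (by omega)
      omega
    · have h5 := traj_dist hγ h2 (show s0 < b by omega)
      have h6 := hc.dist_triangle (u := z) (v := γ (s0 + 1)) (w := γ s0)
      have h7 := hc.dist_triangle (u := z) (v := γ t) (w := γ (s0 + 1))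
      rw [G.dist_comm (u := γ (s0 + 1))] at h6
      rw [G.dist_comm (u := γ t)] at h7
      omega
  · have hex : ∃ s, t ≤ s ∧ M < G.dist z (γ s) := ⟨b, htb, hout⟩
    obtain ⟨h1, h2⟩ := Nat.find_spec hex
    have h3 : Nat.find hex ≤ b := Nat.find_min' hex ⟨htb, hout⟩
    refine ⟨t, Nat.find hex, hat, h1, h3, ?_, ?_⟩
    · intro s hs1 hs2
      have := Nat.find_min hex hs2
      by_contra hcon
      exact this ⟨hs1, by omega⟩
    · have h7 := hc.dist_triangle (u := z) (v := γ t) (w := γ (Nat.find hex))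
      omega

end CutX

/-- `cuts_of_sep` with the packing bound as a hypothesis -/
theorem cuts_of_sep' {d c C : ℝ} (h : Gr G d c C) {A : ℝ} {Q : ℕ} (hQ : 1 ≤ Q) (hs : Sep G A Q)
    (hcard : ∃ Ca : ℝ, 0 < Ca ∧ ∀ (ρ R : ℕ), 1 ≤ ρ →
      ∀ (v : V) (T : Finset V), (∀ x ∈ T, G.dist v x ≤ R) →
        (∀ x ∈ T, ∀ y ∈ T, x ≠ y → ρ ≤ G.dist x y) → (T.card : ℝ) ≤ Ca * ((R : ℝ) / ρ + 2) ^ d) :
    ∃ (K : ℕ) (A' : ℝ), 1 ≤ K ∧ 0 < A' ∧ ∀ Λ ρ : ℕ, 6 ≤ Λ → 1 ≤ ρ →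
      ∃ S : Set V, Cross G S ((Q + 1) * (Λ * ρ)) (2 * (Q + 1) * ρ) ∧
        Cov G d S (Λ * ρ) (K * ρ) (A' * Λ) := by
  classical
  obtain ⟨Ca, hCa, hcard⟩ := hcard
  set K : ℕ := 2 * Q + 3 with hK
  refine ⟨K, Ca * ((K + Q + 4 : ℕ) : ℝ) ^ d * (|A| + 1), by omega, by positivity, ?_⟩
  intro Λ ρ hΛ hρ
  have hr : 1 ≤ Λ * ρ := Nat.mul_pos (by omega) hρ
  obtain ⟨N, hN1, hN2⟩ := CutX.exists_net G (Λ * ρ) hr
  choose Γ hΓ1 hΓ2 hΓ3 using fun y : V => hs y ρ Λ hρ (by omega)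
  refine ⟨{x | ∃ y ∈ N, ∃ z ∈ Γ y, G.dist z x ≤ K * ρ}, ?_, ?_⟩
  · intro γ a b hab hγ hdist
    obtain ⟨y, hyN, hy⟩ := hN2 (γ a)
    have hyb : Q * (Λ * ρ) ≤ G.dist y (γ b) := by
      have h1 := h.conn.dist_triangle (u := γ a) (v := y) (w := γ b)
      rw [G.dist_comm (u := γ a) (v := y)] at h1
      have h2 : (Q + 1) * (Λ * ρ) = Q * (Λ * ρ) + Λ * ρ := by ring
      omega
    obtain ⟨t, hat, htb, z, hz, hzt⟩ := hΓ3 y γ a b hab hγ hy.le hyb
    have hout : K * ρ < G.dist z (γ a) ∨ K * ρ < G.dist z (γ b) := by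
      by_contra hcon
      push Not at hcon
      have h1 := h.conn.dist_triangle (u := γ a) (v := z) (w := γ b)
      rw [G.dist_comm (u := γ a) (v := z)] at h1
      have h2 : (Q + 1) * (6 * ρ) ≤ (Q + 1) * (Λ * ρ) :=
        Nat.mul_le_mul_left _ (Nat.mul_le_mul_right _ hΛ)
      have h3 : 2 * (K * ρ) < (Q + 1) * (6 * ρ) := by
        have h4 : 2 * (K * ρ) = (4 * Q + 6) * ρ := by rw [hK]; ring
        have h5 : (Q + 1) * (6 * ρ) = (6 * Q + 6) * ρ := by ring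
        rw [h4, h5]
        exact Nat.mul_lt_mul_of_pos_right (by omega) hρ
      omega
    have hρK : ρ ≤ K * ρ := Nat.le_mul_of_pos_left _ (by omega)
    obtain ⟨a', b', h1, h2, h3, h4, h5⟩ := CutX.piece h.conn hγ hρK hat htb hzt hout
    refine ⟨a', b', h1, h2, h3, fun s hs1 hs2 => ⟨y, hyN, z, hz, h4 s hs1 hs2⟩, ?_⟩
    have h6 : K * ρ - ρ = 2 * (Q + 1) * ρ := by
      have : K * ρ = 2 * (Q + 1) * ρ + ρ := by rw [hK]; ring
      omega
    omega
  · intro z' R hR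
    -- the centres of the net which matter
    set R' : ℕ := R + K * ρ + (Q + 1) * (Λ * ρ) with hR'
    have hfin : {y | y ∈ N ∧ G.dist z' y ≤ R'}.Finite :=
      (h.fin z' R').subset fun y hy => hy.2
    set Y : Finset V := hfin.toFinset with hY
    have hYmem : ∀ y, y ∈ Y ↔ y ∈ N ∧ G.dist z' y ≤ R' := by
      intro y
      rw [hY, Set.Finite.mem_toFinset]
      rfl
    refine ⟨Y.biUnion Γ, ?_, ?_⟩
    · have hRr : (1 : ℝ) ≤ (R : ℝ) / ((Λ * ρ : ℕ) : ℝ) := by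
        rw [one_le_div (by exact_mod_cast hr)]
        exact_mod_cast hR
      have hYc := hcard (Λ * ρ) R' hr z' Y (fun x hx => ((hYmem x).1 hx).2)
        (fun x hx y hy hxy => hN1 x ((hYmem x).1 hx).1 y ((hYmem y).1 hy).1 hxy)
      have hrpos : (0 : ℝ) < ((Λ * ρ : ℕ) : ℝ) := by exact_mod_cast hr
      have hbase : (R' : ℝ) / ((Λ * ρ : ℕ) : ℝ) + 2 ≤
          ((K + Q + 4 : ℕ) : ℝ) * ((R : ℝ) / ((Λ * ρ : ℕ) : ℝ)) := by
        have h1 : R' ≤ (K + Q + 2) * R := by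
          have h2 : ρ ≤ Λ * ρ := Nat.le_mul_of_pos_left _ (by omega)
          have h3 : K * ρ ≤ K * R := Nat.mul_le_mul_left _ (h2.trans hR)
          have h4 : (Q + 1) * (Λ * ρ) ≤ (Q + 1) * R := Nat.mul_le_mul_left _ hR
          have h5 : (K + Q + 2) * R = R + K * R + (Q + 1) * R := by ring
          omega
        have h2 : (R' : ℝ) ≤ ((K + Q + 2 : ℕ) : ℝ) * (R : ℝ) := by exact_mod_cast h1
        have h3 : (R' : ℝ) / ((Λ * ρ : ℕ) : ℝ) ≤
            ((K + Q + 2 : ℕ) : ℝ) * ((R : ℝ) / ((Λ * ρ : ℕ) : ℝ)) := by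
          rw [← mul_div_assoc]
          exact div_le_div_of_nonneg_right h2 hrpos.le
        have h4 : ((K + Q + 4 : ℕ) : ℝ) * ((R : ℝ) / ((Λ * ρ : ℕ) : ℝ)) =
            ((K + Q + 2 : ℕ) : ℝ) * ((R : ℝ) / ((Λ * ρ : ℕ) : ℝ)) +
              2 * ((R : ℝ) / ((Λ * ρ : ℕ) : ℝ)) := by
          push_cast
          ring
        rw [h4]
        linarith
      have hpow : ((R' : ℝ) / ((Λ * ρ : ℕ) : ℝ) + 2) ^ d ≤
          ((K + Q + 4 : ℕ) : ℝ) ^ d * ((R : ℝ) / ((Λ * ρ : ℕ) : ℝ)) ^ d := by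
        rw [← Real.mul_rpow (by positivity) (by positivity)]
        exact Real.rpow_le_rpow (by positivity) hbase h.dpos.le
      have hΓc : ∀ y ∈ Y, ((Γ y).card : ℝ) ≤ (|A| + 1) * Λ := by
        intro y _
        refine (hΓ1 y).trans (mul_le_mul_of_nonneg_right ?_ (Nat.cast_nonneg _))
        have := le_abs_self A
        linarith
      have hsum : ((Y.biUnion Γ).card : ℝ) ≤ (Y.card : ℝ) * ((|A| + 1) * Λ) := by
        calc ((Y.biUnion Γ).card : ℝ) ≤ ((∑ y ∈ Y, (Γ y).card : ℕ) : ℝ) := by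
              exact_mod_cast Finset.card_biUnion_le
          _ = ∑ y ∈ Y, ((Γ y).card : ℝ) := by push_cast; rfl
          _ ≤ ∑ _y ∈ Y, (|A| + 1) * Λ := Finset.sum_le_sum hΓc
          _ = (Y.card : ℝ) * ((|A| + 1) * Λ) := by rw [Finset.sum_const, nsmul_eq_mul]
      calc ((Y.biUnion Γ).card : ℝ) ≤ (Y.card : ℝ) * ((|A| + 1) * Λ) := hsum
        _ ≤ (Ca * (((K + Q + 4 : ℕ) : ℝ) ^ d * ((R : ℝ) / ((Λ * ρ : ℕ) : ℝ)) ^ d)) *
            ((|A| + 1) * Λ) := by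
            refine mul_le_mul_of_nonneg_right (hYc.trans ?_) (by positivity)
            exact mul_le_mul_of_nonneg_left hpow hCa.le
        _ = Ca * ((K + Q + 4 : ℕ) : ℝ) ^ d * (|A| + 1) * Λ *
            ((R : ℝ) / ((Λ * ρ : ℕ) : ℝ)) ^ d := by ring
    · rintro x ⟨y, hyN, z, hz, hzx⟩ hxR
      refine ⟨z, Finset.mem_biUnion.mpr ⟨y, (hYmem y).2 ⟨hyN, ?_⟩, hz⟩, hzx⟩
      have h1 := hΓ2 y z hz
      have h2 := h.conn.dist_triangle (u := z') (v := x) (w := y)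
      have h3 := h.conn.dist_triangle (u := x) (v := z) (w := y)
      rw [G.dist_comm (u := x) (v := z), G.dist_comm (u := z) (v := y)] at h3
      omega

end Pool.Agent.Helper60K9.SD
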