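import Mathlib

/-!
# Subdiffusivity on minor-free graphs of uniform polynomial growth: basic definitions
-/

set_option autoImplicit false

namespace Pool.Agent.Helper60K9.SD

open Finset

variable {V : Type*}

/-- `G` has a `K_m` minor: `m` pairwise disjoint connected branch sets, any two of which are joined by an
edge. -/
def HasKMinor (G : SimpleGraph V) (m : ℕ) : Prop :=
  ∃ B : Fin m → Set V, (∀ i, (G.induce (B i)).Connected) ∧
    (∀ i j, i ≠ j → Disjoint (B i) (B j)) ∧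
    ∀ i j, i ≠ j → ∃ x ∈ B i, ∃ y ∈ B j, G.Adj x y

/-- between the times `a` and `b` the function `γ` moves along edges of `G` (or stays put) -/
def Traj (G : SimpleGraph V) (γ : ℕ → V) (a b : ℕ) : Prop :=
  ∀ t, a ≤ t → t < b → γ t = γ (t + 1) ∨ G.Adj (γ t) (γ (t + 1))

open Classical in
/-- the closed ball as a finset (junk value `∅` if the ball is infinite) -/
noncomputable def bl (G : SimpleGraph V) (v : V) (n : ℕ) : Finset V :=
  if h : {x | G.dist v x ≤ n}.Finite then h.toFinset else ∅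

/-- connected, with balls of size between `c n^d` and `C n^d` -/
structure Gr (G : SimpleGraph V) (d c C : ℝ) : Prop where
  conn : G.Connected
  fin : ∀ (v : V) (n : ℕ), {x | G.dist v x ≤ n}.Finite
  cpos : 0 < c
  dpos : 0 < d
  lower : ∀ (v : V) (n : ℕ), 1 ≤ n → c * (n : ℝ) ^ d ≤ ((bl G v n).card : ℝ)
  upper : ∀ (v : V) (n : ℕ), 1 ≤ n → ((bl G v n).card : ℝ) ≤ C * (n : ℝ) ^ d

theorem Gr.mem_bl {G : SimpleGraph V} {d c C : ℝ} (h : Gr G d c C) {v x : V} {n : ℕ} :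
    x ∈ bl G v n ↔ G.dist v x ≤ n := by
  unfold bl
  rw [dif_pos (h.fin v n)]
  simp

/-- every trajectory of displacement `D ≥ D₀` collects at least `ℓ D` of the weight `f` -/
def Len (G : SimpleGraph V) (f : V → ℝ) (ℓ : ℝ) (D₀ : ℕ) : Prop :=
  ∀ (γ : ℕ → V) (a b : ℕ), a ≤ b → Traj G γ a b → D₀ ≤ G.dist (γ a) (γ b) →
    ℓ * (G.dist (γ a) (γ b) : ℝ) ≤ ∑ t ∈ Ico a b, f (γ t)

/-- the mass of `f` in balls of radius `R ≥ R₀` is at most `E R^d` -/
def Dens (G : SimpleGraph V) (d : ℝ) (f : V → ℝ) (E : ℝ) (R₀ : ℕ) : Prop :=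
  ∀ (z : V) (R : ℕ), R₀ ≤ R → ∑ x ∈ bl G z R, f x ≤ E * (R : ℝ) ^ d

/-- every trajectory of displacement at least `q` has a piece inside `S` of displacement at least `p` -/
def Cross (G : SimpleGraph V) (S : Set V) (q p : ℕ) : Prop :=
  ∀ (γ : ℕ → V) (a b : ℕ), a ≤ b → Traj G γ a b → q ≤ G.dist (γ a) (γ b) →
    ∃ a' b', a ≤ a' ∧ a' ≤ b' ∧ b' ≤ b ∧ (∀ t, a' ≤ t → t < b' → γ t ∈ S) ∧
      p ≤ G.dist (γ a') (γ b')

/-- for `R ≥ r` the part of `S` in a ball of radius `R` is covered by `M (R/r)^d` balls of radius `ρ` -/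
def Cov (G : SimpleGraph V) (d : ℝ) (S : Set V) (r ρ : ℕ) (M : ℝ) : Prop :=
  ∀ (z : V) (R : ℕ), r ≤ R → ∃ T : Finset V, (T.card : ℝ) ≤ M * ((R : ℝ) / r) ^ d ∧
    ∀ x ∈ S, G.dist z x ≤ R → ∃ u ∈ T, G.dist u x ≤ ρ

/-- small separators made of balls: for all `y`, `ρ ≥ 1`, `Λ ≥ 1` there are at most `A Λ` balls of radius `ρ`
which meet every trajectory from the ball `B(y, Λ ρ)` to the complement of the ball `B(y, Q Λ ρ)`. -/
def Sep (G : SimpleGraph V) (A : ℝ) (Q : ℕ) : Prop :=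
  ∀ (y : V) (ρ Λ : ℕ), 1 ≤ ρ → 1 ≤ Λ → ∃ Γ : Finset V, (Γ.card : ℝ) ≤ A * Λ ∧
    (∀ z ∈ Γ, G.dist y z ≤ (Q + 1) * (Λ * ρ)) ∧
    ∀ (γ : ℕ → V) (a b : ℕ), a ≤ b → Traj G γ a b → G.dist y (γ a) ≤ Λ * ρ →
      Q * (Λ * ρ) ≤ G.dist y (γ b) → ∃ t, a ≤ t ∧ t ≤ b ∧ ∃ z ∈ Γ, G.dist z (γ t) ≤ ρ

/-- law of simple random walk from `o` after `t` steps -/
noncomputable def law (G : SimpleGraph V) [G.LocallyFinite] (o : V) : ℕ → V → ℝ
  | 0 => fun x => by classical exact if x = o then 1 else 0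
  | t + 1 => fun x => ∑ y ∈ G.neighborFinset x, law G o t y / G.degree y

end Pool.Agent.Helper60K9.SD
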