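import Pool.Agent.Helper60K9.SD.Defs

/-!
# Entropy, energy and drift of simple random walk
-/

set_option autoImplicit false

namespace Pool.Agent.Helper60K9.SD

open Finset

variable {V : Type*} {G : SimpleGraph V}

/-- exchanging the two ends in a sum over oriented edges inside a finite set -/
theorem edge_sum_le [G.LocallyFinite] (U : Finset V) (f : V → V → ℝ)
    (hf : ∀ x y, G.Adj x y → x ∈ U → y ∉ U → f y x ≤ f x y) :
    ∑ x ∈ U, ∑ y ∈ G.neighborFinset x, f y x ≤ ∑ x ∈ U, ∑ y ∈ G.neighborFinset x, f x y := by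
  classical
  have split : ∀ (g : V → V → ℝ) (x : V), ∑ y ∈ G.neighborFinset x, g x y =
      (∑ y ∈ U, if G.Adj x y then g x y else 0) +
        ∑ y ∈ (G.neighborFinset x).filter (fun y => y ∉ U), g x y := by
    intro g x
    rw [← Finset.sum_filter_add_sum_filter_not (G.neighborFinset x) (fun y => y ∈ U),
      ← Finset.sum_filter]
    congr 1
    apply Finset.sum_congr _ (fun _ _ => rfl)
    ext y
    simp [and_comm]
  calc ∑ x ∈ U, ∑ y ∈ G.neighborFinset x, f y x
      = ∑ x ∈ U, ((∑ y ∈ U, if G.Adj x y then f y x else 0) +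
        ∑ y ∈ (G.neighborFinset x).filter (fun y => y ∉ U), f y x) :=
        Finset.sum_congr rfl fun x _ => split (fun x y => f y x) x
    _ = (∑ x ∈ U, ∑ y ∈ U, if G.Adj x y then f y x else 0) +
        ∑ x ∈ U, ∑ y ∈ (G.neighborFinset x).filter (fun y => y ∉ U), f y x :=
        Finset.sum_add_distrib
    _ ≤ (∑ x ∈ U, ∑ y ∈ U, if G.Adj x y then f x y else 0) +
        ∑ x ∈ U, ∑ y ∈ (G.neighborFinset x).filter (fun y => y ∉ U), f x y := by
        apply add_le_add
        · rw [Finset.sum_comm]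
          apply le_of_eq
          apply Finset.sum_congr rfl
          intro x _
          apply Finset.sum_congr rfl
          intro y _
          simp only [G.adj_comm]
        · apply Finset.sum_le_sum
          intro x hx
          apply Finset.sum_le_sum
          intro y hy
          rw [Finset.mem_filter, SimpleGraph.mem_neighborFinset] at hy
          exact hf x y hy.1 hx hy.2
    _ = ∑ x ∈ U, ((∑ y ∈ U, if G.Adj x y then f x y else 0) +
        ∑ y ∈ (G.neighborFinset x).filter (fun y => y ∉ U), f x y) :=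
        Finset.sum_add_distrib.symm
    _ = ∑ x ∈ U, ∑ y ∈ G.neighborFinset x, f x y :=
        Finset.sum_congr rfl fun x _ => (split f x).symm

/-- exchanging the two ends in a sum over oriented edges -/
theorem edge_sum_swap [G.LocallyFinite] (U : Finset V) (f : V → V → ℝ)
    (hf : ∀ x y, G.Adj x y → x ∈ U → y ∉ U → f x y = f y x) :
    ∑ x ∈ U, ∑ y ∈ G.neighborFinset x, f y x = ∑ x ∈ U, ∑ y ∈ G.neighborFinset x, f x y :=
  le_antisymm (edge_sum_le U f fun x y h hx hy => (hf x y h hx hy).ge)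
    (edge_sum_le U (fun x y => f y x) fun x y h hx hy => (hf x y h hx hy).le)

theorem law_nonneg [G.LocallyFinite] (o : V) (t : ℕ) (x : V) : 0 ≤ law G o t x := by
  induction t generalizing x with
  | zero => unfold law; split_ifs <;> norm_num
  | succ t ih =>
    unfold law
    exact Finset.sum_nonneg fun y _ => div_nonneg (ih y) (Nat.cast_nonneg _)

theorem law_support [G.LocallyFinite] (hconn : G.Connected) (o : V) (t : ℕ) (x : V)
    (hx : t < G.dist o x) : law G o t x = 0 := by
  induction t generalizing x with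
  | zero =>
    unfold law
    rw [if_neg]
    rintro rfl
    simp at hx
  | succ t ih =>
    unfold law
    apply Finset.sum_eq_zero
    intro y hy
    rw [SimpleGraph.mem_neighborFinset] at hy
    have h1 : G.dist o x ≤ G.dist o y + G.dist y x := hconn.dist_triangle
    have h2 : G.dist y x = 1 := SimpleGraph.dist_eq_one_iff_adj.2 hy.symm
    rw [ih y (by omega), zero_div]

theorem law_sum [G.LocallyFinite] (hconn : G.Connected) (hdeg : ∀ v, 0 < G.degree v) (o : V) (t : ℕ)
    (U : Finset V) (hU : ∀ x, G.dist o x ≤ t → x ∈ U) : ∑ x ∈ U, law G o t x = 1 := by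
  induction t with
  | zero =>
    have ho : o ∈ U := hU o (by simp)
    classical
    have : ∀ x ∈ U, law G o 0 x = if x = o then 1 else 0 := by
      intro x _
      unfold law
      congr
    rw [Finset.sum_congr rfl this, Finset.sum_ite_eq' U o, if_pos ho]
  | succ t ih =>
    rw [← ih fun x hx => hU x (by omega)]
    have h1 : ∑ x ∈ U, law G o (t + 1) x =
        ∑ x ∈ U, ∑ y ∈ G.neighborFinset x, law G o t y / G.degree y := rfl
    rw [h1, edge_sum_swap U (fun x _ => law G o t x / G.degree x)]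
    · apply Finset.sum_congr rfl
      intro x _
      rw [Finset.sum_const, SimpleGraph.card_neighborFinset_eq_degree, nsmul_eq_mul,
        mul_div_cancel₀]
      exact_mod_cast (hdeg x).ne'
    · intro x y hxy hx hy
      have h2 : G.dist x y = 1 := SimpleGraph.dist_eq_one_iff_adj.2 hxy
      have h3 : G.dist o y ≤ G.dist o x + G.dist x y := hconn.dist_triangle
      have h4 : ¬ G.dist o y ≤ t + 1 := fun h => hy (hU y h)
      show law G o t x / _ = law G o t y / _
      rw [law_support hconn o t x (by omega), law_support hconn o t y (by omega), zero_div, zero_div]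

section

variable [G.LocallyFinite] {o : V} {N : ℕ} {h : V → ℝ}

theorem h_nonneg (hh : ∀ x, h x = (∑ t ∈ range N, law G o t x) / (N * G.degree x)) (x : V) :
    0 ≤ h x := by
  rw [hh]
  exact div_nonneg (Finset.sum_nonneg fun t _ => law_nonneg o t x) (by positivity)

theorem h_support (hconn : G.Connected)
    (hh : ∀ x, h x = (∑ t ∈ range N, law G o t x) / (N * G.degree x)) (x : V)
    (hx : N ≤ G.dist o x) : h x = 0 := by
  rw [hh, Finset.sum_eq_zero, zero_div]
  intro t ht
  exact law_support hconn o t x (by have := Finset.mem_range.1 ht; omega)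

theorem h_le_one (hconn : G.Connected) (hdeg : ∀ v, 0 < G.degree v) (hN : 1 ≤ N)
    (U : Finset V) (hU : ∀ x, G.dist o x ≤ N + 1 → x ∈ U)
    (hh : ∀ x, h x = (∑ t ∈ range N, law G o t x) / (N * G.degree x)) : h o ≤ 1 := by
  have h1 : ∀ t ∈ range N, law G o t o ≤ 1 := by
    intro t ht
    have ht' := Finset.mem_range.1 ht
    rw [← law_sum hconn hdeg o t U fun x hx => hU x (by omega)]
    exact Finset.single_le_sum (fun x _ => law_nonneg o t x) (hU o (by simp))
  have h2 : ∑ t ∈ range N, law G o t o ≤ N := by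
    have := Finset.sum_le_sum h1
    simpa using this
  have hN' : (1:ℝ) ≤ N := by exact_mod_cast hN
  have hd : (1:ℝ) ≤ G.degree o := by exact_mod_cast hdeg o
  rw [hh, div_le_one (by positivity)]
  nlinarith

/-- the Laplacian of `h` -/
theorem lap_h (hdeg : ∀ v, 0 < G.degree v) (hN : 1 ≤ N)
    (hh : ∀ x, h x = (∑ t ∈ range N, law G o t x) / (N * G.degree x)) (x : V) :
    ∑ y ∈ G.neighborFinset x, (h y - h x) = (law G o N x - law G o 0 x) / N := by
  have hN' : (N:ℝ) ≠ 0 := by
    have : (1:ℝ) ≤ N := by exact_mod_cast hN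
    positivity
  have hd : (G.degree x : ℝ) ≠ 0 := by exact_mod_cast (hdeg x).ne'
  rw [Finset.sum_sub_distrib, Finset.sum_const, SimpleGraph.card_neighborFinset_eq_degree,
    nsmul_eq_mul]
  have h1 : ∑ y ∈ G.neighborFinset x, h y = (∑ t ∈ range N, law G o (t + 1) x) / N := by
    have h2 : ∀ y ∈ G.neighborFinset x, h y =
        ∑ t ∈ range N, (law G o t y / G.degree y) / N := by
      intro y _
      rw [hh, Finset.sum_div]
      apply Finset.sum_congr rfl
      intro t _
      rw [div_div, mul_comm]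
    rw [Finset.sum_congr rfl h2, Finset.sum_comm, Finset.sum_div]
    apply Finset.sum_congr rfl
    intro t _
    rw [← Finset.sum_div]
    rfl
  have h3 : (G.degree x : ℝ) * h x = (∑ t ∈ range N, law G o t x) / N := by
    rw [hh]
    field_simp
  rw [h1, h3, ← sub_div, ← Finset.sum_sub_distrib, Finset.sum_range_sub (fun t => law G o t x)]

/-- Green formula -/
theorem green (hconn : G.Connected) (hdeg : ∀ v, 0 < G.degree v) (hN : 1 ≤ N)
    (U : Finset V) (hU : ∀ x, G.dist o x ≤ N + 1 → x ∈ U)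
    (hh : ∀ x, h x = (∑ t ∈ range N, law G o t x) / (N * G.degree x)) (F : V → ℝ) :
    ∑ x ∈ U, law G o N x * F x - F o =
      N / 2 * ∑ x ∈ U, ∑ y ∈ G.neighborFinset x, (h x - h y) * (F y - F x) := by
  classical
  have hN' : (N:ℝ) ≠ 0 := by
    have : (1:ℝ) ≤ N := by exact_mod_cast hN
    positivity
  have ho : o ∈ U := hU o (by simp)
  have h1 : ∑ x ∈ U, law G o N x * F x - F o = ∑ x ∈ U, (law G o N x - law G o 0 x) * F x := by
    have h2 : ∑ x ∈ U, law G o 0 x * F x = F o := by
      have : ∀ x ∈ U, law G o 0 x * F x = if x = o then F x else 0 := by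
        intro x _
        unfold law
        split_ifs <;> simp
      rw [Finset.sum_congr rfl this, Finset.sum_ite_eq' U o, if_pos ho]
    rw [← h2, ← Finset.sum_sub_distrib]
    apply Finset.sum_congr rfl
    intro x _
    ring
  have h3 : ∑ x ∈ U, (law G o N x - law G o 0 x) * F x =
      N * ∑ x ∈ U, ∑ y ∈ G.neighborFinset x, (h y - h x) * F x := by
    rw [Finset.mul_sum]
    apply Finset.sum_congr rfl
    intro x _
    rw [← Finset.sum_mul, lap_h hdeg hN hh x]
    field_simp
  have h4 : ∑ x ∈ U, ∑ y ∈ G.neighborFinset x, (h y - h x) * F x =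
      ∑ x ∈ U, ∑ y ∈ G.neighborFinset x, (h x - h y) * F y := by
    apply (edge_sum_swap U (fun x y => (h y - h x) * F x) _).symm
    intro x y hxy hx hy
    have h2 : G.dist x y = 1 := SimpleGraph.dist_eq_one_iff_adj.2 hxy
    have h3 : G.dist o y ≤ G.dist o x + G.dist x y := hconn.dist_triangle
    have h4 : ¬ G.dist o y ≤ N + 1 := fun h => hy (hU y h)
    show (h y - h x) * F x = (h x - h y) * F y
    rw [h_support hconn hh x (by omega), h_support hconn hh y (by omega)]
    ring
  have h5 : ∑ x ∈ U, ∑ y ∈ G.neighborFinset x, (h y - h x) * F x =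
      1 / 2 * ∑ x ∈ U, ∑ y ∈ G.neighborFinset x, (h x - h y) * (F y - F x) := by
    have h6 : ∑ x ∈ U, ∑ y ∈ G.neighborFinset x, (h x - h y) * (F y - F x) =
        ∑ x ∈ U, ∑ y ∈ G.neighborFinset x, (h x - h y) * F y +
        ∑ x ∈ U, ∑ y ∈ G.neighborFinset x, (h y - h x) * F x := by
      rw [← Finset.sum_add_distrib]
      apply Finset.sum_congr rfl
      intro x _
      rw [← Finset.sum_add_distrib]
      apply Finset.sum_congr rfl
      intro y _
      ring
    rw [h6, ← h4]
    ring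
  rw [h1, h3, h5]
  ring

end

/-- `log u ≥ 2 (u - 1) / (u + 1)` for `u ≥ 1` -/
theorem log_ge_two_mul (u : ℝ) (hu : 1 ≤ u) : 2 * ((u - 1) / (u + 1)) ≤ Real.log u := by
  have h0 : 0 ≤ (u - 1) / (u + 1) := by
    apply div_nonneg <;> linarith
  have h1 : (u - 1) / (u + 1) < 1 := by
    rw [div_lt_one (by linarith)]; linarith
  have h2 := Real.hasSum_log_sub_log_of_abs_lt_one
    (x := (u - 1) / (u + 1)) (by rw [abs_of_nonneg h0]; exact h1)
  have h3 := le_hasSum h2 0 (fun k _ => by positivity)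
  have h4 : Real.log (1 + (u - 1) / (u + 1)) - Real.log (1 - (u - 1) / (u + 1)) = Real.log u := by
    rw [← Real.log_div (by positivity) (by linarith [h1])]
    congr 1
    have : u + 1 ≠ 0 := by linarith
    field_simp
    ring
  rw [h4] at h3
  simpa using h3

/-- the elementary inequality between entropy and energy -/
theorem log_sqrt (a b : ℝ) (ha : 0 < a) (hb : 0 < b) :
    4 * (Real.sqrt a - Real.sqrt b) ^ 2 ≤ (a - b) * (Real.log a - Real.log b) := by
  wlog hab : b ≤ a generalizing a b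
  · have := this b a hb ha (by linarith)
    nlinarith
  have hs : 0 < Real.sqrt a := Real.sqrt_pos.2 ha
  have hr : 0 < Real.sqrt b := Real.sqrt_pos.2 hb
  have hrs : Real.sqrt b ≤ Real.sqrt a := Real.sqrt_le_sqrt hab
  have ea : a = Real.sqrt a ^ 2 := (Real.sq_sqrt ha.le).symm
  have eb : b = Real.sqrt b ^ 2 := (Real.sq_sqrt hb.le).symm
  generalize Real.sqrt a = s at *
  generalize Real.sqrt b = r at *
  subst ea eb
  rw [Real.log_pow, Real.log_pow]
  have h1 := log_ge_two_mul (s / r) (by rw [le_div_iff₀ hr]; linarith)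
  rw [Real.log_div hs.ne' hr.ne'] at h1
  have h2 : 2 * ((s / r - 1) / (s / r + 1)) = 2 * (s - r) / (s + r) := by
    have : s + r ≠ 0 := by positivity
    field_simp
  rw [h2, div_le_iff₀ (by positivity)] at h1
  have h3 : 0 ≤ s - r := by linarith
  push_cast
  nlinarith

theorem entropy_energy [G.LocallyFinite] (hconn : G.Connected) (hdeg : ∀ v, 0 < G.degree v) (o : V) (N : ℕ)
    (hN : 1 ≤ N) (ε : ℝ) (hε : 0 < ε) (U : Finset V) (hU : ∀ x, G.dist o x ≤ N + 1 → x ∈ U)
    (h : V → ℝ) (hh : ∀ x, h x = (∑ t ∈ range N, law G o t x) / (N * G.degree x)) :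
    ∑ x ∈ U, ∑ y ∈ G.neighborFinset x, (Real.sqrt (h x + ε) - Real.sqrt (h y + ε)) ^ 2 ≤
      Real.log ((1 + ε) / ε) / (2 * N) := by
  have hN1 : (1:ℝ) ≤ N := by exact_mod_cast hN
  have hpos : ∀ x, 0 < h x + ε := fun x => by have := h_nonneg hh x; linarith
  have h1 : 4 * ∑ x ∈ U, ∑ y ∈ G.neighborFinset x,
      (Real.sqrt (h x + ε) - Real.sqrt (h y + ε)) ^ 2 ≤
      ∑ x ∈ U, ∑ y ∈ G.neighborFinset x,
        (h x - h y) * (Real.log (h x + ε) - Real.log (h y + ε)) := by
    rw [Finset.mul_sum]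
    apply Finset.sum_le_sum
    intro x _
    rw [Finset.mul_sum]
    apply Finset.sum_le_sum
    intro y _
    have := log_sqrt (h x + ε) (h y + ε) (hpos x) (hpos y)
    have e : h x + ε - (h y + ε) = h x - h y := by ring
    rwa [e] at this
  have h2 := green hconn hdeg hN U hU hh (fun x => Real.log (h x + ε))
  have h3 : ∑ x ∈ U, ∑ y ∈ G.neighborFinset x,
      (h x - h y) * (Real.log (h y + ε) - Real.log (h x + ε)) =
      - ∑ x ∈ U, ∑ y ∈ G.neighborFinset x,
        (h x - h y) * (Real.log (h x + ε) - Real.log (h y + ε)) := by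
    rw [← Finset.sum_neg_distrib]
    apply Finset.sum_congr rfl
    intro x _
    rw [← Finset.sum_neg_distrib]
    apply Finset.sum_congr rfl
    intro y _
    ring
  have h4 : Real.log ε ≤ ∑ x ∈ U, law G o N x * Real.log (h x + ε) := by
    have h5 : ∑ x ∈ U, law G o N x * Real.log ε = Real.log ε := by
      rw [← Finset.sum_mul, law_sum hconn hdeg o N U fun x hx => hU x (by omega), one_mul]
    rw [← h5]
    apply Finset.sum_le_sum
    intro x _
    apply mul_le_mul_of_nonneg_left _ (law_nonneg o N x)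
    apply Real.log_le_log hε
    have := h_nonneg hh x
    linarith
  have h6 : Real.log (h o + ε) ≤ Real.log (1 + ε) := by
    apply Real.log_le_log (hpos o)
    have := h_le_one hconn hdeg hN U hU hh
    linarith
  have h7 : Real.log ((1 + ε) / ε) = Real.log (1 + ε) - Real.log ε :=
    Real.log_div (by positivity) hε.ne'
  rw [h7, le_div_iff₀ (by positivity)]
  simp only [h3] at h2
  nlinarith

theorem entropy_drift [G.LocallyFinite] (hconn : G.Connected) (hdeg : ∀ v, 0 < G.degree v) (o : V) (N : ℕ)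
    (hN : 1 ≤ N) (ε : ℝ) (hε : 0 < ε) (U : Finset V) (hU : ∀ x, G.dist o x ≤ N + 1 → x ∈ U)
    (h : V → ℝ) (hh : ∀ x, h x = (∑ t ∈ range N, law G o t x) / (N * G.degree x)) (F : V → ℝ) :
    ∑ x ∈ U, law G o N x * F x - F o ≤ Real.sqrt (N * Real.log ((1 + ε) / ε) / 2) *
      Real.sqrt (∑ x ∈ U, (h x + ε) * ∑ y ∈ G.neighborFinset x, (F x - F y) ^ 2) := by
  have hN1 : (1:ℝ) ≤ N := by exact_mod_cast hN
  have hpos : ∀ x, 0 < h x + ε := fun x => by have := h_nonneg hh x; linarith
  rw [green hconn hdeg hN U hU hh F]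
  -- Cauchy-Schwarz
  have h1 : ∑ x ∈ U, ∑ y ∈ G.neighborFinset x, (h x - h y) * (F y - F x) ≤
      Real.sqrt (∑ x ∈ U, ∑ y ∈ G.neighborFinset x,
        (Real.sqrt (h x + ε) - Real.sqrt (h y + ε)) ^ 2) *
      Real.sqrt (∑ x ∈ U, ∑ y ∈ G.neighborFinset x,
        ((Real.sqrt (h x + ε) + Real.sqrt (h y + ε)) * (F y - F x)) ^ 2) := by
    rw [Finset.sum_sigma', Finset.sum_sigma', Finset.sum_sigma']
    refine le_trans (le_of_eq ?_) (Real.sum_mul_le_sqrt_mul_sqrt _ _ _)
    apply Finset.sum_congr rfl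
    intro p _
    have h2 := Real.sq_sqrt (hpos p.1).le
    have h3 := Real.sq_sqrt (hpos p.2).le
    have h4 : h p.1 - h p.2 = Real.sqrt (h p.1 + ε) ^ 2 - Real.sqrt (h p.2 + ε) ^ 2 := by
      rw [h2, h3]; ring
    rw [h4]
    ring
  -- the second factor
  have h5 : ∑ x ∈ U, ∑ y ∈ G.neighborFinset x,
      ((Real.sqrt (h x + ε) + Real.sqrt (h y + ε)) * (F y - F x)) ^ 2 ≤
      4 * ∑ x ∈ U, (h x + ε) * ∑ y ∈ G.neighborFinset x, (F x - F y) ^ 2 := by
    have h6 : ∑ x ∈ U, ∑ y ∈ G.neighborFinset x, (h y + ε) * (F x - F y) ^ 2 ≤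
        ∑ x ∈ U, ∑ y ∈ G.neighborFinset x, (h x + ε) * (F x - F y) ^ 2 := by
      have h7 := edge_sum_le (G := G) U (fun x y => (h x + ε) * (F x - F y) ^ 2) ?_
      · refine le_trans (le_of_eq ?_) h7
        apply Finset.sum_congr rfl
        intro x _
        apply Finset.sum_congr rfl
        intro y _
        show _ = (h y + ε) * (F y - F x) ^ 2
        ring
      · intro x y hxy hx hy
        have h4 : ¬ G.dist o y ≤ N + 1 := fun h => hy (hU y h)
        show (h y + ε) * (F y - F x) ^ 2 ≤ (h x + ε) * (F x - F y) ^ 2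
        rw [h_support hconn hh y (by omega)]
        have h8 := h_nonneg hh x
        have h9 : (F y - F x) ^ 2 = (F x - F y) ^ 2 := by ring
        rw [h9]
        apply mul_le_mul_of_nonneg_right _ (sq_nonneg _)
        linarith
    have h10 : ∑ x ∈ U, (h x + ε) * ∑ y ∈ G.neighborFinset x, (F x - F y) ^ 2 =
        ∑ x ∈ U, ∑ y ∈ G.neighborFinset x, (h x + ε) * (F x - F y) ^ 2 := by
      apply Finset.sum_congr rfl
      intro x _
      rw [Finset.mul_sum]
    rw [h10]
    have h11 : ∑ x ∈ U, ∑ y ∈ G.neighborFinset x,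
        ((Real.sqrt (h x + ε) + Real.sqrt (h y + ε)) * (F y - F x)) ^ 2 ≤
        2 * ∑ x ∈ U, ∑ y ∈ G.neighborFinset x, (h x + ε) * (F x - F y) ^ 2 +
        2 * ∑ x ∈ U, ∑ y ∈ G.neighborFinset x, (h y + ε) * (F x - F y) ^ 2 := by
      rw [Finset.mul_sum, Finset.mul_sum, ← Finset.sum_add_distrib]
      apply Finset.sum_le_sum
      intro x _
      rw [Finset.mul_sum, Finset.mul_sum, ← Finset.sum_add_distrib]
      apply Finset.sum_le_sum
      intro y _
      have h2 := Real.sq_sqrt (hpos x).le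
      have h3 := Real.sq_sqrt (hpos y).le
      generalize Real.sqrt (h x + ε) = s at *
      generalize Real.sqrt (h y + ε) = r at *
      rw [← h2, ← h3]
      have : 0 ≤ ((s - r) * (F x - F y)) ^ 2 := sq_nonneg _
      nlinarith
    linarith
  have h12 := entropy_energy hconn hdeg o N hN ε hε U hU h hh
  have h13 : Real.sqrt (∑ x ∈ U, ∑ y ∈ G.neighborFinset x,
      ((Real.sqrt (h x + ε) + Real.sqrt (h y + ε)) * (F y - F x)) ^ 2) ≤
      2 * Real.sqrt (∑ x ∈ U, (h x + ε) * ∑ y ∈ G.neighborFinset x, (F x - F y) ^ 2) := by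
    refine le_trans (Real.sqrt_le_sqrt h5) ?_
    rw [Real.sqrt_mul (by norm_num)]
    have : Real.sqrt 4 = 2 := by
      rw [show (4:ℝ) = 2 ^ 2 by norm_num, Real.sqrt_sq (by norm_num)]
    rw [this]
  have h14 : Real.sqrt (∑ x ∈ U, ∑ y ∈ G.neighborFinset x,
        (Real.sqrt (h x + ε) - Real.sqrt (h y + ε)) ^ 2) ≤
      Real.sqrt (Real.log ((1 + ε) / ε) / (2 * N)) := Real.sqrt_le_sqrt h12
  have h15 : (N:ℝ) * Real.sqrt (Real.log ((1 + ε) / ε) / (2 * N)) =
      Real.sqrt (N * Real.log ((1 + ε) / ε) / 2) := by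
    have h16 : (N:ℝ) * Real.log ((1 + ε) / ε) / 2 =
        (N:ℝ) ^ 2 * (Real.log ((1 + ε) / ε) / (2 * N)) := by field_simp
    rw [h16, Real.sqrt_mul (by positivity), Real.sqrt_sq (by positivity)]
  calc (N:ℝ) / 2 * ∑ x ∈ U, ∑ y ∈ G.neighborFinset x, (h x - h y) * (F y - F x)
      ≤ (N:ℝ) / 2 * (Real.sqrt (Real.log ((1 + ε) / ε) / (2 * N)) *
        (2 * Real.sqrt (∑ x ∈ U, (h x + ε) * ∑ y ∈ G.neighborFinset x, (F x - F y) ^ 2))) := by
        apply mul_le_mul_of_nonneg_left _ (by positivity)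
        exact h1.trans (mul_le_mul h14 h13 (Real.sqrt_nonneg _) (Real.sqrt_nonneg _))
    _ = (N:ℝ) * Real.sqrt (Real.log ((1 + ε) / ε) / (2 * N)) *
        Real.sqrt (∑ x ∈ U, (h x + ε) * ∑ y ∈ G.neighborFinset x, (F x - F y) ^ 2) := by ring
    _ = _ := by rw [h15]

end Pool.Agent.Helper60K9.SD
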