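import Mathlib

/-! # Planar graphs: drawings in the plane without crossings -/

set_option autoImplicit false

namespace Pool.Agent.Helper60K9.SD

variable {V : Type*}

/-- `G` is planar: it has a drawing in the plane `ℂ` in which different vertices are different points, every
edge is an arc (an injective continuous image of `[0, 1]`) joining its two ends and containing no other
vertex, and two different arcs meet at most in a common end of the two edges. -/
def IsPlanar (G : SimpleGraph V) : Prop :=
  ∃ (p : V → ℂ) (A : Sym2 V → Set ℂ), Function.Injective p ∧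
    (∀ u v, G.Adj u v → ∃ γ : unitInterval → ℂ, Continuous γ ∧ Function.Injective γ ∧
      γ 0 = p u ∧ γ 1 = p v ∧ Set.range γ = A s(u, v)) ∧
    (∀ e ∈ G.edgeSet, ∀ v, p v ∈ A e → v ∈ e) ∧
    ∀ e ∈ G.edgeSet, ∀ f ∈ G.edgeSet, e ≠ f → ∀ z ∈ A e, z ∈ A f → ∃ v, v ∈ e ∧ v ∈ f ∧ z = p v

end Pool.Agent.Helper60K9.SD
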