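import Pool.Agent.Helper60K9.SD.Defs
import Pool.Agent.Helper60K9.SD.PlanarDef
import Pool.Agent.Helper448.VanKampen

/-! # Planar graphs have no `K₅` minor -/

set_option autoImplicit false

namespace Pool.Agent.Helper60K9.SD

variable {V : Type*}

/-- Planar graphs have no `K₅` minor. -/
theorem no_k5_of_planar {G : SimpleGraph V} (h : IsPlanar G) : ¬ HasKMinor G 5 := by
  obtain ⟨p, A, hp, harc, hvert, hcross⟩ := h
  rintro ⟨B, hconn, hdisj, hadj⟩
  -- base points
  have hne : ∀ i, ∃ v, v ∈ B i := fun i => by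
    obtain ⟨⟨v, hv⟩⟩ := (hconn i).nonempty
    exact ⟨v, hv⟩
  choose v hv using hne
  -- the sets
  let T : Fin 5 → Fin 5 → Set V := fun i j => B i ∪ B j
  let S : Fin 5 → Fin 5 → Set ℂ := fun i j =>
    {z | (∃ u ∈ T i j, z = p u) ∨ ∃ e ∈ G.edgeSet, (∀ u ∈ e, u ∈ T i j) ∧ z ∈ A e}
  have hstep : ∀ i j u w, G.Adj u w → u ∈ T i j → w ∈ T i j → JoinedIn (S i j) (p u) (p w) := by
    intro i j u w huw hu hw
    obtain ⟨γ, hγ, -, h0, h1, hr⟩ := harc u w huw
    refine ⟨⟨⟨γ, hγ⟩, h0, h1⟩, fun t => ?_⟩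
    refine Or.inr ⟨s(u, w), huw, ?_, ?_⟩
    · intro x hx
      rcases Sym2.mem_iff.1 hx with rfl | rfl
      · exact hu
      · exact hw
    · rw [← hr]
      exact ⟨t, rfl⟩
  have hrefl : ∀ i j u, u ∈ T i j → JoinedIn (S i j) (p u) (p u) := fun i j u hu =>
    JoinedIn.refl (Or.inl ⟨u, hu, rfl⟩)
  have hwalk : ∀ (i j k : Fin 5), (B k ⊆ T i j) → ∀ x y : B k, JoinedIn (S i j) (p x) (p y) := by
    intro i j k hk x y
    obtain ⟨W⟩ := (hconn k).preconnected x y
    induction W with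
    | nil => exact hrefl i j _ (hk (Subtype.property _))
    | @cons a b c hab _ ih =>
      exact (hstep i j a b hab (hk a.2) (hk b.2)).trans ih
  have hS : ∀ a b : Fin 5, a < b → JoinedIn (S a b) (p (v a)) (p (v b)) := by
    intro a b hab
    obtain ⟨x, hx, y, hy, hxy⟩ := hadj a b hab.ne
    have h1 := hwalk a b a (fun _ h => Or.inl h) ⟨v a, hv a⟩ ⟨x, hx⟩
    have h2 := hstep a b x y hxy (Or.inl hx) (Or.inr hy)
    have h3 := hwalk a b b (fun _ h => Or.inr h) ⟨y, hy⟩ ⟨v b, hv b⟩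
    exact (h1.trans h2).trans h3
  refine Pool.Agent.Helper448.VanKampen.k5_joined (fun i => p (v i)) S hS ?_
  intro a b c d hab hcd hac had hbc hbd
  have hT : ∀ u, u ∈ T a b → u ∈ T c d → False := by
    rintro u (h1 | h1) (h2 | h2)
    · exact Set.disjoint_left.1 (hdisj a c hac) h1 h2
    · exact Set.disjoint_left.1 (hdisj a d had) h1 h2
    · exact Set.disjoint_left.1 (hdisj b c hbc) h1 h2
    · exact Set.disjoint_left.1 (hdisj b d hbd) h1 h2
  rw [Set.disjoint_left]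
  rintro z (⟨u, hu, hz⟩ | ⟨e, he, hue, hz⟩) (⟨w, hw, hz'⟩ | ⟨f, hf, huf, hz'⟩)
  · have : u = w := hp (hz.symm.trans hz')
    exact hT u hu (this ▸ hw)
  · exact hT u hu (huf u (hvert f hf u (hz ▸ hz')))
  · exact hT w (hue w (hvert e he w (hz' ▸ hz))) hw
  · have hef : e ≠ f := by
      rintro rfl
      induction e using Sym2.ind with
      | _ x y => exact hT x (hue x (Sym2.mem_mk_left x y)) (huf x (Sym2.mem_mk_left x y))
    obtain ⟨x, hx, hx', -⟩ := hcross e he f hf hef z hz hz'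
    exact hT x (hue x hx) (huf x hx')

end Pool.Agent.Helper60K9.SD
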