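import Pool.Agent.Helper60K9.SD.Defs

/-!
# Minors from linked connected sets
-/

set_option autoImplicit false

namespace Pool.Agent.Helper60K9.SD

open Finset

variable {V : Type*} {G : SimpleGraph V}

/-- the piece of a walk before its first visit to `S` -/
theorem before_visit (S : Set V) {u v : V} (w : G.Walk u v) (hu : u ∉ S) (hv : v ∈ S) :
    ∃ P : Set V, u ∈ P ∧ (G.induce P).Connected ∧ (∀ z ∈ P, z ∈ w.support ∧ z ∉ S) ∧
      ∃ p ∈ P, ∃ q ∈ S, G.Adj p q := by
  induction w with
  | nil => exact absurd hv hu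
  | @cons u u' v h w' ih =>
    by_cases h' : u' ∈ S
    · refine ⟨{u}, rfl, ?_, ?_, u, rfl, u', h', h⟩
      · have : Unique ({u} : Set V) := Set.uniqueSingleton u
        exact { preconnected := fun a b => by
                  rw [Subsingleton.elim a b], nonempty := ⟨⟨u, rfl⟩⟩ }
      · rintro z rfl
        exact ⟨by simp, hu⟩
    · obtain ⟨P, hP, hc, hs, p, hp, q, hq, hpq⟩ := ih h' hv
      refine ⟨insert u P, Set.mem_insert _ _, ?_, ?_, p, Set.mem_insert_of_mem _ hp, q, hq, hpq⟩
      · have hle : P ≤ insert u P := Set.subset_insert _ _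
        have key : ∀ z : (insert u P : Set V), (G.induce (insert u P)).Reachable z
            ⟨u', Set.mem_insert_of_mem _ hP⟩ := by
          rintro ⟨z, hz⟩
          rcases Set.mem_insert_iff.1 hz with rfl | hz'
          · apply SimpleGraph.Adj.reachable
            exact h
          · have := (hc.preconnected ⟨z, hz'⟩ ⟨u', hP⟩).map
              (SimpleGraph.induceHomOfLE G hle).toHom
            exact this
        exact { preconnected := fun a b => (key a).trans (key b).symm,
                nonempty := ⟨⟨u, Set.mem_insert _ _⟩⟩ }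
      · intro z hz
        rcases Set.mem_insert_iff.1 hz with rfl | hz'
        · exact ⟨by simp, hu⟩
        · refine ⟨?_, (hs z hz').2⟩
          rw [SimpleGraph.Walk.support_cons]
          exact List.mem_cons_of_mem _ (hs z hz').1

/-- connected sets which are linked by disjoint walks yield a complete minor -/
theorem minor_of_links {m : ℕ} (U : Fin m → Set V) (hU : ∀ i, (G.induce (U i)).Connected)
    (hdis : ∀ i j, i ≠ j → Disjoint (U i) (U j))
    (x y : Fin m → Fin m → V) (w : ∀ a b, G.Walk (x a b) (y a b))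
    (hx : ∀ a b, a < b → x a b ∈ U a) (hy : ∀ a b, a < b → y a b ∈ U b)
    (hav : ∀ a b e, a < b → e ≠ a → e ≠ b → ∀ v ∈ (w a b).support, v ∉ U e)
    (hpair : ∀ a b a' b', a < b → a' < b' → (a, b) ≠ (a', b') → ∀ v ∈ (w a b).support,
      v ∉ (w a' b').support) :
    HasKMinor G m := by
  have hnot : ∀ a b, a < b → x a b ∉ U b := fun a b hab hb =>
    Set.disjoint_left.1 (hdis a b (ne_of_lt hab)) (hx a b hab) hb
  have hex : ∀ a b : Fin m, ∃ P : Set V, a < b → (x a b ∈ P ∧ (G.induce P).Connected ∧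
      (∀ z ∈ P, z ∈ (w a b).support ∧ z ∉ U b) ∧ ∃ p ∈ P, ∃ q ∈ U b, G.Adj p q) := by
    intro a b
    by_cases hab : a < b
    · obtain ⟨P, hP⟩ := before_visit (U b) (w a b) (hnot a b hab) (hy a b hab)
      exact ⟨P, fun _ => hP⟩
    · exact ⟨∅, fun h => absurd h hab⟩
  choose P hP using hex
  set B : Fin m → Set V := fun a => U a ∪ ⋃ b ∈ {b : Fin m | a < b}, P a b with hB
  have hUB : ∀ a, U a ≤ B a := fun a => Set.subset_union_left
  have hPB : ∀ a b, a < b → P a b ≤ B a := fun a b hab z hz =>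
    Or.inr (Set.mem_biUnion (show b ∈ {b : Fin m | a < b} from hab) hz)
  have hmem : ∀ a z, z ∈ B a → z ∈ U a ∨ ∃ b, a < b ∧ z ∈ P a b := by
    intro a z hz
    rcases hz with hz | hz
    · exact Or.inl hz
    · rw [Set.mem_iUnion₂] at hz
      obtain ⟨b, hb, hz⟩ := hz
      exact Or.inr ⟨b, hb, hz⟩
  have hdis' : ∀ a a', a ≠ a' → ∀ z, z ∈ B a → z ∈ B a' → False := by
    intro a a' hne z hz hz'
    rcases hmem a z hz with h1 | ⟨b, hab, h1⟩ <;> rcases hmem a' z hz' with h2 | ⟨b', hab', h2⟩
    · exact Set.disjoint_left.1 (hdis a a' hne) h1 h2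
    · have h3 := (hP a' b' hab').2.2.1 z h2
      by_cases hb : a = b'
      · subst hb
        exact h3.2 h1
      · exact hav a' b' a hab' hne hb z h3.1 h1
    · have h3 := (hP a b hab).2.2.1 z h1
      by_cases hb : a' = b
      · subst hb
        exact h3.2 h2
      · exact hav a b a' hab (Ne.symm hne) hb z h3.1 h2
    · have h3 := (hP a b hab).2.2.1 z h1
      have h4 := (hP a' b' hab').2.2.1 z h2
      exact hpair a b a' b' hab hab' (fun h => hne (congrArg Prod.fst h)) z h3.1 h4.1
  refine ⟨B, ?_, ?_, ?_⟩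
  · intro a
    obtain ⟨z0⟩ := (hU a).nonempty
    have h1 : ∀ z (hz : z ∈ U a), (G.induce (B a)).Reachable ⟨z, hUB a hz⟩ ⟨z0, hUB a z0.2⟩ := by
      intro z hz
      exact ((hU a).preconnected ⟨z, hz⟩ z0).map (SimpleGraph.induceHomOfLE G (hUB a)).toHom
    have key : ∀ z : B a, (G.induce (B a)).Reachable z ⟨z0, hUB a z0.2⟩ := by
      rintro ⟨z, hz⟩
      rcases hmem a z hz with h | ⟨b, hab, h⟩
      · exact h1 z h
      · obtain ⟨hx', hc, -, -⟩ := hP a b hab
        have h2 := (hc.preconnected ⟨z, h⟩ ⟨x a b, hx'⟩).map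
          (SimpleGraph.induceHomOfLE G (hPB a b hab)).toHom
        exact h2.trans (h1 (x a b) (hx a b hab))
    exact { preconnected := fun u v => (key u).trans (key v).symm,
            nonempty := ⟨⟨z0, hUB a z0.2⟩⟩ }
  · intro i j hij
    rw [Set.disjoint_left]
    intro z h1 h2
    exact hdis' i j hij z h1 h2
  · have hlt : ∀ i j, i < j → ∃ x ∈ B i, ∃ y ∈ B j, G.Adj x y := by
      intro i j hij
      obtain ⟨-, -, -, p, hp, q, hq, hpq⟩ := hP i j hij
      exact ⟨p, hPB i j hij hp, q, hUB j hq, hpq⟩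
    intro i j hij
    rcases lt_or_gt_of_ne hij with h | h
    · exact hlt i j h
    · obtain ⟨p, hp, q, hq, hpq⟩ := hlt j i h
      exact ⟨q, hq, p, hp, hpq.symm⟩

end Pool.Agent.Helper60K9.SD
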