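import Pool.Agent.Helper60K9.SD.Defs
import Pool.Agent.H135R2.Pin.Paths

/-!
# A set version of Menger's theorem: few vertices meeting all `A`-`B` paths, or many disjoint connected
sets joining `A` to `B`
-/

set_option autoImplicit false

namespace Pool.Agent.Helper60K9.SD

open Finset

namespace MengerAux

variable {X : Type*}

/-- the graph on `U` with two additional vertices, joined to `A` resp. `B` -/
def big (H : SimpleGraph X) (U A B : Finset X) : SimpleGraph ({u // u ∈ U} ⊕ Bool) where
  Adj p q := match p, q with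
    | Sum.inl u, Sum.inl v => H.Adj u.1 v.1
    | Sum.inl u, Sum.inr true => u.1 ∈ A
    | Sum.inl u, Sum.inr false => u.1 ∈ B
    | Sum.inr true, Sum.inl u => u.1 ∈ A
    | Sum.inr false, Sum.inl u => u.1 ∈ B
    | Sum.inr _, Sum.inr _ => False
  symm := ⟨by
    rintro (u | (_ | _)) (v | (_ | _)) h
    · exact SimpleGraph.Adj.symm h
    all_goals exact h⟩
  loopless := ⟨by
    rintro (u | (_ | _)) h
    · exact H.loopless.irrefl _ h
    all_goals exact h⟩

theorem strip (H : SimpleGraph X) (U A B : Finset X)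
    (p : (big H U A B).Walk (Sum.inr true) (Sum.inr false)) (hp : p.IsPath) :
    ∃ (a b : {u // u ∈ U}) (q : (big H U A B).Walk (Sum.inl a) (Sum.inl b)), a.1 ∈ A ∧ b.1 ∈ B ∧
      (∀ v ∈ q.support, v ∈ p.support) ∧ Sum.inr true ∉ q.support ∧ Sum.inr false ∉ q.support := by
  cases p with
  | cons h p1 =>
    rename_i v
    rw [SimpleGraph.Walk.cons_isPath_iff] at hp
    obtain ⟨hp1, hx⟩ := hp
    match v, h, p1, hp1, hx with
    | Sum.inl a, h, p1, hp1, hx =>
      have hr := hp1.reverse
      have hs : ∀ w, w ∈ p1.reverse.support ↔ w ∈ p1.support := by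
        intro w; rw [SimpleGraph.Walk.support_reverse]; simp
      generalize p1.reverse = r at hr hs
      cases r with
      | cons h2 p2 =>
        rename_i w
        rw [SimpleGraph.Walk.cons_isPath_iff] at hr
        obtain ⟨hp2, hy⟩ := hr
        match w, h2, p2, hp2, hy, hs with
        | Sum.inl b, h2, p2, hp2, hy, hs =>
          refine ⟨a, b, p2.reverse, h, h2, ?_, ?_, ?_⟩
          · intro v hv
            rw [SimpleGraph.Walk.support_reverse, List.mem_reverse] at hv
            rw [SimpleGraph.Walk.support_cons]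
            refine List.mem_cons_of_mem _ ((hs v).1 ?_)
            rw [SimpleGraph.Walk.support_cons]
            exact List.mem_cons_of_mem _ hv
          · intro hv
            rw [SimpleGraph.Walk.support_reverse, List.mem_reverse] at hv
            apply hx
            apply (hs _).1
            rw [SimpleGraph.Walk.support_cons]
            exact List.mem_cons_of_mem _ hv
          · intro hv
            rw [SimpleGraph.Walk.support_reverse, List.mem_reverse] at hv
            exact hy hv

end MengerAux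

open MengerAux in
theorem menger_sets {X : Type*} (H : SimpleGraph X) (U A B : Finset X) (hA : A ⊆ U) (hB : B ⊆ U) (k : ℕ) :
    (∃ S : Finset X, S ⊆ U ∧ S.card ≤ k ∧ ∀ (f : ℕ → X) (n : ℕ), (∀ t ≤ n, f t ∈ U) →
      (∀ t < n, f t = f (t + 1) ∨ H.Adj (f t) (f (t + 1))) → f 0 ∈ A → f n ∈ B → ∃ t ≤ n, f t ∈ S) ∨
    ∃ P : Fin (k + 1) → Finset X, (∀ i, P i ⊆ U) ∧ (∀ i, (H.induce (P i : Set X)).Connected) ∧
      (∀ i j, i ≠ j → Disjoint (P i) (P j)) ∧ (∀ i, ∃ a ∈ P i, a ∈ A) ∧ ∀ i, ∃ b ∈ P i, b ∈ B := by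
  classical
  by_cases hall : ∀ (P : Set ({u // u ∈ U} ⊕ Bool)) (S : Finset ({u // u ∈ U} ⊕ Bool)),
      Sum.inr true ∈ P → Sum.inr false ∉ P → Sum.inr true ∉ S → Sum.inr false ∉ S →
      (∀ a b, a ∈ P → b ∉ P → (big H U A B).Adj a b → b ∈ S) → k + 1 ≤ S.card
  · right
    obtain ⟨P, hP, hdis⟩ := Pool.Agent.H135R2.Menger.menger_paths (big H U A B)
      (x := Sum.inr true) (y := Sum.inr false) (by simp) (fun h => h) (k + 1) hall
    choose a b q ha hb hsub hx hy using fun i => strip H U A B (P i) (hP i)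
    let Q : Fin (k + 1) → Finset X := fun i =>
      (Finset.univ.filter (fun u : {u // u ∈ U} => Sum.inl u ∈ (q i).support)).map
        ⟨Subtype.val, Subtype.val_injective⟩
    have hQ : ∀ i v, v ∈ Q i ↔ ∃ hv : v ∈ U, Sum.inl ⟨v, hv⟩ ∈ (q i).support := by
      intro i v
      simp only [Q, Finset.mem_map, Finset.mem_filter, Finset.mem_univ, true_and,
        Function.Embedding.coeFn_mk]
      constructor
      · rintro ⟨w, hw, rfl⟩
        exact ⟨w.2, hw⟩
      · rintro ⟨hv, hw⟩
        exact ⟨⟨v, hv⟩, hw, rfl⟩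
    have hform : ∀ i, ∀ v : {v // v ∈ (q i).support}, ∃ u : {u // u ∈ Q i}, ∃ hu : u.1 ∈ U,
        v.1 = Sum.inl ⟨u.1, hu⟩ := by
      rintro i ⟨v, hv⟩
      match v, hv with
      | Sum.inl u, hv => exact ⟨⟨u.1, (hQ i u.1).2 ⟨u.2, hv⟩⟩, u.2, rfl⟩
      | Sum.inr true, hv => exact absurd hv (hx i)
      | Sum.inr false, hv => exact absurd hv (hy i)
    refine ⟨Q, ?_, ?_, ?_, ?_, ?_⟩
    · intro i v hv
      exact ((hQ i v).1 hv).1
    · intro i
      choose g hgU hg using hform i
      have hc := (q i).connected_induce_support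
      refine hc.map (f := ⟨fun v => ⟨(g ⟨v.1, v.2⟩).1, (g ⟨v.1, v.2⟩).2⟩, ?_⟩) ?_
      · intro v w hvw
        have h1 : (big H U A B).Adj v.1 w.1 := hvw
        rw [hg ⟨v.1, v.2⟩, hg ⟨w.1, w.2⟩] at h1
        exact h1
      · rintro ⟨u, hu⟩
        obtain ⟨huU, hu'⟩ := (hQ i u).1 (Finset.mem_coe.1 hu)
        refine ⟨⟨Sum.inl ⟨u, huU⟩, hu'⟩, ?_⟩
        have h1 := hg ⟨Sum.inl ⟨u, huU⟩, hu'⟩
        apply Subtype.ext
        have h2 := Sum.inl_injective h1
        exact (congrArg Subtype.val h2).symm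
    · intro i j hij
      rw [Finset.disjoint_left]
      intro v hvi hvj
      obtain ⟨hv, h1⟩ := (hQ i v).1 hvi
      obtain ⟨_, h2⟩ := (hQ j v).1 hvj
      rcases hdis i j hij _ (hsub i _ h1) (hsub j _ h2) with h | h <;> simp at h
    · intro i
      exact ⟨(a i).1, (hQ i _).2 ⟨(a i).2, (q i).start_mem_support⟩, ha i⟩
    · intro i
      exact ⟨(b i).1, (hQ i _).2 ⟨(b i).2, (q i).end_mem_support⟩, hb i⟩
  · left
    push Not at hall
    obtain ⟨P, S, hxP, hyP, hxS, hyS, hcov, hcard⟩ := hall
    refine ⟨(Finset.univ.filter (fun u : {u // u ∈ U} => Sum.inl u ∈ S)).map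
        ⟨Subtype.val, Subtype.val_injective⟩, ?_, ?_, ?_⟩
    · intro v hv
      simp only [Finset.mem_map, Finset.mem_filter, Finset.mem_univ, true_and,
        Function.Embedding.coeFn_mk] at hv
      obtain ⟨w, _, rfl⟩ := hv
      exact w.2
    · rw [Finset.card_map]
      have : (Finset.univ.filter (fun u : {u // u ∈ U} => Sum.inl u ∈ S)).card ≤ S.card := by
        apply Finset.card_le_card_of_injOn (fun u => Sum.inl u)
        · intro u hu
          simpa using hu
        · intro u _ v _ h
          exact Sum.inl_injective h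
      omega
    · intro f n hU hstep h0 hn
      by_contra hno
      push Not at hno
      have hnoS : ∀ t (ht : t ≤ n), (Sum.inl ⟨f t, hU t ht⟩ : {u // u ∈ U} ⊕ Bool) ∉ S := by
        intro t ht hS
        apply hno t ht
        simp only [Finset.mem_map, Finset.mem_filter, Finset.mem_univ, true_and,
          Function.Embedding.coeFn_mk]
        exact ⟨⟨f t, hU t ht⟩, hS, rfl⟩
      have hin : ∀ t (ht : t ≤ n), (Sum.inl ⟨f t, hU t ht⟩ : {u // u ∈ U} ⊕ Bool) ∈ P := by
        intro t
        induction t with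
        | zero =>
          intro ht
          by_contra hP
          exact hnoS 0 ht (hcov _ _ hxP hP h0)
        | succ t ih =>
          intro ht
          have ih' := ih (by omega)
          rcases hstep t (by omega) with h | h
          · have : (⟨f (t + 1), hU (t + 1) ht⟩ : {u // u ∈ U}) = ⟨f t, hU t (by omega)⟩ :=
              Subtype.ext h.symm
            rw [this]
            exact ih'
          · by_contra hP
            exact hnoS (t + 1) ht (hcov _ _ ih' hP h)
      exact hyS (hcov _ _ (hin n le_rfl) hyP hn)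

end Pool.Agent.Helper60K9.SD
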