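import Pool.Agent.Helper60K9.SD.Choose
import Pool.Agent.Helper60K9.SD.Cells
import Pool.Agent.Helper60K9.SD.Menger
import Pool.Agent.Helper60K9.SD.Links

/-! # Small separators made of balls in minor-free graphs of polynomial growth -/

set_option autoImplicit false

namespace Pool.Agent.Helper60K9.SD

open Finset

variable {V : Type*} {G : SimpleGraph V}

/-- the graph of cells -/
def cellGraph (G : SimpleGraph V) (c : V → V) : SimpleGraph V where
  Adj z z' := z ≠ z' ∧ ∃ x x', c x = z ∧ c x' = z' ∧ G.Adj x x'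
  symm := ⟨by
    rintro z z' ⟨h, x, x', h1, h2, h3⟩
    exact ⟨h.symm, x', x, h2, h1, h3.symm⟩⟩
  loopless := ⟨fun z h => h.1 rfl⟩

/-- lifting connectivity from the graph of cells -/
theorem cells_connected {c : V → V} (hcell : ∀ z, c z = z → (G.induce {x | c x = z}).Connected)
    (hcc : ∀ x, c (c x) = c x) {P : Set V} (hP : ((cellGraph G c).induce P).Connected)
    (hfix : ∀ z ∈ P, c z = z) : (G.induce {x | c x ∈ P}).Connected := by
  classical
  -- two vertices of the same cell
  have h1 : ∀ (x y : V) (hx : c x ∈ P) (hy : c y ∈ P), c x = c y →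
      (G.induce {x | c x ∈ P}).Reachable ⟨x, hx⟩ ⟨y, hy⟩ := by
    intro x y hx hy hxy
    have h2 := (hcell (c x) (hcc x)).preconnected ⟨x, rfl⟩ ⟨y, hxy.symm⟩
    have hsub : {u | c u = c x} ⊆ {u | c u ∈ P} := by
      intro u hu
      have hu' : c u = c x := hu
      show c u ∈ P
      rw [hu']; exact hx
    exact h2.map (SimpleGraph.induceHomOfLE G hsub).toHom
  obtain ⟨⟨z0, hz0⟩⟩ := hP.nonempty
  have hz0' : c z0 ∈ P := by rw [hfix z0 hz0]; exact hz0
  -- reach along the walk in the cell graph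
  have h3 : ∀ (z z' : P), ((cellGraph G c).induce P).Reachable z z' →
      ∀ (x y : V) (hx : c x ∈ P) (hy : c y ∈ P), c x = z → c y = z' →
      (G.induce {x | c x ∈ P}).Reachable ⟨x, hx⟩ ⟨y, hy⟩ := by
    rintro z z' ⟨w⟩
    induction w with
    | nil =>
      intro x y hx hy hxz hyz
      exact h1 x y hx hy (hxz.trans hyz.symm)
    | @cons u v w' hadj w ih =>
      intro x y hx hy hxz hyz
      obtain ⟨_, a, b, ha, hb, hab⟩ := hadj
      have haP : c a ∈ P := by rw [ha]; exact u.2
      have hbP : c b ∈ P := by rw [hb]; exact v.2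
      have r1 := h1 x a hx haP (hxz.trans ha.symm)
      have r2 : (G.induce {x | c x ∈ P}).Reachable ⟨a, haP⟩ ⟨b, hbP⟩ :=
        SimpleGraph.Adj.reachable (by simpa using hab)
      exact (r1.trans r2).trans (ih b y hbP hy hb hyz)
  have : Nonempty {x | c x ∈ P} := ⟨⟨z0, hz0'⟩⟩
  refine SimpleGraph.Connected.mk ?_
  rintro ⟨x, hx⟩ ⟨y, hy⟩
  exact h3 ⟨c x, hx⟩ ⟨c y, hy⟩ (hP.preconnected _ _) x y hx hy rfl rfl

/-- the cells met by a geodesic -/
theorem card_cells_geodesic {d c₀ C : ℝ} (h : Gr G d c₀ C) {Ca : ℝ}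
    (hCa : ∀ (ρ R : ℕ), 1 ≤ ρ → ∀ (v : V) (T : Finset V), (∀ x ∈ T, G.dist v x ≤ R) →
      (∀ x ∈ T, ∀ y ∈ T, x ≠ y → ρ ≤ G.dist x y) → (T.card : ℝ) ≤ Ca * ((R : ℝ) / ρ + 2) ^ d)
    {ρ : ℕ} (hρ : 1 ≤ ρ) {c : V → V} (hc1 : ∀ x, G.dist x (c x) < ρ)
    (hc3 : ∀ x y, c x ≠ c y → ρ ≤ G.dist (c x) (c y)) {x y : V} (w : G.Walk x y) (n : ℕ)
    (hw : w.length ≤ n * ρ) (T : Finset V) (hT : ∀ z ∈ T, ∃ v ∈ w.support, c v = z) :
    (T.card : ℝ) ≤ (n + 1) * (Ca * 4 ^ d) := by
  classical
  have hsub : T ⊆ (range (n + 1)).biUnion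
      (fun q => T.filter (fun z => G.dist (w.getVert (q * ρ)) z ≤ 2 * ρ)) := by
    intro z hz
    obtain ⟨v, hv, hvz⟩ := hT z hz
    obtain ⟨t, ht, htl⟩ := SimpleGraph.Walk.mem_support_iff_exists_getVert.1 hv
    rw [Finset.mem_biUnion]
    refine ⟨t / ρ, ?_, ?_⟩
    · rw [Finset.mem_range]
      have : t / ρ ≤ n := Nat.div_le_of_le_mul (by nlinarith [htl.trans hw])
      omega
    · rw [Finset.mem_filter]
      refine ⟨hz, ?_⟩
      have h1 : G.dist (w.getVert (t / ρ * ρ)) (w.getVert t) ≤ ρ := by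
        have h2 : t / ρ * ρ ≤ t := Nat.div_mul_le_self t ρ
        have h3 : t < t / ρ * ρ + ρ := by
          have := Nat.lt_div_mul_add (a := t) (b := ρ) (by omega)
          omega
        have h4 : G.dist (w.getVert (t / ρ * ρ)) (w.getVert t) ≤ t - t / ρ * ρ := by
          have h5 : ∀ k, t / ρ * ρ + k ≤ w.length →
              G.dist (w.getVert (t / ρ * ρ)) (w.getVert (t / ρ * ρ + k)) ≤ k := by
            intro k
            induction k with
            | zero => intro _; simp
            | succ k ih =>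
              intro hk
              have h6 := ih (by omega)
              have h7 : G.Adj (w.getVert (t / ρ * ρ + k)) (w.getVert (t / ρ * ρ + k + 1)) :=
                w.adj_getVert_succ (by omega)
              have h8 := dist_le_of_adj h.conn (w.getVert (t / ρ * ρ)) h7
              rw [← add_assoc]
              omega
          have h9 := h5 (t - t / ρ * ρ) (by omega)
          rwa [show t / ρ * ρ + (t - t / ρ * ρ) = t by omega] at h9
        omega
      have h10 := hc1 (w.getVert t)
      have h11 := h.conn.dist_triangle (u := w.getVert (t / ρ * ρ)) (v := w.getVert t)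
        (w := c (w.getVert t))
      rw [ht] at h1 h10 h11
      rw [hvz] at h10 h11
      omega
  have hbound : ∀ q ∈ range (n + 1),
      ((T.filter (fun z => G.dist (w.getVert (q * ρ)) z ≤ 2 * ρ)).card : ℝ) ≤ Ca * 4 ^ d := by
    intro q _
    have h1 := hCa ρ (2 * ρ) hρ (w.getVert (q * ρ))
      (T.filter (fun z => G.dist (w.getVert (q * ρ)) z ≤ 2 * ρ))
      (fun z hz => (Finset.mem_filter.1 hz).2) (fun z hz z' hz' hne => by
        obtain ⟨v, _, hv⟩ := hT z (Finset.mem_filter.1 hz).1
        obtain ⟨v', _, hv'⟩ := hT z' (Finset.mem_filter.1 hz').1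
        rw [← hv, ← hv'] at hne ⊢
        exact hc3 v v' hne)
    have hρ' : (ρ : ℝ) ≠ 0 := by positivity
    have h2 : (((2 * ρ : ℕ) : ℝ) / ρ + 2) = 4 := by
      push_cast
      field_simp
      norm_num
    rwa [h2] at h1
  calc (T.card : ℝ) ≤ (((range (n + 1)).biUnion
      (fun q => T.filter (fun z => G.dist (w.getVert (q * ρ)) z ≤ 2 * ρ))).card : ℝ) := by
        exact_mod_cast Finset.card_le_card hsub
    _ ≤ ((∑ q ∈ range (n + 1),
        (T.filter (fun z => G.dist (w.getVert (q * ρ)) z ≤ 2 * ρ)).card : ℕ) : ℝ) := by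
        exact_mod_cast Finset.card_biUnion_le
    _ = ∑ q ∈ range (n + 1),
        ((T.filter (fun z => G.dist (w.getVert (q * ρ)) z ≤ 2 * ρ)).card : ℝ) := by push_cast; rfl
    _ ≤ ∑ _q ∈ range (n + 1), Ca * 4 ^ d := Finset.sum_le_sum hbound
    _ = (n + 1) * (Ca * 4 ^ d) := by
        rw [Finset.sum_const, Finset.card_range, nsmul_eq_mul]; push_cast; rfl

theorem dist_le_of_mem_support {x y v : V} (w : G.Walk x y) (hv : v ∈ w.support) :
    G.dist x v ≤ w.length := by
  classical
  exact (SimpleGraph.dist_le (w.takeUntil v hv)).trans (w.length_takeUntil_le_length hv)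

/-- small ball separators in minor-free graphs of polynomial growth -/
theorem sep_of_minorfree {d c₀ C : ℝ} (h : Gr G d c₀ C) (m : ℕ) (hm : ¬ HasKMinor G m) :
    ∃ (A : ℝ) (Q : ℕ), 1 ≤ Q ∧ Sep G A Q := by
  classical
  obtain ⟨Ca, hCa0, hCa⟩ := sep_card h
  set Q : ℕ := 8 * (m * m + 1) with hQ
  set T0 : ℕ := ⌈Ca * ((Q : ℝ) + 1 + 2) ^ d⌉₊ with hT0
  set C8 : ℕ := ⌈3 * (Ca * 4 ^ d)⌉₊ with hC8
  refine ⟨((T0 ^ (m * m) * (m * m + m * m * m * C8 + 1) : ℕ) : ℝ), Q, by omega, ?_⟩
  intro y ρ Λ hρ hΛ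
  have hne : Nonempty V := ⟨y⟩
  have hr : 1 ≤ Λ * ρ := Nat.mul_pos hΛ hρ
  set r := Λ * ρ with hrdef
  obtain ⟨c, hc1, hc2, hc3, hc4⟩ := exists_cells (G := G) h.conn ρ hρ
  set U : Finset V := (bl G y (Q * r)).image c with hU
  set A₀ : Finset V := (bl G y r).image c with hA₀
  set B₀ : Finset V := ((bl G y (Q * r)).filter (fun x => G.dist y x = Q * r)).image c with hB₀
  have hQ1 : 1 ≤ Q := by omega
  have hA : A₀ ⊆ U := by
    apply Finset.image_subset_image
    intro x hx
    rw [h.mem_bl] at hx ⊢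
    nlinarith
  have hB : B₀ ⊆ U := Finset.image_subset_image (Finset.filter_subset _ _)
  set k : ℕ := T0 ^ (m * m) * (m * m + m * m * m * C8 + 1) * Λ with hk
  rcases menger_sets (cellGraph G c) U A₀ B₀ hA hB k with ⟨S, hSU, hSk, hS⟩ | ⟨P, hPU, hPc, hPd, hPA, hPB⟩
  · refine ⟨S, ?_, ?_, ?_⟩
    · calc (S.card : ℝ) ≤ (k : ℝ) := by exact_mod_cast hSk
        _ = _ := by rw [hk]; push_cast; ring
    · intro z hz
      obtain ⟨x, hx, hxz⟩ := Finset.mem_image.1 (hSU hz)
      rw [h.mem_bl] at hx
      have h1 := hc1 x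
      have h2 := h.conn.dist_triangle (u := y) (v := x) (w := c x)
      rw [hxz] at h1 h2
      have h3 : ρ ≤ r := Nat.le_mul_of_pos_left ρ (by omega)
      have h4 : (Q + 1) * r = Q * r + r := by ring
      omega
    · intro γ a b hab hT h0 h1
      obtain ⟨t0, ht1, ht2, ht3, ht4⟩ := exists_first h.conn y hab hT
        (R := Q * r) (by nlinarith) h1
      have hin : ∀ t, a ≤ t → t ≤ t0 → G.dist y (γ t) ≤ Q * r := by
        intro t h2 h3
        rcases Nat.eq_or_lt_of_le h3 with h4 | h4
        · rw [h4, ht3]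
        · exact (ht4 t h2 h4).le
      obtain ⟨t, ht, htS⟩ := hS (fun t => c (γ (a + t))) (t0 - a)
        (fun t ht => Finset.mem_image_of_mem _ (h.mem_bl.2 (hin _ (by omega) (by omega))))
        (fun t ht => by
          rcases hT (a + t) (by omega) (by omega) with h5 | h5
          · left
            show c (γ (a + t)) = c (γ (a + (t + 1)))
            rw [← add_assoc, ← h5]
          · by_cases h6 : c (γ (a + t)) = c (γ (a + (t + 1)))
            · left; exact h6
            · right; exact ⟨h6, _, _, rfl, rfl, by rwa [← add_assoc]⟩)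
        (Finset.mem_image_of_mem _ (h.mem_bl.2 (by simpa using h0)))
        (Finset.mem_image_of_mem _ (Finset.mem_filter.2 ⟨h.mem_bl.2 (by
          rw [show a + (t0 - a) = t0 by omega]; exact ht3.le), by
          rw [show a + (t0 - a) = t0 by omega]; exact ht3⟩))
      refine ⟨a + t, by omega, by omega, _, htS, ?_⟩
      rw [SimpleGraph.dist_comm]
      exact (hc1 _).le
  · exfalso
    apply hm
    -- connected unions of cells
    have hUc : ∀ i, (G.induce {x | c x ∈ (P i : Set V)}).Connected := by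
      intro i
      refine cells_connected hc4 hc2 (hPc i) (fun z hz => ?_)
      obtain ⟨x, _, hx⟩ := Finset.mem_image.1 (hPU i hz)
      rw [← hx, hc2]
    have hpts : ∀ i (R : ℕ), r ≤ R → R ≤ Q * r → ∃ x, c x ∈ P i ∧ G.dist y x = R := by
      intro i R hR1 hR2
      obtain ⟨za, hza1, hza2⟩ := hPA i
      obtain ⟨xa, hxa, hxa'⟩ := Finset.mem_image.1 hza2
      obtain ⟨zb, hzb1, hzb2⟩ := hPB i
      obtain ⟨xb, hxb, hxb'⟩ := Finset.mem_image.1 hzb2
      rw [h.mem_bl] at hxa
      have hxb2 := (Finset.mem_filter.1 hxb).2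
      obtain ⟨w⟩ := (hUc i).preconnected ⟨xa, by show c xa ∈ (P i : Set V); rw [hxa']; exact hza1⟩
        ⟨xb, by show c xb ∈ (P i : Set V); rw [hxb']; exact hzb1⟩
      obtain ⟨v, _, hv⟩ := exists_mem_support_eq (fun v : {x | c x ∈ (P i : Set V)} => G.dist y v)
        (fun u v huv => dist_le_of_adj h.conn y (by simpa using huv)) w R
        (by show G.dist y xa ≤ R; omega) (by show R ≤ G.dist y xb; omega)
      exact ⟨v, v.2, hv⟩
    have hpts' : ∀ i (l : Fin (m * m)), ∃ x, c x ∈ P i ∧ G.dist y x = 8 * ((l : ℕ) + 1) * r := by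
      intro i l
      have hl := l.2
      refine hpts i _ ?_ ?_
      · nlinarith
      · apply Nat.mul_le_mul_right
        rw [hQ]
        omega
    choose X hX1 hX2 using hpts'
    obtain ⟨cr, hr1, hr2, hr3, -⟩ := exists_cells (G := G) h.conn r hr
    set Ts : Finset V := (bl G y (Q * r)).image cr with hTs
    have hTcard : Ts.card ≤ T0 := by
      have h1 := hCa r ((Q + 1) * r) hr y Ts (fun z hz => by
        obtain ⟨x, hx, hxz⟩ := Finset.mem_image.1 hz
        rw [h.mem_bl] at hx
        have h1 := hr1 x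
        have h2 := h.conn.dist_triangle (u := y) (v := x) (w := cr x)
        rw [hxz] at h1 h2
        have h4 : (Q + 1) * r = Q * r + r := by ring
        omega) (fun z hz z' hz' hne => by
        obtain ⟨x, _, hxz⟩ := Finset.mem_image.1 hz
        obtain ⟨x', _, hxz'⟩ := Finset.mem_image.1 hz'
        rw [← hxz, ← hxz'] at hne ⊢
        exact hr3 x x' hne)
      have hr' : (r : ℝ) ≠ 0 := by positivity
      have h2 : (((Q + 1) * r : ℕ) : ℝ) / r + 2 = (Q : ℝ) + 1 + 2 := by
        push_cast
        field_simp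
      rw [h2] at h1
      have h3 : (Ts.card : ℝ) ≤ (T0 : ℝ) := h1.trans (Nat.le_ceil _)
      exact Nat.cast_le.1 h3
    -- pigeonhole
    have hlayer : ∀ l : Fin (m * m), 8 * ((l : ℕ) + 1) * r ≤ Q * r := by
      intro l
      have hl := l.2
      apply Nat.mul_le_mul_right
      rw [hQ]
      omega
    obtain ⟨τ, hτ, hτc⟩ := Finset.exists_lt_card_fiber_of_mul_lt_card_of_maps_to
      (s := (univ : Finset (Fin (k + 1)))) (t := Fintype.piFinset (fun _ : Fin (m * m) => Ts))
      (f := fun i l => cr (X i l)) (n := m * m + m * m * m * (C8 * Λ))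
      (fun i _ => by
        rw [Fintype.mem_piFinset]
        intro l
        refine Finset.mem_image_of_mem _ (h.mem_bl.2 ?_)
        rw [hX2]
        exact hlayer l) (by
        rw [Fintype.card_piFinset, Finset.prod_const, Finset.card_univ, Fintype.card_fin,
          Finset.card_univ, Fintype.card_fin]
        have h1 : Ts.card ^ (m * m) ≤ T0 ^ (m * m) := Nat.pow_le_pow_left hTcard _
        have h2 : m * m + m * m * m * (C8 * Λ) ≤ (m * m + m * m * m * C8 + 1) * Λ := by
          nlinarith [Nat.zero_le (m * m)]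
        calc Ts.card ^ (m * m) * (m * m + m * m * m * (C8 * Λ))
            ≤ T0 ^ (m * m) * ((m * m + m * m * m * C8 + 1) * Λ) := Nat.mul_le_mul h1 h2
          _ = k := by rw [hk]; ring
          _ < k + 1 := Nat.lt_succ_self k)
    set I := (univ : Finset (Fin (k + 1))).filter (fun i => (fun l => cr (X i l)) = τ) with hI
    have hclose : ∀ i ∈ I, ∀ j ∈ I, ∀ l, G.dist (X i l) (X j l) ≤ 2 * r := by
      intro i hi j hj l
      have h1 : cr (X i l) = τ l := congrFun (Finset.mem_filter.1 hi).2 l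
      have h2 : cr (X j l) = τ l := congrFun (Finset.mem_filter.1 hj).2 l
      have h3 := hr1 (X i l)
      have h4 := hr1 (X j l)
      have h5 := h.conn.dist_triangle (u := X i l) (v := τ l) (w := X j l)
      rw [h1] at h3
      rw [h2, SimpleGraph.dist_comm] at h4
      omega
    have hw : ∀ i j l, ∃ w : G.Walk (X i l) (X j l), w.length = G.dist (X i l) (X j l) :=
      fun i j l => h.conn.exists_walk_length_eq_dist _ _
    choose w hw using hw
    -- the obstruction sets
    let Sx : Fin m → Fin m → I → I → Finset I := fun a b i j =>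
      univ.filter (fun e => ∃ v ∈ (w i j (finProdFinEquiv (a, b))).support, c v ∈ P e)
    have hSx : ∀ a b i j, (Sx a b i j).card ≤ C8 * Λ := by
      intro a b i j
      set l := finProdFinEquiv (a, b) with hl
      have hex : ∀ e : I, e ∈ Sx a b i j → ∃ v ∈ (w i j l).support, c v ∈ P e := fun e he =>
        (Finset.mem_filter.1 he).2
      choose! v hv1 hv2 using hex
      set T : Finset V := ((w i j l).support.toFinset).image c with hTdef
      have h1 : (Sx a b i j).card ≤ T.card := by
        refine Finset.card_le_card_of_injOn (fun e => c (v e)) (fun e he => ?_) ?_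
        · exact Finset.mem_image_of_mem _ (List.mem_toFinset.2 (hv1 e he))
        · intro e he e' he' hee
          by_contra hne
          have hd := hPd (e : Fin (k + 1)) e' (fun h => hne (Subtype.ext h))
          have h2 := hv2 e he
          have h3 := hv2 e' he'
          have hee' : c (v e) = c (v e') := hee
          rw [hee'] at h2
          exact (Finset.disjoint_left.1 hd) h2 h3
      have h2 := card_cells_geodesic h hCa hρ hc1 hc3 (w i j l) (2 * Λ) (by
        rw [hw]
        have := hclose i i.2 j j.2 l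
        rw [hrdef] at this
        nlinarith) T (fun z hz => by
        obtain ⟨v, hv, hvz⟩ := Finset.mem_image.1 hz
        exact ⟨v, List.mem_toFinset.1 hv, hvz⟩)
      have h3 : (((2 * Λ : ℕ) : ℝ) + 1) * (Ca * 4 ^ d) ≤ ((C8 * Λ : ℕ) : ℝ) := by
        have h4 : 3 * (Ca * 4 ^ d) ≤ (C8 : ℝ) := Nat.le_ceil _
        have h5 : (0 : ℝ) < Ca * 4 ^ d := by positivity
        have h6 : (1 : ℝ) ≤ Λ := by exact_mod_cast hΛ
        push_cast
        nlinarith
      have h4 : (T.card : ℝ) ≤ ((C8 * Λ : ℕ) : ℝ) := h2.trans h3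
      exact h1.trans (by exact_mod_cast h4)
    obtain ⟨σ, hσ1, hσ2⟩ := exists_choice (ι := I) m (C8 * Λ) Sx hSx (by
      rw [Fintype.card_coe]; exact hτc)
    refine minor_of_links (fun a => {x | c x ∈ (P (σ a) : Set V)}) (fun a => hUc _) ?_
      (fun a b => X (σ a) (finProdFinEquiv (a, b))) (fun a b => X (σ b) (finProdFinEquiv (a, b)))
      (fun a b => w (σ a) (σ b) (finProdFinEquiv (a, b))) (fun a b _ => hX1 _ _)
      (fun a b _ => hX1 _ _) ?_ ?_
    · intro i j hij
      rw [Set.disjoint_left]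
      intro x hx hx'
      have hne : (σ i : Fin (k + 1)) ≠ σ j := fun he => hij (hσ1 (Subtype.ext he))
      exact (Finset.disjoint_left.1 (hPd _ _ hne)) hx hx'
    · intro a b e hab hea heb v hv hve
      exact hσ2 a b e hab.ne hea heb (Finset.mem_filter.2 ⟨mem_univ _, v, hv, hve⟩)
    · intro a b a' b' _ _ hne v hv hv'
      set l := finProdFinEquiv (a, b) with hl
      set l' := finProdFinEquiv (a', b') with hl'
      have hll : (l : ℕ) ≠ l' := fun he => hne (finProdFinEquiv.injective (Fin.ext he))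
      have h1 := dist_le_of_mem_support _ hv
      have h2 := dist_le_of_mem_support _ hv'
      rw [hw] at h1 h2
      have h3 := hclose (σ a) (σ a).2 (σ b) (σ b).2 l
      have h4 := hclose (σ a') (σ a').2 (σ b') (σ b').2 l'
      have h5 := hX2 (σ a) l
      have h6 := hX2 (σ a') l'
      have h7 := h.conn.dist_triangle (u := y) (v := X (σ a) l) (w := v)
      have h8 := h.conn.dist_triangle (u := y) (v := X (σ a') l') (w := v)
      have h9 := h.conn.dist_triangle (u := y) (v := v) (w := X (σ a) l)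
      have h10 := h.conn.dist_triangle (u := y) (v := v) (w := X (σ a') l')
      rw [SimpleGraph.dist_comm (u := v)] at h9 h10
      rcases Nat.lt_or_gt_of_ne hll with h11 | h11
      · have : 8 * ((l : ℕ) + 1) * r + 8 * r ≤ 8 * ((l' : ℕ) + 1) * r := by nlinarith
        omega
      · have : 8 * ((l' : ℕ) + 1) * r + 8 * r ≤ 8 * ((l : ℕ) + 1) * r := by nlinarith
        omega

end Pool.Agent.Helper60K9.SD
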