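import Pool.Agent.Helper60K9.SD.Defs

/-!
# Multiscale weights from cuts
-/

set_option autoImplicit false

namespace Pool.Agent.Helper60K9.SD

open Finset

variable {V : Type*} {G : SimpleGraph V}

namespace Wgt

theorem Traj.mono {γ : ℕ → V} {a b a' b' : ℕ} (h : Traj G γ a b) (ha : a ≤ a') (hb : b' ≤ b) :
    Traj G γ a' b' := fun t h1 h2 => h t (ha.trans h1) (h2.trans_le hb)

theorem dist_succ {γ : ℕ → V} {a b : ℕ} (h : Traj G γ a b) {t : ℕ}
    (h1 : a ≤ t) (h2 : t < b) : G.dist (γ t) (γ (t + 1)) ≤ 1 := by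
  rcases h t h1 h2 with h3 | h3
  · rw [← h3, SimpleGraph.dist_self]; omega
  · exact le_of_eq (SimpleGraph.dist_eq_one_iff_adj.2 h3)

/-- the weight collected inside `S`, counted by the number of disjoint pieces of displacement `q` -/
theorem collect (hconn : G.Connected) {f : V → ℝ} (hf : ∀ x, 0 ≤ f x) {l : ℝ} (hl : 0 ≤ l)
    {D₀ q p : ℕ} (hq : 1 ≤ q) (hL : Len G f l D₀) {S : Set V} (hS : Cross G S q p) (hp : D₀ ≤ p)
    (γ : ℕ → V) (m : ℕ) : ∀ a b, a ≤ b → Traj G γ a b → m * q ≤ G.dist (γ a) (γ b) →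
      (m : ℝ) * (l * p) ≤ ∑ t ∈ Ico a b, S.indicator f (γ t) := by
  have hind : ∀ x, 0 ≤ S.indicator f x := fun x => Set.indicator_nonneg (fun x _ => hf x) x
  induction m with
  | zero =>
    intro a b _ _ _
    rw [Nat.cast_zero, zero_mul]
    exact Finset.sum_nonneg fun t _ => hind _
  | succ m ih =>
    intro a b hab hT hD
    have hex : ∃ t, a ≤ t ∧ q ≤ G.dist (γ a) (γ t) :=
      ⟨b, hab, le_trans (Nat.le_mul_of_pos_left q (Nat.succ_pos m)) hD⟩
    classical
    set t1 := Nat.find hex with ht1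
    obtain ⟨h1, h2⟩ := Nat.find_spec hex
    have hb1 : t1 ≤ b := Nat.find_min' hex ⟨hab, le_trans (Nat.le_mul_of_pos_left q (Nat.succ_pos m)) hD⟩
    have ha1 : a < t1 := by
      rcases h1.lt_or_eq with h3 | h3
      · exact h3
      · exfalso
        rw [← ht1] at h3 h2
        rw [← h3, SimpleGraph.dist_self] at h2
        omega
    have hprev : G.dist (γ a) (γ (t1 - 1)) < q := by
      by_contra hneg
      have := Nat.find_min' hex (m := t1 - 1) ⟨by omega, not_lt.1 hneg⟩
      omega
    have hstep := dist_succ hT (t := t1 - 1) (by omega) (by omega)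
    rw [show t1 - 1 + 1 = t1 by omega] at hstep
    have htri := hconn.dist_triangle (u := γ a) (v := γ (t1 - 1)) (w := γ t1)
    have htri2 := hconn.dist_triangle (u := γ a) (v := γ t1) (w := γ b)
    have hrest : m * q ≤ G.dist (γ t1) (γ b) := by
      have : (m + 1) * q = m * q + q := by ring
      omega
    obtain ⟨a', b', g1, g2, g3, g4, g5⟩ := hS γ a t1 h1 (Traj.mono hT le_rfl hb1) h2
    have g6 := hL γ a' b' g2 (Traj.mono hT g1 (g3.trans hb1)) (hp.trans g5)
    have g7 : l * (p : ℝ) ≤ ∑ t ∈ Ico a t1, S.indicator f (γ t) := by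
      calc l * (p : ℝ) ≤ l * (G.dist (γ a') (γ b') : ℝ) := by
            apply mul_le_mul_of_nonneg_left _ hl
            exact_mod_cast g5
        _ ≤ ∑ t ∈ Ico a' b', f (γ t) := g6
        _ = ∑ t ∈ Ico a' b', S.indicator f (γ t) := by
            apply Finset.sum_congr rfl
            intro t ht
            rw [Finset.mem_Ico] at ht
            rw [Set.indicator_of_mem (g4 t ht.1 ht.2)]
        _ ≤ ∑ t ∈ Ico a t1, S.indicator f (γ t) := by
            apply Finset.sum_le_sum_of_subset_of_nonneg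
            · exact Finset.Ico_subset_Ico g1 g3
            · exact fun t _ _ => hind _
    have g8 := ih t1 b hb1 (Traj.mono hT h1 le_rfl) hrest
    rw [← Finset.sum_Ico_consecutive _ h1 hb1]
    push_cast
    linarith

theorem len_cross (hconn : G.Connected) {f : V → ℝ} (hf : ∀ x, 0 ≤ f x) {l : ℝ} (hl : 0 ≤ l)
    {D₀ q p : ℕ} (hq : 1 ≤ q) (hL : Len G f l D₀) {S : Set V} (hS : Cross G S q p) (hp : D₀ ≤ p) :
    Len G (S.indicator f) (l * p / (2 * q)) q := by
  intro γ a b hab hT hD
  set D := G.dist (γ a) (γ b) with hDdef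
  have h1 := collect hconn hf hl hq hL hS hp γ (D / q) a b hab hT (Nat.div_mul_le_self D q)
  refine le_trans ?_ h1
  have h2 : D < (D / q + 1) * q := by
    have e1 := Nat.div_add_mod D q
    have e2 := Nat.mod_lt D hq
    have e3 : (D / q + 1) * q = q * (D / q) + q := by ring
    omega
  have h3 : 1 ≤ D / q := (Nat.one_le_div_iff (by omega)).2 hD
  have h4 : (D : ℝ) ≤ 2 * (q : ℝ) * ((D / q : ℕ) : ℝ) := by
    have : D ≤ 2 * q * (D / q) := by nlinarith
    exact_mod_cast this
  have hq0 : (0 : ℝ) < q := by exact_mod_cast hq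
  have h5 : 0 ≤ l * (p : ℝ) := by positivity
  rw [div_mul_eq_mul_div, div_le_iff₀ (by positivity)]
  nlinarith [mul_le_mul_of_nonneg_left h4 h5]

theorem dens_cov {d c C : ℝ} (h : Gr G d c C) {f : V → ℝ} (hf : ∀ x, 0 ≤ f x) {E : ℝ}
    {R₀ r ρ : ℕ} {M : ℝ} (hE : 0 ≤ E) (hD : Dens G d f E R₀) {S : Set V} (hS : Cov G d S r ρ M)
    (hR : R₀ ≤ ρ) (hr : 1 ≤ r) :
    Dens G d (S.indicator f) (E * (M * ((ρ : ℝ) / r) ^ d)) r := by
  classical
  intro z R hrR
  obtain ⟨T, hT, hcov⟩ := hS z R hrR
  have hR0 : (0 : ℝ) < R := by exact_mod_cast lt_of_lt_of_le hr hrR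
  have hr0 : (0 : ℝ) < r := by exact_mod_cast hr
  have h1 : ∑ x ∈ bl G z R, S.indicator f x ≤ ∑ u ∈ T, ∑ x ∈ bl G u ρ, f x := by
    calc ∑ x ∈ bl G z R, S.indicator f x
        ≤ ∑ x ∈ bl G z R, ∑ u ∈ T, (if G.dist u x ≤ ρ then f x else 0) := by
          apply Finset.sum_le_sum
          intro x hx
          rw [h.mem_bl] at hx
          by_cases hxS : x ∈ S
          · rw [Set.indicator_of_mem hxS]
            obtain ⟨u, hu, hux⟩ := hcov x hxS hx
            calc f x = (if G.dist u x ≤ ρ then f x else 0) := by rw [if_pos hux]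
              _ ≤ _ := Finset.single_le_sum (f := fun u => if G.dist u x ≤ ρ then f x else 0)
                  (fun u _ => by split_ifs; exacts [hf x, le_rfl]) hu
          · rw [Set.indicator_of_notMem hxS]
            apply Finset.sum_nonneg
            intro u _
            split_ifs
            exacts [hf x, le_rfl]
      _ = ∑ u ∈ T, ∑ x ∈ bl G z R, (if G.dist u x ≤ ρ then f x else 0) := Finset.sum_comm
      _ ≤ ∑ u ∈ T, ∑ x ∈ bl G u ρ, f x := by
          apply Finset.sum_le_sum
          intro u _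
          rw [← Finset.sum_filter]
          apply Finset.sum_le_sum_of_subset_of_nonneg
          · intro x hx
            rw [Finset.mem_filter] at hx
            rw [h.mem_bl]
            exact hx.2
          · exact fun x _ _ => hf x
  refine h1.trans ?_
  have h2 : ∑ u ∈ T, ∑ x ∈ bl G u ρ, f x ≤ (T.card : ℝ) * (E * (ρ : ℝ) ^ d) := by
    refine (Finset.sum_le_card_nsmul T _ _ fun u _ => hD u ρ hR).trans ?_
    rw [nsmul_eq_mul]
  refine h2.trans ?_
  have h3 : 0 ≤ E * (ρ : ℝ) ^ d := by positivity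
  refine (mul_le_mul_of_nonneg_right hT h3).trans (le_of_eq ?_)
  rw [Real.div_rpow hR0.le hr0.le, Real.div_rpow (Nat.cast_nonneg ρ) hr0.le]
  ring

/-- choice of the parameters -/
theorem params {d A' : ℝ} {K : ℕ} (hd : 2 < d) (hK : 1 ≤ K) (hA : 0 < A') :
    ∃ Λ n : ℕ, 6 ≤ Λ ∧ 1 ≤ n ∧ 0 ≤ A' * Λ * ((K : ℝ) / Λ) ^ d ∧
      ((Λ : ℝ) / n) ^ 2 * (n * (A' * Λ * ((K : ℝ) / Λ) ^ d) +
        n ^ 2 * (A' * Λ * ((K : ℝ) / Λ) ^ d) ^ 2) ≤ 1 / 2 := by
  have hlim : Filter.Tendsto (fun x : ℝ => A' * (K : ℝ) ^ d * x ^ (-(d - 2))) Filter.atTop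
      (nhds (A' * (K : ℝ) ^ d * 0)) :=
    (tendsto_rpow_neg_atTop (by linarith)).const_mul _
  rw [mul_zero] at hlim
  have hlim2 := hlim.comp tendsto_natCast_atTop_atTop
  obtain ⟨Λ, hΛ6, hΛ⟩ := ((Filter.eventually_ge_atTop 6).and
    (hlim2.eventually_le_const (show (0 : ℝ) < 1 / 2 by norm_num))).exists
  simp only [Function.comp_apply] at hΛ
  have hΛ0 : (0 : ℝ) < Λ := by
    have : 0 < Λ := by omega
    exact_mod_cast this
  have hK0 : (0 : ℝ) < K := by exact_mod_cast hK
  set τ := A' * Λ * ((K : ℝ) / Λ) ^ d with hτ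
  have hτ0 : 0 ≤ τ := by positivity
  have hτ2 : (Λ : ℝ) * τ ≤ 1 / 2 := by
    refine le_trans (le_of_eq ?_) hΛ
    rw [hτ, Real.div_rpow hK0.le hΛ0.le, Real.rpow_neg hΛ0.le, Real.rpow_sub hΛ0,
      show (Λ : ℝ) ^ (2 : ℝ) = (Λ : ℝ) ^ 2 by norm_cast]
    have : (Λ : ℝ) ^ d ≠ 0 := by positivity
    field_simp
  obtain ⟨n, hn⟩ := exists_nat_ge (4 * (Λ : ℝ) ^ 2 * τ + 1)
  have hn0 : (0 : ℝ) < n := by
    have : 0 ≤ 4 * (Λ : ℝ) ^ 2 * τ := by positivity
    linarith
  refine ⟨Λ, n, hΛ6, by exact_mod_cast hn0, hτ0, ?_⟩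
  have e : ((Λ : ℝ) / n) ^ 2 * (n * τ + n ^ 2 * τ ^ 2) = (Λ : ℝ) ^ 2 * τ / n + (Λ * τ) ^ 2 := by
    field_simp
  rw [e]
  have h1 : (Λ : ℝ) ^ 2 * τ / n ≤ 1 / 4 := by
    rw [div_le_iff₀ hn0]
    linarith
  have h2 : ((Λ : ℝ) * τ) ^ 2 ≤ 1 / 4 := by
    have h3 : 0 ≤ (Λ : ℝ) * τ := by positivity
    nlinarith
  linarith

end Wgt

open Wgt

theorem weights_of_cuts {d c C : ℝ} (h : Gr G d c C) (hd : 2 < d) {Q K : ℕ} {A' : ℝ} (hK : 1 ≤ K)
    (hA : 0 < A')
    (hcut : ∀ Λ ρ : ℕ, 6 ≤ Λ → 1 ≤ ρ → ∃ S : Set V, Cross G S ((Q + 1) * (Λ * ρ)) (2 * (Q + 1) * ρ) ∧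
        Cov G d S (Λ * ρ) (K * ρ) (A' * Λ)) :
    ∃ (L : ℕ) (E : ℝ), 2 ≤ L ∧ 0 < E ∧ ∀ J : ℕ, ∃ W : V → ℝ, (∀ x, 0 ≤ W x) ∧
      Len G W 1 ((Q + 1) * L ^ J) ∧ Dens G d (fun x => W x ^ 2) (E * (1 / 2) ^ J) (L ^ J) := by
  classical
  obtain ⟨Λ, n, hΛ, hn, hτ0, hpar⟩ := params (A' := A') (K := K) hd hK hA
  set τ := A' * Λ * ((K : ℝ) / Λ) ^ d with hτ
  have hΛ1 : 1 ≤ Λ := by omega
  have hΛ0 : (0 : ℝ) < Λ := by exact_mod_cast (show 0 < Λ by omega)
  have hn0 : (0 : ℝ) < n := by exact_mod_cast hn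
  choose S hScr hScov using fun i : ℕ => hcut Λ (Λ ^ i) hΛ (Nat.one_le_pow _ _ hΛ1)
  have hC0 : 0 ≤ C := by
    obtain ⟨v⟩ := h.conn.nonempty
    have h1 := h.upper v 1 le_rfl
    rw [Nat.cast_one, Real.one_rpow, mul_one] at h1
    exact (Nat.cast_nonneg _).trans h1
  refine ⟨Λ ^ n, C + 1, ?_, by linarith, ?_⟩
  · calc 2 ≤ Λ := by omega
      _ = Λ ^ 1 := (pow_one _).symm
      _ ≤ Λ ^ n := Nat.pow_le_pow_right hΛ1 hn
  intro J
  induction J with
  | zero =>
    refine ⟨fun _ => 1, fun _ => zero_le_one, ?_, ?_⟩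
    · intro γ a b hab hT _
      rw [one_mul, Finset.sum_const, Nat.card_Ico, nsmul_eq_mul, mul_one]
      have key : ∀ k, a + k ≤ b → G.dist (γ a) (γ (a + k)) ≤ k := by
        intro k
        induction k with
        | zero => intro _; rw [Nat.add_zero, SimpleGraph.dist_self]
        | succ k ih =>
          intro hk
          have h1 := ih (by omega)
          have h2 := dist_succ hT (t := a + k) (by omega) (by omega)
          have h3 := h.conn.dist_triangle (u := γ a) (v := γ (a + k)) (w := γ (a + k + 1))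
          have h4 : a + (k + 1) = a + k + 1 := by omega
          rw [h4]
          omega
      have h1 := key (b - a) (by omega)
      rw [show a + (b - a) = b by omega] at h1
      exact_mod_cast h1
    · intro z R hR
      rw [pow_zero, mul_one]
      have hR1 : 1 ≤ R := by simpa using hR
      have h1 := h.upper z R hR1
      simp only [one_pow, Finset.sum_const, nsmul_eq_mul, mul_one]
      refine h1.trans ?_
      have : (0:ℝ) ≤ (R : ℝ) ^ d := by positivity
      nlinarith
  | succ J ih =>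
    obtain ⟨W, hW0, hWL, hWD⟩ := ih
    set a : ℕ → V → ℝ := fun j => (S (n * J + j)).indicator 1 with ha
    have ha01 : ∀ j x, a j x = 0 ∨ a j x = 1 := by
      intro j x
      by_cases hx : x ∈ S (n * J + j)
      · right; simp only [ha]; rw [Set.indicator_of_mem hx]; rfl
      · left; simp only [ha]; rw [Set.indicator_of_notMem hx]
    have ha0 : ∀ j x, 0 ≤ a j x := by
      intro j x
      rcases ha01 j x with h1 | h1 <;> rw [h1]
      exact zero_le_one
    have hmul : ∀ j (f : V → ℝ) x, (S (n * J + j)).indicator f x = a j x * f x := by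
      intro j f x
      by_cases hx : x ∈ S (n * J + j)
      · simp only [ha]; rw [Set.indicator_of_mem hx, Set.indicator_of_mem hx]; simp
      · simp only [ha]; rw [Set.indicator_of_notMem hx, Set.indicator_of_notMem hx]; simp
    refine ⟨fun x => (Λ : ℝ) / n * (∑ j ∈ range n, a j x * W x), ?_, ?_, ?_⟩
    · intro x
      have : 0 ≤ ∑ j ∈ range n, a j x * W x :=
        Finset.sum_nonneg fun j _ => mul_nonneg (ha0 j x) (hW0 x)
      positivity
    · -- length
      have hj : ∀ j ∈ range n, Len G (fun x => a j x * W x) (1 / Λ) ((Q + 1) * (Λ ^ n) ^ (J + 1)) := by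
        intro j hj
        rw [Finset.mem_range] at hj
        set ρ := Λ ^ (n * J + j) with hρ
        have hρ1 : 1 ≤ ρ := Nat.one_le_pow _ _ hΛ1
        have hLJ : (Λ ^ n) ^ J ≤ ρ := by
          rw [← pow_mul]
          exact Nat.pow_le_pow_right hΛ1 (by omega)
        have h1 := len_cross h.conn hW0 zero_le_one (q := (Q + 1) * (Λ * ρ))
          (p := 2 * (Q + 1) * ρ) (Nat.mul_pos (Nat.succ_pos Q) (Nat.mul_pos hΛ1 hρ1)) hWL
          (hScr (n * J + j)) (by nlinarith [Nat.zero_le Q])
        intro γ s t hst hT hD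
        have hq : (Q + 1) * (Λ * ρ) ≤ (Q + 1) * (Λ ^ n) ^ (J + 1) := by
          apply Nat.mul_le_mul_left
          rw [← pow_mul, hρ, ← pow_succ']
          apply Nat.pow_le_pow_right hΛ1
          have : n * (J + 1) = n * J + n := by ring
          omega
        have h2 := h1 γ s t hst hT (hq.trans hD)
        have e1 : (1 : ℝ) * ((2 * (Q + 1) * ρ : ℕ) : ℝ) / (2 * (((Q + 1) * (Λ * ρ) : ℕ) : ℝ)) =
            1 / Λ := by
          have hρ0 : (0 : ℝ) < ρ := by exact_mod_cast hρ1
          push_cast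
          field_simp
        rw [e1] at h2
        refine h2.trans (le_of_eq ?_)
        exact Finset.sum_congr rfl fun i _ => hmul j W (γ i)
      intro γ s t hst hT hD
      have h3 : ∑ j ∈ range n, (1 / (Λ : ℝ)) * (G.dist (γ s) (γ t) : ℝ) ≤
          ∑ j ∈ range n, ∑ i ∈ Ico s t, a j (γ i) * W (γ i) :=
        Finset.sum_le_sum fun j hj' => hj j hj' γ s t hst hT hD
      rw [Finset.sum_const, Finset.card_range, nsmul_eq_mul, Finset.sum_comm] at h3
      rw [← Finset.mul_sum, one_mul]
      have h4 := mul_le_mul_of_nonneg_left h3 (show 0 ≤ (Λ : ℝ) / n by positivity)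
      refine le_trans (le_of_eq ?_) h4
      field_simp
    · -- density
      set E' := (C + 1) * (1 / 2 : ℝ) ^ J with hE'
      have hE'0 : 0 ≤ E' := by
        have : 0 ≤ C + 1 := by linarith
        positivity
      have htau : ∀ i : ℕ, A' * (Λ : ℝ) * (((K * Λ ^ i : ℕ) : ℝ) / ((Λ * Λ ^ i : ℕ) : ℝ)) ^ d = τ := by
        intro i
        rw [hτ]
        congr 2
        push_cast
        have : (0 : ℝ) < (Λ : ℝ) ^ i := by positivity
        field_simp
      have hW20 : ∀ x, 0 ≤ W x ^ 2 := fun x => by positivity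
      have hone : ∀ j, Dens G d (fun x => a j x * W x ^ 2) (E' * τ) (Λ ^ (n * J + j + 1)) := by
        intro j
        have h1 := dens_cov h (f := fun x => W x ^ 2) hW20 hE'0 hWD (hScov (n * J + j)) (by
          rw [← pow_mul]
          calc Λ ^ (n * J) ≤ Λ ^ (n * J + j) := Nat.pow_le_pow_right hΛ1 (by omega)
            _ ≤ K * Λ ^ (n * J + j) := Nat.le_mul_of_pos_left _ hK)
          (Nat.mul_pos hΛ1 (Nat.pow_pos hΛ1))
        rw [htau] at h1
        intro z R hR
        have h2 := h1 z R (by rw [← pow_succ']; exact hR)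
        refine le_trans (le_of_eq ?_) h2
        exact Finset.sum_congr rfl fun x _ => (hmul j (fun x => W x ^ 2) x).symm
      have htwo : ∀ j l, j < l → Dens G d (fun x => a j x * a l x * W x ^ 2) (E' * τ ^ 2)
          (Λ ^ (n * J + l + 1)) := by
        intro j l hjl
        have h1 := dens_cov h (f := fun x => a j x * W x ^ 2)
          (fun x => mul_nonneg (ha0 j x) (hW20 x)) (mul_nonneg hE'0 hτ0) (hone j)
          (hScov (n * J + l)) (by
            calc Λ ^ (n * J + j + 1) ≤ Λ ^ (n * J + l) := Nat.pow_le_pow_right hΛ1 (by omega)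
              _ ≤ K * Λ ^ (n * J + l) := Nat.le_mul_of_pos_left _ hK)
          (Nat.mul_pos hΛ1 (Nat.pow_pos hΛ1))
        rw [htau] at h1
        intro z R hR
        have h2 := h1 z R (by rw [← pow_succ']; exact hR)
        have e3 : E' * τ * τ = E' * τ ^ 2 := by ring
        rw [e3] at h2
        refine le_trans (le_of_eq ?_) h2
        apply Finset.sum_congr rfl
        intro x _
        rw [hmul]
        ring
      have hall : ∀ j ∈ range n, ∀ l ∈ range n,
          Dens G d (fun x => a j x * a l x * W x ^ 2) (E' * (if j = l then τ else τ ^ 2))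
            ((Λ ^ n) ^ (J + 1)) := by
        intro j hj l hl z R hR
        rw [Finset.mem_range] at hj hl
        have hR' : ∀ i, i < n → Λ ^ (n * J + i + 1) ≤ R := by
          intro i hi
          refine le_trans ?_ hR
          rw [← pow_mul]
          apply Nat.pow_le_pow_right hΛ1
          have : n * (J + 1) = n * J + n := by ring
          omega
        rcases lt_trichotomy j l with hlt | heq | hgt
        · rw [if_neg hlt.ne]
          exact htwo j l hlt z R (hR' l hl)
        · subst heq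
          rw [if_pos rfl]
          refine le_trans (le_of_eq ?_) (hone j z R (hR' j hj))
          apply Finset.sum_congr rfl
          intro x _
          show a j x * a j x * W x ^ 2 = a j x * W x ^ 2
          rcases ha01 j x with h1 | h1 <;> rw [h1] <;> ring
        · rw [if_neg hgt.ne']
          refine le_trans (le_of_eq ?_) (htwo l j hgt z R (hR' j hj))
          apply Finset.sum_congr rfl
          intro x _
          ring
      intro z R hR
      have hR0 : (0 : ℝ) ≤ (R : ℝ) ^ d := by positivity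
      have hexp : ∀ x, ((Λ : ℝ) / n * (∑ j ∈ range n, a j x * W x)) ^ 2 =
          ((Λ : ℝ) / n) ^ 2 * ∑ j ∈ range n, ∑ l ∈ range n, a j x * a l x * W x ^ 2 := by
        intro x
        rw [mul_pow]
        congr 1
        rw [sq, Finset.sum_mul_sum]
        apply Finset.sum_congr rfl
        intro j _
        apply Finset.sum_congr rfl
        intro l _
        ring
      calc ∑ x ∈ bl G z R, ((Λ : ℝ) / n * (∑ j ∈ range n, a j x * W x)) ^ 2
          = ((Λ : ℝ) / n) ^ 2 * ∑ j ∈ range n, ∑ l ∈ range n,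
              ∑ x ∈ bl G z R, a j x * a l x * W x ^ 2 := by
            rw [Finset.sum_congr rfl fun x _ => hexp x, ← Finset.mul_sum, Finset.sum_comm]
            congr 1
            apply Finset.sum_congr rfl
            intro j _
            rw [Finset.sum_comm]
        _ ≤ ((Λ : ℝ) / n) ^ 2 * ∑ j ∈ range n, ∑ l ∈ range n,
              (E' * (if j = l then τ else τ ^ 2)) * (R : ℝ) ^ d := by
            apply mul_le_mul_of_nonneg_left _ (by positivity)
            apply Finset.sum_le_sum
            intro j hj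
            apply Finset.sum_le_sum
            intro l hl
            exact hall j hj l hl z R hR
        _ ≤ ((Λ : ℝ) / n) ^ 2 * ∑ j ∈ range n, ∑ l ∈ range n,
              (E' * ((if j = l then τ else 0) + τ ^ 2)) * (R : ℝ) ^ d := by
            apply mul_le_mul_of_nonneg_left _ (by positivity)
            apply Finset.sum_le_sum
            intro j _
            apply Finset.sum_le_sum
            intro l _
            apply mul_le_mul_of_nonneg_right _ hR0
            apply mul_le_mul_of_nonneg_left _ hE'0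
            split_ifs
            · nlinarith [sq_nonneg τ]
            · linarith
        _ = E' * (((Λ : ℝ) / n) ^ 2 * (n * τ + n ^ 2 * τ ^ 2)) * (R : ℝ) ^ d := by
            have e4 : ∑ j ∈ range n, ∑ l ∈ range n,
                (E' * ((if j = l then τ else 0) + τ ^ 2)) * (R : ℝ) ^ d =
                E' * (n * τ + n ^ 2 * τ ^ 2) * (R : ℝ) ^ d := by
              rw [← Finset.sum_congr rfl fun j _ => Finset.sum_mul _ _ _, ← Finset.sum_mul]
              congr 1
              rw [← Finset.sum_congr rfl fun j _ => Finset.mul_sum _ _ _, ← Finset.mul_sum]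
              congr 1
              rw [Finset.sum_congr rfl fun j _ => Finset.sum_add_distrib, Finset.sum_add_distrib]
              congr 1
              · rw [Finset.sum_congr rfl (g := fun _ => τ) ?_]
                · rw [Finset.sum_const, Finset.card_range, nsmul_eq_mul]
                · intro j hj
                  rw [Finset.sum_ite_eq, if_pos hj]
              · rw [Finset.sum_const, Finset.sum_const, Finset.card_range, nsmul_eq_mul,
                  nsmul_eq_mul]
                ring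
            rw [e4]
            ring
        _ ≤ E' * (1 / 2) * (R : ℝ) ^ d := by
            apply mul_le_mul_of_nonneg_right _ hR0
            exact mul_le_mul_of_nonneg_left hpar hE'0
        _ = (C + 1) * (1 / 2) ^ (J + 1) * (R : ℝ) ^ d := by
            rw [hE', pow_succ]
            ring

end Pool.Agent.Helper60K9.SD
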