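import Pool.Agent.Helper60K9.SD.Bound
import Pool.Agent.Helper60K9.SD.Sep
import Pool.Agent.Helper60K9.SD.Cut
import Pool.Agent.Helper60K9.SD.Weights
import Pool.Agent.Helper60K9.SD.Asym
import Pool.Agent.Helper60K9.SD.Planar

/-! # Subdiffusivity: the final assembly -/

set_option autoImplicit false

namespace Pool.Agent.Helper60K9.SD

open Finset

variable {V : Type*} {G : SimpleGraph V}

theorem subdiffusive [G.LocallyFinite] {d c₀ C : ℝ} (h : Gr G d c₀ C) (hd : 2 < d) {m : ℕ}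
    (hm : ¬ HasKMinor G m) :
    ∃ α K : ℝ, α < 1 / 2 ∧ ∀ (o : V) (t : ℕ), 1 ≤ t → expDist G o t ≤ K * (t : ℝ) ^ α := by
  obtain ⟨A, Q, hQ, hsep⟩ := sep_of_minorfree h m hm
  obtain ⟨K, A', hK, hA', hcut⟩ := cuts_of_sep' h hQ hsep (sep_card h)
  obtain ⟨L, E, hL, hE, hW⟩ := weights_of_cuts h hd hK hA' hcut
  obtain ⟨c1, c2, hc1, hc2, hb⟩ := expDist_bound h hE hL hW
  obtain ⟨α, K', _, hα, _, hfin⟩ := asym hd hL hc1 hc2
  exact ⟨α, K', hα, fun o t ht => hfin t _ ht fun J hJ => hb o t ht J hJ⟩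

theorem bl_eq {v : V} {n : ℕ} (hfin : {x | G.dist v x ≤ n}.Finite) :
    (bl G v n).card = {x | G.dist v x ≤ n}.ncard := by
  unfold bl
  rw [dif_pos hfin, Set.ncard_eq_toFinset_card _ hfin]

theorem subdiffusive_sets [G.LocallyFinite] (hconn : G.Connected) {d c₀ C : ℝ} (hd : 2 < d)
    (hc : 0 < c₀) (hfin : ∀ (v : V) (n : ℕ), 1 ≤ n → {x | G.dist v x ≤ n}.Finite)
    (hlow : ∀ (v : V) (n : ℕ), 1 ≤ n → c₀ * (n : ℝ) ^ d ≤ ({x | G.dist v x ≤ n}.ncard : ℝ))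
    (hup : ∀ (v : V) (n : ℕ), 1 ≤ n → ({x | G.dist v x ≤ n}.ncard : ℝ) ≤ C * (n : ℝ) ^ d)
    {m : ℕ} (hm : ¬ HasKMinor G m) :
    ∃ α K : ℝ, α < 1 / 2 ∧ ∀ (o : V) (t : ℕ), 1 ≤ t →
      ∑' x, law G o t x * (G.dist o x : ℝ) ≤ K * (t : ℝ) ^ α := by
  have hfin' : ∀ (v : V) (n : ℕ), {x | G.dist v x ≤ n}.Finite := by
    intro v n
    rcases Nat.eq_zero_or_pos n with rfl | hn
    · exact (hfin v 1 le_rfl).subset fun x hx => by
        simp only [Set.mem_setOf_eq] at hx ⊢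
        omega
    · exact hfin v n hn
  have h : Gr G d c₀ C := ⟨hconn, hfin', hc, by linarith,
    fun v n hn => by rw [bl_eq (hfin' v n)]; exact hlow v n hn,
    fun v n hn => by rw [bl_eq (hfin' v n)]; exact hup v n hn⟩
  obtain ⟨α, K, hα, hK⟩ := subdiffusive h hd hm
  refine ⟨α, K, hα, fun o t ht => ?_⟩
  have h1 : ∑' x, law G o t x * (G.dist o x : ℝ) = expDist G o t := by
    unfold expDist
    refine tsum_eq_sum fun x hx => ?_
    rw [h.mem_bl, not_le] at hx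
    rw [law_support h.conn o t x hx, zero_mul]
  rw [h1]
  exact hK o t ht

end Pool.Agent.Helper60K9.SD
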