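import Pool.Agent.Helper60K9.SD.Choose

/-! # The weighted distance, and a crude local Poincaré inequality -/

set_option autoImplicit false

namespace Pool.Agent.Helper60K9.SD

open Finset

variable {V : Type*} {G : SimpleGraph V}

/-- the weighted lengths of the trajectories from `o` to `x` -/
def lens (G : SimpleGraph V) (W : V → ℝ) (o x : V) : Set ℝ :=
  {r | ∃ (γ : ℕ → V) (T : ℕ), Traj G γ 0 T ∧ γ 0 = o ∧ γ T = x ∧ r = ∑ t ∈ range T, W (γ t)}

theorem exists_traj (hc : G.Connected) (x y : V) : ∃ (γ : ℕ → V) (T : ℕ), Traj G γ 0 T ∧ γ 0 = x ∧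
    γ T = y ∧ T = G.dist x y := by
  obtain ⟨w, hw⟩ := hc.exists_walk_length_eq_dist x y
  refine ⟨w.getVert, w.length, fun t _ ht => Or.inr (w.adj_getVert_succ ht), by simp, by simp, hw⟩

theorem exists_potential (hc : G.Connected) {W : V → ℝ} (hW : ∀ x, 0 ≤ W x) {D₀ : ℕ}
    (hL : Len G W 1 D₀) (o : V) :
    ∃ F : V → ℝ, F o = 0 ∧ (∀ x, 0 ≤ F x) ∧ (∀ x y, G.Adj x y → F y ≤ F x + W x) ∧
      ∀ x, D₀ ≤ G.dist o x → (G.dist o x : ℝ) ≤ F x := by
  have hne : ∀ x, (lens G W o x).Nonempty := by
    intro x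
    obtain ⟨γ, T, h1, h2, h3, _⟩ := exists_traj hc o x
    exact ⟨_, γ, T, h1, h2, h3, rfl⟩
  have hpos : ∀ x, ∀ r ∈ lens G W o x, 0 ≤ r := by
    rintro x r ⟨γ, T, _, _, _, rfl⟩
    exact Finset.sum_nonneg fun t _ => hW _
  have hbdd : ∀ x, BddBelow (lens G W o x) := fun x => ⟨0, fun r hr => hpos x r hr⟩
  refine ⟨fun x => sInf (lens G W o x), ?_, fun x => Real.sInf_nonneg (hpos x), ?_, ?_⟩
  · apply le_antisymm
    · refine csInf_le (hbdd o) ⟨fun _ => o, 0, fun t _ ht => by omega, rfl, rfl, by simp⟩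
    · exact Real.sInf_nonneg (hpos o)
  · intro x y hxy
    rw [← sub_le_iff_le_add]
    refine le_csInf (hne x) ?_
    rintro r ⟨γ, T, h1, h2, h3, rfl⟩
    rw [sub_le_iff_le_add]
    refine csInf_le (hbdd y) ⟨fun t => if t ≤ T then γ t else y, T + 1, ?_, by simp [h2], by simp, ?_⟩
    · intro t _ ht
      by_cases htT : t < T
      · have := h1 t (Nat.zero_le _) htT
        simpa [htT.le, Nat.succ_le_of_lt htT] using this
      · have htT' : t = T := by omega
        subst htT'
        right
        simpa [h3] using hxy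
    · rw [Finset.sum_range_succ]
      congr 1
      · refine Finset.sum_congr rfl fun t ht => ?_
        show W (γ t) = W (if t ≤ T then γ t else y)
        rw [if_pos (Finset.mem_range.1 ht).le]
      · simp [h3]
  · intro x hx
    refine le_csInf (hne x) ?_
    rintro r ⟨γ, T, h1, h2, h3, rfl⟩
    have := hL γ 0 T (Nat.zero_le _) h1 (by rw [h2, h3]; exact hx)
    rw [h2, h3, one_mul, ← Finset.range_eq_Ico] at this
    exact this

/-- crude local Poincaré inequality along a geodesic -/
theorem local_poincare [G.LocallyFinite] {d c₀ C : ℝ} (h : Gr G d c₀ C) (g : V → ℝ) (z : V) (s : ℕ)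
    {x : V} (hx : x ∈ bl G z s) :
    (g x - g z) ^ 2 ≤ s * ∑ u ∈ bl G z s, ∑ v ∈ G.neighborFinset u, (g u - g v) ^ 2 := by
  classical
  rw [h.mem_bl] at hx
  obtain ⟨w, hw⟩ := h.conn.exists_walk_length_eq_dist z x
  have hlen : w.length ≤ s := by rw [hw]; exact hx
  have hdist : ∀ t, t ≤ w.length → G.dist z (w.getVert t) = t := by
    intro t ht
    have h1 : G.dist z (w.getVert t) ≤ t := by
      have := SimpleGraph.dist_le (w.take t)
      rw [SimpleGraph.Walk.take_length] at this
      omega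
    have h2 : G.dist (w.getVert t) x ≤ w.length - t := by
      have := SimpleGraph.dist_le (w.drop t)
      rw [SimpleGraph.Walk.drop_length] at this
      omega
    have h3 := h.conn.dist_triangle (u := z) (v := w.getVert t) (w := x)
    omega
  have htel : g x - g z = ∑ t ∈ range w.length, (g (w.getVert (t + 1)) - g (w.getVert t)) := by
    rw [Finset.sum_range_sub (fun t => g (w.getVert t))]
    simp
  have hcs : (g x - g z) ^ 2 ≤ w.length *
      ∑ t ∈ range w.length, (g (w.getVert (t + 1)) - g (w.getVert t)) ^ 2 := by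
    rw [htel]
    have := sq_sum_le_card_mul_sum_sq (s := range w.length)
      (f := fun t => g (w.getVert (t + 1)) - g (w.getVert t))
    rwa [Finset.card_range] at this
  have hinj : ∑ t ∈ range w.length, (g (w.getVert (t + 1)) - g (w.getVert t)) ^ 2 ≤
      ∑ u ∈ bl G z s, ∑ v ∈ G.neighborFinset u, (g u - g v) ^ 2 := by
    have h1 : ∑ t ∈ range w.length, (g (w.getVert (t + 1)) - g (w.getVert t)) ^ 2 ≤
        ∑ t ∈ range w.length, ∑ v ∈ G.neighborFinset (w.getVert t), (g (w.getVert t) - g v) ^ 2 := by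
      refine Finset.sum_le_sum fun t ht => ?_
      have hadj := w.adj_getVert_succ (Finset.mem_range.1 ht)
      have := Finset.single_le_sum (f := fun v => (g (w.getVert t) - g v) ^ 2)
        (s := G.neighborFinset (w.getVert t)) (fun v _ => sq_nonneg _)
        ((SimpleGraph.mem_neighborFinset _ _ _).2 hadj)
      calc (g (w.getVert (t + 1)) - g (w.getVert t)) ^ 2
          = (g (w.getVert t) - g (w.getVert (t + 1))) ^ 2 := by ring
        _ ≤ _ := this
    refine h1.trans ?_
    have hinj : Set.InjOn w.getVert (range w.length : Set ℕ) := by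
      intro t ht t' ht' he
      have h2 := hdist t (Finset.mem_range.1 ht).le
      have h3 := hdist t' (Finset.mem_range.1 ht').le
      rw [he] at h2
      omega
    rw [← Finset.sum_image (f := fun u => ∑ v ∈ G.neighborFinset u, (g u - g v) ^ 2) hinj]
    refine Finset.sum_le_sum_of_subset_of_nonneg ?_ fun u _ _ =>
      Finset.sum_nonneg fun v _ => sq_nonneg _
    intro u hu
    obtain ⟨t, ht, rfl⟩ := Finset.mem_image.1 hu
    rw [h.mem_bl, hdist t (Finset.mem_range.1 ht).le]
    have := Finset.mem_range.1 ht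
    omega
  have hnn : 0 ≤ ∑ t ∈ range w.length, (g (w.getVert (t + 1)) - g (w.getVert t)) ^ 2 :=
    Finset.sum_nonneg fun _ _ => sq_nonneg _
  calc (g x - g z) ^ 2 ≤ w.length *
      ∑ t ∈ range w.length, (g (w.getVert (t + 1)) - g (w.getVert t)) ^ 2 := hcs
    _ ≤ s * ∑ t ∈ range w.length, (g (w.getVert (t + 1)) - g (w.getVert t)) ^ 2 := by
        gcongr
    _ ≤ _ := by gcongr

end Pool.Agent.Helper60K9.SD
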