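import Pool.Agent.Helper60K9.SD.Entropy
import Pool.Agent.Helper60K9.SD.Cells
import Pool.Agent.Helper60K9.SD.Pot

/-! # The main estimate at a given scale -/

set_option autoImplicit false

namespace Pool.Agent.Helper60K9.SD

open Finset

variable {V : Type*} {G : SimpleGraph V}

/-- degrees are positive and bounded -/
theorem degree_pos [G.LocallyFinite] {d c₀ C : ℝ} (h : Gr G d c₀ C) (v : V) : 0 < G.degree v := by
  classical
  by_contra hv
  have hv0 : G.degree v = 0 := by omega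
  -- the graph is a single vertex
  have hall : ∀ x, x = v := by
    intro x
    by_contra hne
    obtain ⟨w⟩ := h.conn.preconnected v x
    cases w with
    | nil => exact hne rfl
    | @cons _ u _ hadj w =>
      have : u ∈ G.neighborFinset v := (SimpleGraph.mem_neighborFinset _ _ _).2 hadj
      rw [← SimpleGraph.card_neighborFinset_eq_degree, Finset.card_eq_zero] at hv0
      rw [hv0] at this
      simp at this
  have hcard : ∀ n, ((bl G v n).card : ℝ) ≤ 1 := by
    intro n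
    have : (bl G v n).card ≤ 1 := Finset.card_le_one.2 fun a _ b _ => (hall a).trans (hall b).symm
    exact_mod_cast this
  -- contradiction with the lower bound for large n
  have htend : Filter.Tendsto (fun n : ℕ => c₀ * (n : ℝ) ^ d) Filter.atTop Filter.atTop :=
    ((tendsto_rpow_atTop h.dpos).comp tendsto_natCast_atTop_atTop).const_mul_atTop h.cpos
  obtain ⟨n, hn1, hn2⟩ := ((htend.eventually_gt_atTop 1).and (Filter.eventually_ge_atTop 1)).exists
  have := h.lower v n hn2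
  linarith [hcard n]

theorem degree_le [G.LocallyFinite] {d c₀ C : ℝ} (h : Gr G d c₀ C) (v : V) :
    (G.degree v : ℝ) ≤ C := by
  classical
  have h1 : G.neighborFinset v ⊆ bl G v 1 := by
    intro x hx
    rw [SimpleGraph.mem_neighborFinset] at hx
    rw [h.mem_bl]
    exact (SimpleGraph.dist_eq_one_iff_adj.2 hx).le
  have h2 := Finset.card_le_card h1
  rw [SimpleGraph.card_neighborFinset_eq_degree] at h2
  have h3 := h.upper v 1 le_rfl
  simp only [Nat.cast_one, Real.one_rpow, mul_one] at h3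
  exact le_trans (by exact_mod_cast h2) h3

/-- the local energy of a function with gradient bounded by `W` -/
theorem local_energy [G.LocallyFinite] {d c₀ C : ℝ} (h : Gr G d c₀ C) {W F : V → ℝ}
    (hW : ∀ x, 0 ≤ W x) (hF : ∀ x y, G.Adj x y → F y ≤ F x + W x) (z : V) (s : ℕ) :
    ∑ x ∈ bl G z s, ∑ y ∈ G.neighborFinset x, (F x - F y) ^ 2 ≤
      2 * C * ∑ x ∈ bl G z (s + 1), W x ^ 2 := by
  classical
  have h1 : ∀ x, ∀ y ∈ G.neighborFinset x, (F x - F y) ^ 2 ≤ W x ^ 2 + W y ^ 2 := by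
    intro x y hy
    rw [SimpleGraph.mem_neighborFinset] at hy
    have h1 := hF x y hy
    have h2 := hF y x hy.symm
    have h3 := hW x
    have h4 := hW y
    rcases le_total (F x) (F y) with h5 | h5
    · nlinarith
    · nlinarith
  have hC0 : 0 ≤ C := (Nat.cast_nonneg _).trans (degree_le h z)
  have hsub : bl G z s ⊆ bl G z (s + 1) := by
    intro x hx
    rw [h.mem_bl] at hx ⊢
    omega
  calc ∑ x ∈ bl G z s, ∑ y ∈ G.neighborFinset x, (F x - F y) ^ 2
      ≤ ∑ x ∈ bl G z s, ∑ y ∈ G.neighborFinset x, (W x ^ 2 + W y ^ 2) :=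
        Finset.sum_le_sum fun x _ => Finset.sum_le_sum fun y hy => h1 x y hy
    _ = ∑ x ∈ bl G z s, (G.degree x : ℝ) * W x ^ 2 +
        ∑ x ∈ bl G z s, ∑ y ∈ G.neighborFinset x, W y ^ 2 := by
        rw [← Finset.sum_add_distrib]
        refine Finset.sum_congr rfl fun x _ => ?_
        rw [Finset.sum_add_distrib, Finset.sum_const, SimpleGraph.card_neighborFinset_eq_degree,
          nsmul_eq_mul]
    _ ≤ C * ∑ x ∈ bl G z (s + 1), W x ^ 2 + C * ∑ x ∈ bl G z (s + 1), W x ^ 2 := by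
        refine add_le_add ?_ ?_
        · rw [Finset.mul_sum]
          refine (Finset.sum_le_sum (g := fun x => C * W x ^ 2) fun x _ =>
            mul_le_mul_of_nonneg_right (degree_le h x) (sq_nonneg _)).trans ?_
          exact Finset.sum_le_sum_of_subset_of_nonneg hsub fun x _ _ => by positivity
        · have h2 : ∑ x ∈ bl G z s, ∑ y ∈ G.neighborFinset x, W y ^ 2 =
              ∑ x ∈ bl G z s, ∑ y ∈ bl G z (s + 1), if G.Adj x y then W y ^ 2 else 0 := by
            refine Finset.sum_congr rfl fun x hx => ?_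
            rw [← Finset.sum_filter]
            refine Finset.sum_congr ?_ fun _ _ => rfl
            ext y
            rw [SimpleGraph.mem_neighborFinset, Finset.mem_filter, h.mem_bl]
            constructor
            · intro hy
              rw [h.mem_bl] at hx
              have := dist_le_of_adj h.conn z hy
              exact ⟨by omega, hy⟩
            · exact fun hy => hy.2
          rw [h2, Finset.sum_comm, Finset.mul_sum]
          refine Finset.sum_le_sum fun y _ => ?_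
          rw [← Finset.sum_filter, Finset.sum_const, nsmul_eq_mul]
          refine mul_le_mul_of_nonneg_right ?_ (sq_nonneg _)
          refine le_trans ?_ (degree_le h y)
          rw [← SimpleGraph.card_neighborFinset_eq_degree]
          exact_mod_cast Finset.card_le_card fun x hx => by
            rw [SimpleGraph.mem_neighborFinset]
            exact (Finset.mem_filter.1 hx).2.symm
    _ = _ := by ring

/-- the weighted sum of a function with small local mass against a function of small energy -/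
theorem weighted_sum [G.LocallyFinite] {d c₀ C : ℝ} (h : Gr G d c₀ C) {Ca : ℝ}
    (hCa0 : 0 < Ca)
    (hCa : ∀ (ρ R : ℕ), 1 ≤ ρ → ∀ (v : V) (T : Finset V), (∀ x ∈ T, G.dist v x ≤ R) →
      (∀ x ∈ T, ∀ y ∈ T, x ≠ y → ρ ≤ G.dist x y) → (T.card : ℝ) ≤ Ca * ((R : ℝ) / ρ + 2) ^ d)
    (g D : V → ℝ) (hD : ∀ x, 0 ≤ D x) {s : ℕ} (hs : 1 ≤ s) {Dm : ℝ}
    (hDm : ∀ z, ∑ x ∈ bl G z s, D x ≤ Dm) (U U' : Finset V)
    (hU : ∀ x ∈ U, ∀ u, G.dist x u ≤ 2 * s → u ∈ U') :
    ∑ x ∈ U, g x ^ 2 * D x ≤ Dm * (Ca * 3 ^ d) * (2 / (c₀ * (s : ℝ) ^ d) * ∑ u ∈ U', g u ^ 2 +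
      8 * s * ∑ u ∈ U', ∑ v ∈ G.neighborFinset u, (g u - g v) ^ 2) := by
  classical
  obtain ⟨c, hc1, hc2, hc3, -⟩ := exists_cells (G := G) h.conn s hs
  set Z := U.image c with hZ
  have hspos : (0 : ℝ) < s := by exact_mod_cast hs
  have hvol : 0 < c₀ * (s : ℝ) ^ d := mul_pos h.cpos (Real.rpow_pos_of_pos hspos d)
  -- overlap
  have hover : ∀ φ : V → ℝ, (∀ x, 0 ≤ φ x) →
      ∑ z ∈ Z, ∑ u ∈ bl G z s, φ u ≤ (Ca * 3 ^ d) * ∑ u ∈ U', φ u := by
    intro φ hφ
    have h1 : ∀ z ∈ Z, ∑ u ∈ bl G z s, φ u = ∑ u ∈ U', if G.dist z u ≤ s then φ u else 0 := by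
      intro z hz
      rw [← Finset.sum_filter]
      refine Finset.sum_congr ?_ fun _ _ => rfl
      ext u
      rw [h.mem_bl, Finset.mem_filter]
      refine ⟨fun hu => ⟨?_, hu⟩, fun hu => hu.2⟩
      obtain ⟨x, hx, hxz⟩ := Finset.mem_image.1 hz
      refine hU x hx u ?_
      have h2 := hc1 x
      have h3 := h.conn.dist_triangle (u := x) (v := c x) (w := u)
      rw [hxz] at h2 h3
      omega
    rw [Finset.sum_congr rfl h1, Finset.sum_comm, Finset.mul_sum]
    refine Finset.sum_le_sum fun u _ => ?_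
    rw [← Finset.sum_filter, Finset.sum_const, nsmul_eq_mul]
    refine mul_le_mul_of_nonneg_right ?_ (hφ u)
    have h2 := hCa s s hs u (Z.filter (fun z => G.dist z u ≤ s))
      (fun z hz => by rw [SimpleGraph.dist_comm]; exact (Finset.mem_filter.1 hz).2)
      (fun z hz z' hz' hne => by
        obtain ⟨x, _, hxz⟩ := Finset.mem_image.1 (Finset.mem_filter.1 hz).1
        obtain ⟨x', _, hxz'⟩ := Finset.mem_image.1 (Finset.mem_filter.1 hz').1
        rw [← hxz, ← hxz'] at hne ⊢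
        exact hc3 x x' hne)
    have h3 : (s : ℝ) / s + 2 = 3 := by
      rw [div_self hspos.ne']; norm_num
    rwa [h3] at h2
  have hDm0 : ∀ z : V, 0 ≤ Dm := fun z => (Finset.sum_nonneg fun x _ => hD x).trans (hDm z)
  -- one ball
  have hball : ∀ z, ∑ x ∈ bl G z s, g x ^ 2 * D x ≤
      Dm * (2 / (c₀ * (s : ℝ) ^ d) * ∑ u ∈ bl G z s, g u ^ 2 +
        8 * s * ∑ u ∈ bl G z s, ∑ v ∈ G.neighborFinset u, (g u - g v) ^ 2) := by
    intro z
    set En := ∑ u ∈ bl G z s, ∑ v ∈ G.neighborFinset u, (g u - g v) ^ 2 with hEn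
    have hzmem : z ∈ bl G z s := by rw [h.mem_bl]; simp
    obtain ⟨x0, hx0, hmin⟩ := Finset.exists_min_image (bl G z s) (fun x => g x ^ 2) ⟨z, hzmem⟩
    have h1 : g x0 ^ 2 ≤ (∑ u ∈ bl G z s, g u ^ 2) / (c₀ * (s : ℝ) ^ d) := by
      rw [le_div_iff₀ hvol]
      calc g x0 ^ 2 * (c₀ * (s : ℝ) ^ d) ≤ g x0 ^ 2 * ((bl G z s).card : ℝ) :=
            mul_le_mul_of_nonneg_left (h.lower z s hs) (sq_nonneg _)
        _ = ∑ _u ∈ bl G z s, g x0 ^ 2 := by rw [Finset.sum_const, nsmul_eq_mul]; ring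
        _ ≤ _ := Finset.sum_le_sum fun u hu => hmin u hu
    have h2 : ∀ x ∈ bl G z s, g x ^ 2 ≤ 2 / (c₀ * (s : ℝ) ^ d) * ∑ u ∈ bl G z s, g u ^ 2 +
        8 * s * En := by
      intro x hx
      have h3 := local_poincare h g z s hx
      have h4 := local_poincare h g z s hx0
      rw [← hEn] at h3 h4
      have h5 : g x ^ 2 ≤ 2 * g x0 ^ 2 + 2 * (g x - g x0) ^ 2 := by
        nlinarith [sq_nonneg (g x0 - (g x - g x0))]
      have h6 : (g x - g x0) ^ 2 ≤ 2 * (g x - g z) ^ 2 + 2 * (g x0 - g z) ^ 2 := by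
        nlinarith [sq_nonneg ((g x - g z) + (g x0 - g z))]
      have h7 : 2 / (c₀ * (s : ℝ) ^ d) * ∑ u ∈ bl G z s, g u ^ 2 =
          2 * ((∑ u ∈ bl G z s, g u ^ 2) / (c₀ * (s : ℝ) ^ d)) := by ring
      rw [h7]
      nlinarith
    have h8 : 0 ≤ 2 / (c₀ * (s : ℝ) ^ d) * ∑ u ∈ bl G z s, g u ^ 2 + 8 * s * En :=
      (sq_nonneg (g z)).trans (h2 z hzmem)
    calc ∑ x ∈ bl G z s, g x ^ 2 * D x
        ≤ ∑ x ∈ bl G z s, (2 / (c₀ * (s : ℝ) ^ d) * ∑ u ∈ bl G z s, g u ^ 2 + 8 * s * En) * D x :=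
          Finset.sum_le_sum fun x hx => mul_le_mul_of_nonneg_right (h2 x hx) (hD x)
      _ = (2 / (c₀ * (s : ℝ) ^ d) * ∑ u ∈ bl G z s, g u ^ 2 + 8 * s * En) *
          ∑ x ∈ bl G z s, D x := (Finset.mul_sum _ _ _).symm
      _ ≤ (2 / (c₀ * (s : ℝ) ^ d) * ∑ u ∈ bl G z s, g u ^ 2 + 8 * s * En) * Dm :=
          mul_le_mul_of_nonneg_left (hDm z) h8
      _ = _ := by ring
  -- sum over the cells
  have h1 : ∑ x ∈ U, g x ^ 2 * D x ≤ ∑ z ∈ Z, ∑ x ∈ bl G z s, g x ^ 2 * D x := by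
    rw [← Finset.sum_fiberwise_of_maps_to (s := U) (t := Z) (g := c)
      (fun x hx => Finset.mem_image_of_mem c hx)]
    refine Finset.sum_le_sum fun z _ => Finset.sum_le_sum_of_subset_of_nonneg ?_
      fun x _ _ => mul_nonneg (sq_nonneg _) (hD x)
    intro x hx
    have h2 := (Finset.mem_filter.1 hx).2
    rw [h.mem_bl, ← h2, SimpleGraph.dist_comm]
    exact (hc1 x).le
  rcases U.eq_empty_or_nonempty with hUe | ⟨u0, hu0⟩
  · subst hUe
    rcases isEmpty_or_nonempty V with hV | ⟨⟨v0⟩⟩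
    · exact absurd h.conn.nonempty (not_nonempty_iff.2 hV)
    · have h2 : (0 : ℝ) ≤ Dm := hDm0 v0
      simp only [Finset.sum_empty]
      have h3 : (0 : ℝ) ≤ Ca * 3 ^ d := by positivity
      have h4 : 0 ≤ ∑ u ∈ U', g u ^ 2 := Finset.sum_nonneg fun _ _ => sq_nonneg _
      have h5 : 0 ≤ ∑ u ∈ U', ∑ v ∈ G.neighborFinset u, (g u - g v) ^ 2 :=
        Finset.sum_nonneg fun _ _ => Finset.sum_nonneg fun _ _ => sq_nonneg _
      have h6 : 0 ≤ 2 / (c₀ * (s : ℝ) ^ d) := by positivity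
      positivity
  · have h2 : (0 : ℝ) ≤ Dm := hDm0 u0
    calc ∑ x ∈ U, g x ^ 2 * D x ≤ ∑ z ∈ Z, ∑ x ∈ bl G z s, g x ^ 2 * D x := h1
      _ ≤ ∑ z ∈ Z, Dm * (2 / (c₀ * (s : ℝ) ^ d) * ∑ u ∈ bl G z s, g u ^ 2 +
        8 * s * ∑ u ∈ bl G z s, ∑ v ∈ G.neighborFinset u, (g u - g v) ^ 2) :=
          Finset.sum_le_sum fun z _ => hball z
      _ = Dm * (2 / (c₀ * (s : ℝ) ^ d) * ∑ z ∈ Z, ∑ u ∈ bl G z s, g u ^ 2 +
        8 * s * ∑ z ∈ Z, ∑ u ∈ bl G z s, ∑ v ∈ G.neighborFinset u, (g u - g v) ^ 2) := by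
          rw [← Finset.mul_sum, Finset.sum_add_distrib, ← Finset.mul_sum, ← Finset.mul_sum]
      _ ≤ Dm * (2 / (c₀ * (s : ℝ) ^ d) * ((Ca * 3 ^ d) * ∑ u ∈ U', g u ^ 2) +
        8 * s * ((Ca * 3 ^ d) * ∑ u ∈ U', ∑ v ∈ G.neighborFinset u, (g u - g v) ^ 2)) := by
          refine mul_le_mul_of_nonneg_left (add_le_add ?_ ?_) h2
          · exact mul_le_mul_of_nonneg_left (hover _ fun x => sq_nonneg _) (by positivity)
          · exact mul_le_mul_of_nonneg_left
              (hover _ fun x => Finset.sum_nonneg fun _ _ => sq_nonneg _) (by positivity)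
      _ = _ := by ring

end Pool.Agent.Helper60K9.SD
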